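import Mathlib
import Pool.Agent.TH461.SST.Stms
import Pool.Agent.H393R2.Aux2

/-!
# Project SST, A1: the auxiliary polynomial for a family of integer matrices (helper989)
-/

set_option autoImplicit false

open Finset Filter Topology

namespace Pool.Agent.TH461.SST.Aux

open Pool.Agent.TH461.SST

namespace Help

open Pool.Agent.H393R2 (Dset mem_Dset)

/-- the index set of the linear factors -/
abbrev Ts {m n : ℕ} (a : Fin m → Fin n → ℕ) := Σ (x : Fin m × Fin n), Fin (a x.1 x.2)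

/-- the exponent vector of a choice of one variable in every linear factor -/
def ty {m n : ℕ} (a : Fin m → Fin n → ℕ) (f : Ts a → Fin n) : Fin m → Fin n → ℕ :=
  fun h i => ((univ : Finset (Ts a)).filter (fun t => (t.1.1, f t) = (h, i))).card

/-- the coefficients of the expansion -/
def Kf {m n : ℕ} (N : Matrix (Fin n) (Fin n) ℤ) (a J : Fin m → Fin n → ℕ) : ℤ :=
  ∑ f : Ts a → Fin n, if ty a f = J then ∏ t : Ts a, N t.1.2 (f t) else 0

lemma prod_Ts {R : Type*} [CommMonoid R] {m n : ℕ} (a : Fin m → Fin n → ℕ) (g : Fin m → Fin n → R) :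
    ∏ t : Ts a, g t.1.1 t.1.2 = ∏ h, ∏ l, g h l ^ (a h l) := by
  rw [Fintype.prod_sigma, Fintype.prod_prod_type]
  refine prod_congr rfl fun h _ => prod_congr rfl fun l _ => ?_
  simp

lemma sum_Ts {R : Type*} [AddCommMonoid R] {m n : ℕ} (a : Fin m → Fin n → ℕ) (g : Fin m → Fin n → R) :
    ∑ t : Ts a, g t.1.1 t.1.2 = ∑ h, ∑ l, (a h l) • g h l := by
  rw [Fintype.sum_sigma, Fintype.sum_prod_type]
  refine sum_congr rfl fun h _ => sum_congr rfl fun l _ => ?_
  simp

lemma prod_ty {R : Type*} [CommMonoid R] {m n : ℕ} (a : Fin m → Fin n → ℕ) (f : Ts a → Fin n)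
    (W : Fin m → Fin n → R) : ∏ t : Ts a, W t.1.1 (f t) = ∏ h, ∏ i, W h i ^ (ty a f h i) := by
  rw [← Fintype.prod_prod_type (f := fun x : Fin m × Fin n => W x.1 x.2 ^ (ty a f x.1 x.2)),
    ← Finset.prod_fiberwise_of_maps_to (s := (univ : Finset (Ts a)))
      (t := (univ : Finset (Fin m × Fin n))) (g := fun t => (t.1.1, f t)) (fun _ _ => mem_univ _)]
  refine prod_congr rfl fun x _ => ?_
  rw [ty, ← prod_const]
  refine prod_congr rfl fun t ht => ?_
  have h1 := (mem_filter.1 ht).2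
  rw [Prod.mk.injEq] at h1
  rw [h1.1, h1.2]

lemma ty_mem {m n : ℕ} {r : Fin m → ℕ} {a : Fin m → Fin n → ℕ} (ha : a ∈ Dset m n r)
    (f : Ts a → Fin n) : ty a f ∈ Dset m n r := by
  rw [mem_Dset] at ha ⊢
  intro h
  have h1 : ∑ i, ty a f h i = ((univ : Finset (Ts a)).filter (fun t => t.1.1 = h)).card := by
    rw [Finset.card_eq_sum_card_fiberwise (f := f) (t := (univ : Finset (Fin n)))
      (fun _ _ => mem_coe.2 (mem_univ _))]
    refine sum_congr rfl fun i _ => ?_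
    unfold ty
    congr 1
    ext t
    simp
  rw [h1, card_filter]
  have h2 := sum_Ts a (fun h' _ => if h' = h then 1 else 0)
  rw [h2, sum_eq_single h]
  · simp [ha h]
  · intro b _ hb
    simp [hb]
  · intro hh
    exact absurd (mem_univ _) hh

lemma card_Ts {m n : ℕ} {r : Fin m → ℕ} {a : Fin m → Fin n → ℕ} (ha : a ∈ Dset m n r) :
    Fintype.card (Ts a) = ∑ h, r h := by
  rw [mem_Dset] at ha
  have h2 := sum_Ts a (fun _ _ => 1)
  simp only [sum_const, card_univ, smul_eq_mul, mul_one] at h2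
  rw [h2]
  exact sum_congr rfl fun h _ => ha h

/-- the expansion -/
lemma expand {R : Type*} [CommRing R] {m n : ℕ} {r : Fin m → ℕ} {a : Fin m → Fin n → ℕ}
    (ha : a ∈ Dset m n r) (N : Matrix (Fin n) (Fin n) ℤ) (W : Fin m → Fin n → R) :
    ∏ h, ∏ l, (∑ i, ((N l i : ℤ) : R) * W h i) ^ (a h l) =
      ∑ J ∈ Dset m n r, (Kf N a J : R) * ∏ h, ∏ l, W h l ^ (J h l) := by
  classical
  rw [← prod_Ts a (fun h l => ∑ i, ((N l i : ℤ) : R) * W h i)]
  have h1 := Finset.prod_univ_sum (fun _ : Ts a => (univ : Finset (Fin n)))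
    (fun t i => ((N t.1.2 i : ℤ) : R) * W t.1.1 i)
  rw [h1, Fintype.piFinset_univ]
  have h2 : ∀ f : Ts a → Fin n, ∏ t : Ts a, (((N t.1.2 (f t) : ℤ) : R) * W t.1.1 (f t)) =
      ∑ J ∈ Dset m n r, (if ty a f = J then ((∏ t : Ts a, N t.1.2 (f t) : ℤ) : R) *
        ∏ h, ∏ l, W h l ^ (J h l) else 0) := by
    intro f
    rw [sum_ite_eq, if_pos (ty_mem ha f), prod_mul_distrib, prod_ty]
    push_cast
    rfl
  rw [sum_congr rfl fun f _ => h2 f, sum_comm]
  refine sum_congr rfl fun J _ => ?_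
  unfold Kf
  push_cast
  rw [sum_mul]
  refine sum_congr rfl fun f _ => ?_
  split_ifs
  · rfl
  · simp

/-- the size of the coefficients -/
lemma Kf_le {m n : ℕ} {r : Fin m → ℕ} {a : Fin m → Fin n → ℕ} (ha : a ∈ Dset m n r)
    (N : Matrix (Fin n) (Fin n) ℤ) (J : Fin m → Fin n → ℕ) (B : ℕ)
    (hB : ∀ l, ∑ i, |N l i| ≤ (B : ℤ)) : |Kf N a J| ≤ (B : ℤ) ^ (∑ h, r h) := by
  classical
  unfold Kf
  calc |∑ f : Ts a → Fin n, if ty a f = J then ∏ t : Ts a, N t.1.2 (f t) else 0|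
      ≤ ∑ f : Ts a → Fin n, |if ty a f = J then ∏ t : Ts a, N t.1.2 (f t) else 0| :=
        abs_sum_le_sum_abs _ _
    _ ≤ ∑ f : Ts a → Fin n, ∏ t : Ts a, |N t.1.2 (f t)| := by
        refine sum_le_sum fun f _ => ?_
        split_ifs
        · rw [abs_prod]
        · rw [abs_zero]
          exact prod_nonneg fun _ _ => abs_nonneg _
    _ = ∏ t : Ts a, ∑ i, |N t.1.2 i| := by
        have h1 := Finset.prod_univ_sum (fun _ : Ts a => (univ : Finset (Fin n)))
          (fun t i => |N t.1.2 i|)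
        rw [h1, Fintype.piFinset_univ]
    _ ≤ ∏ _t : Ts a, (B : ℤ) :=
        prod_le_prod (fun _ _ => sum_nonneg fun _ _ => abs_nonneg _) fun t _ => hB _
    _ = (B : ℤ) ^ (∑ h, r h) := by
        rw [prod_const, card_univ, card_Ts ha]

attribute [local instance] Matrix.seminormedAddCommGroup in
/-- Siegel's lemma in the form needed -/
lemma siegel {α β : Type} [Fintype α] [Fintype β] [Nonempty β] (A : Matrix α β ℤ) (S : ℝ)
    (hS : 1 ≤ S) (hA : ∀ i j, |(A i j : ℝ)| ≤ S) (hc : 2 * Fintype.card α ≤ Fintype.card β) :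
    ∃ t : β → ℤ, t ≠ 0 ∧ A.mulVec t = 0 ∧ ∀ j, |(t j : ℝ)| ≤ Fintype.card β * S := by
  classical
  have hβ : 1 ≤ Fintype.card β := Fintype.card_pos
  have hβ' : (1 : ℝ) ≤ (Fintype.card β : ℝ) := by exact_mod_cast hβ
  rcases Nat.eq_zero_or_pos (Fintype.card α) with h0 | hpos
  · obtain ⟨b⟩ := (inferInstance : Nonempty β)
    refine ⟨fun j => if j = b then 1 else 0, ?_, ?_, ?_⟩
    · intro h
      have := congrFun h b
      simp at this
    · funext i
      exact absurd (Fintype.card_pos_iff.2 ⟨i⟩) (by omega)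
    · intro j
      have h1 : (1 : ℝ) ≤ Fintype.card β * S := by nlinarith
      show |(((if j = b then 1 else 0 : ℤ)) : ℝ)| ≤ _
      split_ifs
      · simpa using h1
      · simp only [Int.cast_zero, abs_zero]
        linarith
  · obtain ⟨t, ht0, hAt, htn⟩ := Int.Matrix.exists_ne_zero_int_vec_norm_le A
      (by omega) hpos
    refine ⟨t, ht0, hAt, ?_⟩
    have hAn : ‖A‖ ≤ S := by
      rw [Matrix.norm_le_iff (by linarith)]
      intro i j
      rw [Int.norm_eq_abs]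
      exact hA i j
    have hmaxA : max 1 ‖A‖ ≤ S := max_le hS hAn
    have hbase : (1 : ℝ) ≤ (Fintype.card β : ℝ) * max 1 ‖A‖ := by
      have := le_max_left 1 ‖A‖
      nlinarith
    have hexp : ((Fintype.card α : ℝ) / ((Fintype.card β : ℝ) - (Fintype.card α : ℝ))) ≤ 1 := by
      have h1 : 2 * (Fintype.card α : ℝ) ≤ Fintype.card β := by exact_mod_cast hc
      have h2 : (0 : ℝ) < (Fintype.card α : ℝ) := by exact_mod_cast hpos
      rw [div_le_one (by linarith)]
      linarith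
    have htn' : ‖t‖ ≤ Fintype.card β * S := by
      refine htn.trans ?_
      calc ((Fintype.card β : ℝ) * max 1 ‖A‖) ^ ((Fintype.card α : ℝ) /
            ((Fintype.card β : ℝ) - (Fintype.card α : ℝ)))
          ≤ ((Fintype.card β : ℝ) * max 1 ‖A‖) ^ (1 : ℝ) :=
            Real.rpow_le_rpow_of_exponent_le hbase hexp
        _ = (Fintype.card β : ℝ) * max 1 ‖A‖ := Real.rpow_one _
        _ ≤ _ := mul_le_mul_of_nonneg_left hmaxA (by positivity)
    intro j
    refine le_trans ?_ htn'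
    have := norm_le_pi_norm t j
    rwa [Int.norm_eq_abs] at this

end Help

open Help in
open Pool.Agent.H393R2 (Dset mem_Dset) in
open Pool.Agent.H393R2.AuxNS (bad_card card_Dset_le Dset_nonempty) in
theorem aux : AuxStmt := by
  classical
  intro n hn s M τ hτ
  -- a common bound for the rows
  obtain ⟨B, hB1, hB⟩ : ∃ B : ℕ, 1 ≤ B ∧ ∀ v l, ∑ i, |M v l i| ≤ (B : ℤ) := by
    refine ⟨1 + ∑ v, ∑ l, ∑ i, (M v l i).natAbs, by omega, ?_⟩
    intro v l
    have h1 : ∑ i, |M v l i| = ((∑ i, (M v l i).natAbs : ℕ) : ℤ) := by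
      push_cast
      exact sum_congr rfl fun i _ => by rw [Int.abs_eq_natAbs]
    rw [h1]
    have h2 : ∑ i, (M v l i).natAbs ≤ ∑ l, ∑ i, (M v l i).natAbs :=
      single_le_sum (f := fun l => ∑ i, (M v l i).natAbs) (fun _ _ => Nat.zero_le _) (mem_univ l)
    have h3 : ∑ l, ∑ i, (M v l i).natAbs ≤ ∑ v, ∑ l, ∑ i, (M v l i).natAbs :=
      single_le_sum (f := fun v => ∑ l, ∑ i, (M v l i).natAbs) (fun _ _ => Nat.zero_le _) (mem_univ v)
    exact_mod_cast (by omega : ∑ i, (M v l i).natAbs ≤ 1 + ∑ v, ∑ l, ∑ i, (M v l i).natAbs)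
  have hB1' : (1 : ℝ) ≤ B := by exact_mod_cast hB1
  have h2n : (1 : ℝ) ≤ 2 ^ n := one_le_pow₀ (by norm_num)
  have hC1 : (1 : ℝ) ≤ 2 ^ n * B := by nlinarith
  refine ⟨2 ^ n * B * (2 ^ n * B), by nlinarith, ⌈2 * s * n / τ ^ 2⌉₊ + 1, ?_⟩
  intro m hm r hr
  have hm0 : 0 < m := by omega
  have hm0' : (0 : ℝ) < m := by exact_mod_cast hm0
  have hn' : (0 : ℝ) < n := by exact_mod_cast hn
  have hmge : 2 * s * n / τ ^ 2 ≤ m := by
    refine (Nat.le_ceil _).trans ?_
    have : ⌈2 * (s : ℝ) * n / τ ^ 2⌉₊ ≤ m := by omega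
    exact_mod_cast this
  set D := Dset m n r with hD
  set Nr := ∑ h, r h with hNr
  have hDne : D.Nonempty := Dset_nonempty hn r
  have hDpos' : (0 : ℝ) < D.card := by exact_mod_cast hDne.card_pos
  have hDle : (D.card : ℝ) ≤ (2 ^ n) ^ Nr := by exact_mod_cast card_Dset_le r
  set Bad := D.filter (fun a => ∃ l : Fin n,
      τ * m < |∑ h, ((a h l : ℝ) / (r h : ℝ) - 1 / (n : ℝ))|) with hBad
  have hBadcard : 2 * (s * Bad.card) ≤ D.card := by
    have h1 : (Bad.card : ℝ) ≤ n * (D.card / (τ ^ 2 * m)) := bad_card hn r hr τ hτ hm0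
    have h2 : 2 * (s * (n * ((D.card : ℝ) / (τ ^ 2 * m)))) ≤ D.card := by
      have h3 : 2 * (s * (n * ((D.card : ℝ) / (τ ^ 2 * m)))) =
          (2 * s * n / τ ^ 2) * (D.card / m) := by
        field_simp
      rw [h3]
      calc (2 * s * n / τ ^ 2) * ((D.card : ℝ) / m) ≤ m * ((D.card : ℝ) / m) :=
            mul_le_mul_of_nonneg_right hmge (by positivity)
        _ = D.card := by field_simp
    have h4 : 2 * ((s : ℝ) * Bad.card) ≤ D.card := by
      refine le_trans ?_ h2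
      have hs : (0 : ℝ) ≤ s := by positivity
      nlinarith [mul_le_mul_of_nonneg_left h1 hs]
    exact_mod_cast h4
  have hdev : ∀ (a : Fin m → Fin n → ℕ) (l : Fin n),
      ∑ h, ((a h l : ℝ) / (r h : ℝ) - 1 / (n : ℝ)) = ∑ h, (a h l : ℝ) / (r h : ℝ) - m / n := by
    intro a l
    rw [Finset.sum_sub_distrib]; simp [div_eq_mul_inv]
  -- Siegel's lemma
  let A : Matrix (Fin s × ↥Bad) ↥D ℤ := Matrix.of fun vJ a => Kf (M vJ.1) a.1 vJ.2.1
  have : Nonempty ↥D := hDne.to_subtype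
  obtain ⟨t, ht0, hAt, htn⟩ := siegel A ((B : ℝ) ^ Nr) (one_le_pow₀ hB1') (by
      intro i j
      have := Kf_le (r := r) j.2 (M i.1) i.2.1 B (hB i.1)
      simp only [A, Matrix.of_apply]
      exact_mod_cast this) (by
      rw [Fintype.card_prod, Fintype.card_coe, Fintype.card_fin, Fintype.card_coe]
      exact hBadcard)
  rw [Fintype.card_coe] at htn
  obtain ⟨c, hc1, hc0⟩ : ∃ c : (Fin m → Fin n → ℕ) → ℤ,
      (∀ a (h : a ∈ D), c a = t ⟨a, h⟩) ∧ (∀ a, a ∉ D → c a = 0) :=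
    ⟨fun a => if h : a ∈ D then t ⟨a, h⟩ else 0, fun a h => dif_pos h, fun a h => dif_neg h⟩
  have hcb : ∀ a ∈ D, |(c a : ℝ)| ≤ (2 ^ n * B) ^ Nr := by
    intro a ha
    rw [hc1 a ha, mul_pow]
    exact (htn ⟨a, ha⟩).trans (mul_le_mul_of_nonneg_right hDle (by positivity))
  have hCpow : ((2 : ℝ) ^ n * B) ^ Nr ≤ (2 ^ n * B * (2 ^ n * B)) ^ Nr :=
    pow_le_pow_left₀ (by positivity) (by nlinarith) _
  refine ⟨c, ?_, fun a ha => (hcb a ha).trans hCpow, ?_⟩
  · obtain ⟨a, ha⟩ := Function.ne_iff.mp ht0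
    refine ⟨a.1, a.2, ?_⟩
    rw [hc1 a.1 a.2]; exact ha
  · intro v
    refine ⟨fun J => ∑ a ∈ D, c a * Kf (M v) a J, ?_, ?_, ?_⟩
    · intro J _
      push_cast
      refine (abs_sum_le_sum_abs _ _).trans ?_
      have h1 : ∀ a ∈ D, |(c a : ℝ) * (Kf (M v) a J : ℝ)| ≤ (2 ^ n * B) ^ Nr * (B : ℝ) ^ Nr := by
        intro a ha
        rw [abs_mul]
        have h2 : |(Kf (M v) a J : ℝ)| ≤ (B : ℝ) ^ Nr := by
          exact_mod_cast Kf_le (r := r) ha (M v) J B (hB v)
        exact mul_le_mul (hcb a ha) h2 (abs_nonneg _) (by positivity)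
      refine (sum_le_card_nsmul _ _ _ h1).trans ?_
      rw [nsmul_eq_mul]
      calc (D.card : ℝ) * ((2 ^ n * B) ^ Nr * (B : ℝ) ^ Nr) ≤
            (2 ^ n) ^ Nr * ((2 ^ n * B) ^ Nr * (B : ℝ) ^ Nr) :=
            mul_le_mul_of_nonneg_right hDle (by positivity)
        _ = (2 ^ n * B * (2 ^ n * B)) ^ Nr := by
            rw [mul_pow, mul_pow]
            ring
    · intro J hJ hdJ l
      by_contra hlt
      push Not at hlt
      apply hdJ
      have hJB : J ∈ Bad := by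
        rw [hBad, mem_filter]
        refine ⟨hJ, l, ?_⟩
        rw [hdev]
        exact hlt
      have h3 := congrFun hAt (v, ⟨J, hJB⟩)
      simp only [Matrix.mulVec, dotProduct, A, Matrix.of_apply, Pi.zero_apply] at h3
      show ∑ a ∈ D, c a * Kf (M v) a J = 0
      rw [← h3, ← sum_coe_sort D]
      refine sum_congr rfl fun a _ => ?_
      rw [hc1 a.1 a.2]
      ring
    · intro R _ W
      have h1 : ∀ a ∈ D, (c a : R) * ∏ h, ∏ l, (∑ i, ((M v l i : ℤ) : R) * W h i) ^ (a h l) =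
          ∑ J ∈ D, (c a : R) * ((Kf (M v) a J : R) * ∏ h, ∏ l, W h l ^ (J h l)) := by
        intro a ha
        rw [expand (r := r) ha (M v) W, mul_sum]
      rw [sum_congr rfl h1, sum_comm]
      refine sum_congr rfl fun J _ => ?_
      push_cast
      rw [sum_mul]
      refine sum_congr rfl fun a _ => ?_
      ring

end Pool.Agent.TH461.SST.Aux
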