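import Mathlib
import Pool.Agent.TH461.SST.Stms

set_option autoImplicit false

open Finset Filter Topology

namespace Pool.Agent.TH461.SST.Basis

open Pool.Agent.TH461.SST

/-- the map to the finite group -/
noncomputable def toFin {n s : ℕ} (M : Fin s → Matrix (Fin n) (Fin n) ℤ) (b : Fin s → ℕ)
    (e : Fin s → Fin n → ℕ) : (Fin n → ℤ) →+ ((v : Fin s) → (l : Fin n) → ZMod ((b v) ^ (e v l))) where
  toFun y := fun v l => ((∑ j, M v l j * y j : ℤ) : ZMod ((b v) ^ (e v l)))
  map_zero' := by
    funext v l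
    simp
  map_add' y z := by
    funext v l
    simp only [Pi.add_apply, mul_add, Finset.sum_add_distrib]
    push_cast
    ring

theorem mem_ker_toFin {n s : ℕ} (M : Fin s → Matrix (Fin n) (Fin n) ℤ) (b : Fin s → ℕ)
    (e : Fin s → Fin n → ℕ) (y : Fin n → ℤ) :
    y ∈ (toFin M b e).ker ↔ ∀ v l, (b v : ℤ) ^ (e v l) ∣ ∑ j, M v l j * y j := by
  rw [AddMonoidHom.mem_ker]
  constructor
  · intro h v l
    have h1 : ((∑ j, M v l j * y j : ℤ) : ZMod ((b v) ^ (e v l))) = 0 := congrFun (congrFun h v) l
    rw [ZMod.intCast_zmod_eq_zero_iff_dvd] at h1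
    exact_mod_cast h1
  · intro h
    funext v l
    show ((∑ j, M v l j * y j : ℤ) : ZMod ((b v) ^ (e v l))) = 0
    rw [ZMod.intCast_zmod_eq_zero_iff_dvd]
    exact_mod_cast h v l

theorem basis : BasisStmt := by
  intro n s M b hb e
  classical
  have hne : ∀ v l, NeZero ((b v) ^ (e v l)) := fun v l =>
    ⟨pow_ne_zero _ (by have := hb v; omega)⟩
  have : ∀ v l, NeZero ((b v) ^ (e v l)) := hne
  have hfin : Finite ((v : Fin s) → (l : Fin n) → ZMod ((b v) ^ (e v l))) := inferInstance
  set f := toFin M b e with hf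
  have hcard : Nat.card ((v : Fin s) → (l : Fin n) → ZMod ((b v) ^ (e v l))) =
      ∏ v, ∏ l, (b v) ^ (e v l) := by
    rw [Nat.card_pi]
    refine Finset.prod_congr rfl fun v _ => ?_
    rw [Nat.card_pi]
    refine Finset.prod_congr rfl fun l _ => ?_
    rw [Nat.card_zmod]
  have hindex : f.ker.index = Nat.card f.range := AddSubgroup.index_ker f
  have hle : f.ker.index ≤ ∏ v, ∏ l, (b v) ^ (e v l) := by
    rw [hindex, ← hcard]
    exact Nat.card_le_card_of_injective (fun x : f.range => (x : (v : Fin s) → (l : Fin n) → ZMod ((b v) ^ (e v l)))) Subtype.val_injective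
  have hindne : f.ker.index ≠ 0 := by
    rw [hindex]
    have : Finite f.range := inferInstance
    exact Nat.card_pos.ne'
  have : f.ker.FiniteIndex := ⟨hindne⟩
  have hrank : Module.finrank ℤ f.ker = Module.finrank ℤ (Fin n → ℤ) :=
    AddSubgroup.finrank_eq_of_finiteIndex f.ker
  have hrank' : Module.finrank ℤ f.ker = n := by rw [hrank]; simp
  have hfree : Module.Free ℤ f.ker :=
    inferInstanceAs (Module.Free ℤ f.ker.toIntSubmodule)
  have hfinite : Module.Finite ℤ f.ker :=
    inferInstanceAs (Module.Finite ℤ f.ker.toIntSubmodule)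
  let bN : Module.Basis (Fin n) ℤ f.ker := Module.finBasisOfFinrankEq ℤ f.ker hrank'
  have hdet : f.ker.index = ((Pi.basisFun ℤ (Fin n)).det (fun i => (bN i : Fin n → ℤ))).natAbs :=
    AddSubgroup.index_eq_natAbs_det (Pi.basisFun ℤ (Fin n)) f.ker bN
  rw [Pi.basisFun_det] at hdet
  let B : Matrix (Fin n) (Fin n) ℤ := Matrix.transpose (fun i => (bN i : Fin n → ℤ))
  have hBdet : f.ker.index = B.det.natAbs := by
    rw [hdet]
    exact congrArg Int.natAbs (Matrix.det_transpose (fun i => (bN i : Fin n → ℤ))).symm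
  refine ⟨B, ?_, ?_, ?_⟩
  · intro h0
    rw [h0] at hBdet
    simp at hBdet
    exact hindne hBdet
  · rw [← Int.natCast_natAbs, ← hBdet]
    exact_mod_cast hle
  · intro y
    rw [← mem_ker_toFin]
    constructor
    · intro hy
      refine ⟨bN.repr ⟨y, hy⟩, ?_⟩
      have h1 := bN.sum_repr ⟨y, hy⟩
      have h2 := congrArg (fun z : f.ker => (z : Fin n → ℤ)) h1
      simp only at h2
      funext l
      have h3 := congrFun h2 l
      rw [AddSubgroup.val_finsetSum, Finset.sum_apply] at h3
      rw [← h3]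
      simp only [Matrix.mulVec, dotProduct, B]
      refine Finset.sum_congr rfl fun i _ => ?_
      rw [mul_comm]
      rfl
    · rintro ⟨z, rfl⟩
      have h1 : B.mulVec z = ((∑ i, z i • bN i : f.ker) : Fin n → ℤ) := by
        funext l
        rw [AddSubgroup.val_finsetSum, Finset.sum_apply]
        simp only [Matrix.mulVec, dotProduct, B]
        refine Finset.sum_congr rfl fun i _ => ?_
        rw [mul_comm]
        rfl
      rw [h1]
      exact (∑ i, z i • bN i : f.ker).2

end Pool.Agent.TH461.SST.Basis
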