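import Mathlib
import Pool.Agent.TH461.SST.Stms
import Pool.Agent.H393R2.Glue814

set_option autoImplicit false

open Finset Filter Topology

namespace Pool.Agent.TH461.SST.Core

open Pool.Agent.TH461.SST
open Pool.Agent.H393R2 (Dset Sk rothStmt reduce_pair span_perp exists_fast exists_degrees)

theorem core (haux : AuxStmt) (hvan : VanishStmt) (hest : EstStmt) : CoreStmt := by
  intro n' hn s M0 M b hP j1 j2 hj12 c γ hc hγ N hN hN0 e A hS w hw hsol x horth hx1 p q hpq hq0
    hrat hht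
  obtain ⟨hM0, hM, hb, hcop⟩ := hP
  have hc0 : (0 : ℝ) < c := by linarith
  have hlogb : ∀ v, 0 < Real.log (b v) := fun v => Real.log_pos (by
    have : (2 : ℝ) ≤ b v := by exact_mod_cast hb v
    linarith)
  have he : ∀ t v l, (e t v l : ℝ) * Real.log (b v) ≤ c * N t := fun t => (hS t).1
  have hApos : ∀ t l, 0 < A t l := fun t => (hS t).2.1
  have hA : ∀ t l, |Real.log (A t l)| ≤ c * N t := fun t => (hS t).2.2.1
  have hprod : ∀ t, ∑ l, Real.log (A t l) + γ * N t ≤
      ∑ v, ∑ l, (e t v l : ℝ) * Real.log (b v) := fun t => (hS t).2.2.2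
  -- compactness
  obtain ⟨⟨α, ε⟩, hmem, φ, hφ, hlim⟩ : ∃ a ∈ (Set.pi Set.univ (fun _ : Fin (n' + 1) =>
      Set.Icc (-c) c)) ×ˢ (Set.pi Set.univ (fun _ : Fin s => Set.pi Set.univ
        (fun _ : Fin (n' + 1) => Set.Icc (0 : ℝ) c))),
      ∃ φ : ℕ → ℕ, StrictMono φ ∧
        Filter.Tendsto ((fun t => ((fun l => Real.log (A t l) / N t), (fun v l =>
          (e t v l : ℝ) * Real.log (b v) / N t)) :
          ℕ → (Fin (n' + 1) → ℝ) × (Fin s → Fin (n' + 1) → ℝ)) ∘ φ) Filter.atTop (nhds a) := by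
    apply IsCompact.tendsto_subseq
    · apply IsCompact.prod
      · exact isCompact_univ_pi (fun _ => isCompact_Icc)
      · exact isCompact_univ_pi (fun _ => isCompact_univ_pi (fun _ => isCompact_Icc))
    · intro t
      refine ⟨?_, ?_⟩
      · intro l _
        have h1 := abs_le.mp (hA t l)
        simp only [Set.mem_Icc]
        constructor
        · rw [le_div_iff₀ (hN0 t)]; linarith [h1.1]
        · rw [div_le_iff₀ (hN0 t)]; linarith [h1.2]
      · intro v _ l _
        simp only [Set.mem_Icc]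
        constructor
        · have := hN0 t
          have := hlogb v
          positivity
        · rw [div_le_iff₀ (hN0 t)]; exact he t v l
  have hα : ∀ l, |α l| ≤ c := by
    intro l
    have := hmem.1 l (Set.mem_univ _)
    simp only [Set.mem_Icc] at this
    exact abs_le.mpr this
  have hε : ∀ v l, 0 ≤ ε v l ∧ ε v l ≤ c := by
    intro v l
    have := hmem.2 v (Set.mem_univ _) l (Set.mem_univ _)
    simpa only [Set.mem_Icc] using this
  have hlim1 : ∀ l, Filter.Tendsto (fun t => Real.log (A (φ t) l) / N (φ t)) Filter.atTop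
      (nhds (α l)) := by
    intro l
    have h1 := (continuous_fst.tendsto _).comp hlim
    exact (continuous_apply l).continuousAt.tendsto.comp h1
  have hlim2 : ∀ v l, Filter.Tendsto (fun t => (e (φ t) v l : ℝ) * Real.log (b v) / N (φ t))
      Filter.atTop (nhds (ε v l)) := by
    intro v l
    have h1 := (continuous_snd.tendsto _).comp hlim
    have h2 := (continuous_apply v).continuousAt.tendsto.comp h1
    exact (continuous_apply l).continuousAt.tendsto.comp h2
  have hγα : ∑ l, α l + γ ≤ ∑ v, ∑ l, ε v l := by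
    have h1 : Filter.Tendsto (fun t => ∑ l, Real.log (A (φ t) l) / N (φ t) + γ) Filter.atTop
      (nhds (∑ l, α l + γ)) := (tendsto_finset_sum _ (fun l _ => hlim1 l)).add_const γ
    have h2 : Filter.Tendsto (fun t => ∑ v, ∑ l, (e (φ t) v l : ℝ) * Real.log (b v) / N (φ t))
      Filter.atTop (nhds (∑ v, ∑ l, ε v l)) :=
        tendsto_finset_sum _ (fun v _ => tendsto_finset_sum _ (fun l _ => hlim2 v l))
    refine le_of_tendsto_of_tendsto' h1 h2 fun t => ?_
    have h3 := hprod (φ t)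
    have h4 := hN0 (φ t)
    have e1 : ∑ l, Real.log (A (φ t) l) / N (φ t) + γ =
        (∑ l, Real.log (A (φ t) l) + γ * N (φ t)) / N (φ t) := by
      rw [← Finset.sum_div, add_div, mul_div_assoc, div_self h4.ne', mul_one]
    have e2 : ∑ v, ∑ l, (e (φ t) v l : ℝ) * Real.log (b v) / N (φ t) =
        (∑ v, ∑ l, (e (φ t) v l : ℝ) * Real.log (b v)) / N (φ t) := by
      rw [Finset.sum_div]
      refine Finset.sum_congr rfl fun v _ => ?_
      rw [Finset.sum_div]
    rw [e1, e2]
    exact div_le_div_of_nonneg_right h3 h4.le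
  -- choice of τ
  obtain ⟨τ0, hτ00, hest1⟩ := hest (n' + 1) s (by omega) c γ hc hγ b hb
  obtain ⟨τ, hτdef⟩ : ∃ τ, τ = min τ0 (1 / 2) := ⟨_, rfl⟩
  have hτ0 : 0 < τ := by rw [hτdef]; exact lt_min hτ00 (by norm_num)
  have hτ12 : τ ≤ 1 / 2 := by rw [hτdef]; exact min_le_right _ _
  have hττ : τ ≤ τ0 := by rw [hτdef]; exact min_le_left _ _
  obtain ⟨C, hC, m0, haux1⟩ := haux (n' + 1) (by omega) (s + 1)
    (Fin.cons M0.adjugate (fun v => (M v).adjugate)) τ hτ0
  obtain ⟨m, hmdef⟩ : ∃ m, m = max m0 1 := ⟨_, rfl⟩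
  have hm : 0 < m := by rw [hmdef]; exact lt_of_lt_of_le one_pos (le_max_right _ _)
  have hm0 : m0 ≤ m := by rw [hmdef]; exact le_max_left _ _
  obtain ⟨ω, hω, hroth⟩ := rothStmt m τ hτ0
  -- eventually close
  have hev : ∀ᶠ t in Filter.atTop, (∀ l, |Real.log (A (φ t) l) / N (φ t) - α l| ≤ τ) ∧
      ∀ v l, |(e (φ t) v l : ℝ) * Real.log (b v) / N (φ t) - ε v l| ≤ τ := by
    refine Filter.Eventually.and ?_ ?_
    · rw [Filter.eventually_all]
      intro l
      filter_upwards [(Metric.tendsto_nhds.mp (hlim1 l)) τ hτ0] with t h3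
      rw [Real.dist_eq] at h3
      exact h3.le
    · rw [Filter.eventually_all]
      intro v
      rw [Filter.eventually_all]
      intro l
      filter_upwards [(Metric.tendsto_nhds.mp (hlim2 v l)) τ hτ0] with t h3
      rw [Real.dist_eq] at h3
      exact h3.le
  obtain ⟨T0, hT0⟩ := Filter.eventually_atTop.mp hev
  obtain ⟨X, hX⟩ : ∃ X : ℝ, X = 1 + ∏ v, |((M v).det : ℝ)| + ∑ l, |(M0 l j1 : ℝ)| + n' :=
    ⟨_, rfl⟩
  have hXp : (0 : ℝ) ≤ ∏ v, |((M v).det : ℝ)| := Finset.prod_nonneg fun v _ => abs_nonneg _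
  have hXs : (0 : ℝ) ≤ ∑ l, |(M0 l j1 : ℝ)| := Finset.sum_nonneg fun l _ => abs_nonneg _
  have hXn : (0 : ℝ) ≤ (n' : ℝ) := Nat.cast_nonneg _
  have hX1 : 1 ≤ X := by rw [hX]; linarith
  obtain ⟨Ns1, hNs11, hest2⟩ := hest1 τ hτ0 hττ C X hC hX1
  obtain ⟨Ns, hNs⟩ : ∃ Ns, Ns = max Ns1 (max (2 * c / ω) (Real.log C * m * (2 * c) / ω)) :=
    ⟨_, rfl⟩
  have hNs1 : Ns1 ≤ Ns := by rw [hNs]; exact le_max_left _ _
  have hNs0 : 0 < Ns := by linarith
  have hNs3 : 2 * c / ω ≤ Ns := by
    rw [hNs]; exact le_trans (le_max_left _ _) (le_max_right _ _)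
  have hNs4 : Real.log C * m * (2 * c) / ω ≤ Ns := by
    rw [hNs]; exact le_trans (le_max_right _ _) (le_max_right _ _)
  obtain ⟨f, hf1, hf2, hf3⟩ := exists_fast (fun t => N (φ t)) (fun t => hN0 _)
    (hN.comp hφ.tendsto_atTop) T0 Ns (max 1 (2 / ω)) (le_max_left _ _)
  set tt : Fin m → ℕ := fun h => φ (f h) with htt
  have hNh0 : ∀ h, 0 < N (tt h) := fun h => hN0 _
  obtain ⟨R0, r, hR0, hr, hrN1, hrN2⟩ := exists_degrees hm (fun h => N (tt h)) hNh0 τ hτ0 hτ12
  obtain ⟨cf, hcf0, hcfC, hcfd⟩ := haux1 m hm0 r hr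
  have hd0 := hcfd 0
  rw [Fin.cons_zero] at hd0
  obtain ⟨d0, hd0C, hd0b, hd0s⟩ := hd0
  have hdv : ∀ v : Fin s, ∃ d : (Fin m → Fin (n' + 1) → ℕ) → ℤ,
      (∀ J ∈ Dset m (n' + 1) r, |(d J : ℝ)| ≤ C ^ (∑ h, r h)) ∧ Bal r τ d ∧
        SubId r cf (M v).adjugate d := by
    intro v
    have := hcfd v.succ
    rwa [Fin.cons_succ] at this
  choose d hdC hdb hds using hdv
  have hNmin : ∀ h, Ns ≤ N (tt h) := fun h => hf2 _
  have hrle : ∀ h, (r h : ℝ) ≤ R0 / N (tt h) := by
    intro h; rw [le_div_iff₀ (hNh0 h)]; exact hrN2 h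
  -- reduce_pair input
  have hvan' : ∀ k ∈ {k : Fin m → ℕ | ∑ h, (k h : ℝ) / (r h : ℝ) < τ},
      ∀ W : Fin m → Fin (n' + 1) → ℝ,
        (∀ h, ∑ l, (x (tt h) l : ℝ) * W h l = 0) → Sk r j1 k cf W = 0 := by
    intro k hk W hW
    obtain ⟨E, hE1, hE2⟩ := hest2 m hm r hr k hk (fun h => N (tt h))
      (fun h => hNs1.trans (hNmin h)) R0 hrN1 hrN2 α ε hα hε hγα (fun h l => A (tt h) l)
      (fun h l => hApos _ _)
      (by
        intro h l
        have h1 := (hT0 (f h) (hf1 h)).1 l
        have h2 := hNh0 h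
        have h3 : Real.log (A (tt h) l) - α l * N (tt h) =
            (Real.log (A (tt h) l) / N (tt h) - α l) * N (tt h) := by
          field_simp
        show |Real.log (A (tt h) l) - α l * N (tt h)| ≤ τ * N (tt h)
        rw [h3, abs_mul, abs_of_pos h2]
        exact mul_le_mul_of_nonneg_right h1 h2.le)
      (fun h v l => e (tt h) v l)
      (by
        intro h v l
        have h1 := (hT0 (f h) (hf1 h)).2 v l
        have h2 := hNh0 h
        have h3 : (e (tt h) v l : ℝ) * Real.log (b v) - ε v l * N (tt h) =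
            ((e (tt h) v l : ℝ) * Real.log (b v) / N (tt h) - ε v l) * N (tt h) := by
          field_simp
        show |(e (tt h) v l : ℝ) * Real.log (b v) - ε v l * N (tt h)| ≤ τ * N (tt h)
        rw [h3, abs_mul, abs_of_pos h2]
        exact mul_le_mul_of_nonneg_right h1 h2.le)
      d0 hd0C hd0b d hdb
    have hSV := hvan m (n' + 1) s n' r j1 k cf M0 hM0 M hM b hb hcop d0 hd0s d hds
      (fun h i l => w (tt h) i l) (fun h v l => e (tt h) v l)
      (fun h v i l => (hsol (tt h) i).2 v l) E hE1 X hX1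
      (by rw [hX]; linarith)
      (by
        intro l
        have h1 : |(M0 l j1 : ℝ)| ≤ ∑ l, |(M0 l j1 : ℝ)| :=
          Finset.single_le_sum (f := fun l => |(M0 l j1 : ℝ)|) (fun i _ => abs_nonneg _)
            (Finset.mem_univ l)
        rw [hX]; linarith)
      (fun h l => A (tt h) l)
      (by
        intro h l
        calc ∑ i, |((∑ j, M0 l j * w (tt h) i j : ℤ) : ℝ)| ≤ ∑ _i : Fin n', A (tt h) l :=
              Finset.sum_le_sum fun i _ => (hsol (tt h) i).1 l
          _ = (n' : ℝ) * A (tt h) l := by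
              rw [Finset.sum_const, Finset.card_univ, Fintype.card_fin, nsmul_eq_mul]
          _ ≤ X * A (tt h) l := by
              apply mul_le_mul_of_nonneg_right _ (hApos _ _).le
              rw [hX]; linarith) hE2
    -- span
    have hsp : ∀ h, ∃ u : Fin n' → ℝ, ∀ l, W h l = ∑ i, u i * (w (tt h) i l : ℝ) := by
      intro h
      apply span_perp n' (x (tt h)) _ (w (tt h)) (hw _) (horth _) _ (hW h)
      intro h0
      apply hx1 (tt h)
      rw [h0]; rfl
    choose u hu using hsp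
    rw [← hSV u]
    congr 1
    funext h l
    exact hu h l
  obtain ⟨c', hc'0, hc'H, hc'v⟩ := reduce_pair r j1 j2 hj12
    {k : Fin m → ℕ | ∑ h, (k h : ℝ) / (r h : ℝ) < τ} cf (C ^ (∑ h, r h)) (by positivity) hcf0 hcfC
    (fun h l => (x (tt h) l : ℝ))
    (by
      intro h
      exact_mod_cast hx1 _) hvan'
  have hτ1 : (1 - τ) ≥ 1 / 2 := by linarith
  obtain ⟨k, hk1, hk2⟩ := hroth r (R0 / (2 * c)) hm hr
    (by
      intro i j hij
      have h1 := hrle j
      have h2 := hrN1 i
      have h3 := hf3 i j (by exact_mod_cast hij)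
      have h4 : (2 / ω) * N (tt i) ≤ N (tt j) := by
        refine le_trans ?_ h3
        exact mul_le_mul_of_nonneg_right (le_max_right _ _) (hNh0 i).le
      have h5 : R0 / N (tt j) ≤ R0 / ((2 / ω) * N (tt i)) := by
        apply div_le_div_of_nonneg_left hR0.le _ h4
        have := hNh0 i; positivity
      have h6 : R0 / ((2 / ω) * N (tt i)) = ω * ((1/2) * R0 / N (tt i)) := by
        have := (hNh0 i).ne'
        field_simp
      have h7 : (1/2) * R0 / N (tt i) ≤ r i := by
        rw [div_le_iff₀ (hNh0 i)]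
        refine le_trans ?_ h2
        exact mul_le_mul_of_nonneg_right hτ1 hR0.le
      calc (r j : ℝ) ≤ R0 / N (tt j) := h1
        _ ≤ ω * ((1/2) * R0 / N (tt i)) := by rw [← h6]; exact h5
        _ ≤ ω * r i := mul_le_mul_of_nonneg_left h7 hω.le)
    (by
      intro h
      refine le_trans (hrle h) ?_
      rw [div_le_iff₀ (hNh0 h)]
      have h1 : 2 * c / ω ≤ N (tt h) := le_trans hNs3 (hNmin h)
      rw [div_le_iff₀ hω] at h1
      have h2 : ω * (R0 / (2 * c)) * N (tt h) = R0 * (N (tt h) * ω) / (2 * c) := by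
        field_simp
      rw [h2, le_div_iff₀ (by positivity)]
      exact mul_le_mul_of_nonneg_left h1 hR0.le)
    (fun h => p (tt h)) (fun h => q (tt h)) (fun h => hpq _) (fun h => hq0 _)
    (by
      intro h
      have h1 := hht (tt h)
      have h2 : R0 / (2 * c) ≤ r h * (N (tt h) / c) := by
        rw [← mul_div_assoc, div_le_div_iff₀ (by positivity) hc0]
        have h3 : R0 / 2 ≤ r h * N (tt h) := by
          refine le_trans ?_ (hrN1 h)
          nlinarith
        nlinarith
      refine le_trans h2 ?_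
      exact mul_le_mul_of_nonneg_left h1 (by positivity))
    c' hc'0
    (by
      intro a ha
      refine le_trans (hc'H a ha) ?_
      have hCpos : 0 < C := by linarith
      have h1 : C ^ (∑ h, r h) = Real.exp (Real.log C * ((∑ h, r h : ℕ) : ℝ)) := by
        rw [← Real.rpow_natCast, Real.rpow_def_of_pos hCpos]
      rw [h1, Real.exp_le_exp]
      have h2 : ((∑ h, r h : ℕ) : ℝ) ≤ m * (R0 / Ns) := by
        push_cast
        calc ∑ h, (r h : ℝ) ≤ ∑ _h : Fin m, R0 / Ns := by
              apply Finset.sum_le_sum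
              intro h _
              refine le_trans (hrle h) ?_
              exact div_le_div_of_nonneg_left hR0.le hNs0 (hNmin h)
          _ = m * (R0 / Ns) := by
              rw [Finset.sum_const, Finset.card_univ, Fintype.card_fin, nsmul_eq_mul]
      have h3 : 0 ≤ Real.log C := Real.log_nonneg hC
      refine le_trans (mul_le_mul_of_nonneg_left h2 h3) ?_
      rw [div_le_iff₀ hω] at hNs4
      have h4 : Real.log C * (↑m * (R0 / Ns)) = (Real.log C * m * (2 * c)) * R0 / (Ns * (2 * c)) := by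
        field_simp
      rw [h4, div_le_iff₀ (by positivity)]
      have h5 : ω * (R0 / (2 * c)) * (Ns * (2 * c)) = Ns * ω * R0 := by
        field_simp
      rw [h5]
      exact mul_le_mul_of_nonneg_right hNs4 hR0.le)
  apply hk2
  have h1 := hc'v k hk1
  rw [← h1]
  apply Finset.sum_congr rfl
  intro a _
  congr 1
  apply Finset.prod_congr rfl
  intro h _
  congr 2
  have hq : (q (tt h) : ℝ) ≠ 0 := by exact_mod_cast hq0 _
  have hx : (x (tt h) j1 : ℝ) ≠ 0 := by exact_mod_cast hx1 _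
  have h3 : (x (tt h) j1 : ℝ) * (p (tt h) : ℝ) = -((x (tt h) j2 : ℝ) * (q (tt h) : ℝ)) := by
    exact_mod_cast hrat (tt h)
  show (p (tt h) : ℝ) / (q (tt h) : ℝ) = -((x (tt h) j2 : ℝ)) / (x (tt h) j1 : ℝ)
  rw [div_eq_div_iff hq hx]
  linarith

end Pool.Agent.TH461.SST.Core
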