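import Mathlib
import Pool.Agent.TH461.SST.Stms

set_option autoImplicit false

open Finset Filter Topology

namespace Pool.Agent.TH461.SST.Expand

open Pool.Agent.TH461.SST
open Pool.Agent.H393R2 (Dset bterm Sk mem_Dset)

/-- a product of multiples of powers of the variables -/
lemma prod_mono {R : Type} [CommRing R] {m : ℕ} (c : Fin m → R) (g : Fin m → ℕ) :
    ∏ h, c h • (MvPolynomial.X h : MvPolynomial (Fin m) R) ^ g h =
      MvPolynomial.monomial (Finsupp.equivFunOnFinite.symm g) (∏ h, c h) := by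
  rw [MvPolynomial.monomial_eq, Finsupp.prod_fintype _ _ (fun i => pow_zero _), map_prod,
    ← Finset.prod_mul_distrib]
  refine Finset.prod_congr rfl fun h _ => ?_
  rw [MvPolynomial.smul_eq_C_mul]
  rfl

/-- coefficient of a product of polynomials in separate variables -/
lemma coeff_sep {R : Type} [CommRing R] {m : ℕ} (p : Fin m → Polynomial R) (k : Fin m → ℕ) :
    MvPolynomial.coeff (Finsupp.equivFunOnFinite.symm k)
      (∏ h, Polynomial.aeval (MvPolynomial.X h : MvPolynomial (Fin m) R) (p h)) =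
      ∏ h, (p h).coeff (k h) := by
  classical
  obtain ⟨N, hN⟩ : ∃ N : ℕ, ∀ h, (p h).natDegree < N ∧ k h < N := by
    refine ⟨∑ h, ((p h).natDegree + k h) + 1, fun h => ?_⟩
    have := Finset.single_le_sum (f := fun h => (p h).natDegree + k h)
      (fun _ _ => Nat.zero_le _) (Finset.mem_univ h)
    omega
  have h1 : ∀ h, Polynomial.aeval (MvPolynomial.X h : MvPolynomial (Fin m) R) (p h) =
      ∑ j ∈ range N, (p h).coeff j • (MvPolynomial.X h : MvPolynomial (Fin m) R) ^ j := fun h =>
    Polynomial.aeval_eq_sum_range' (hN h).1 _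
  rw [Finset.prod_congr rfl fun h _ => h1 h, Finset.prod_univ_sum, MvPolynomial.coeff_sum]
  rw [Finset.sum_eq_single k]
  · rw [prod_mono, MvPolynomial.coeff_monomial, if_pos rfl]
  · intro g _ hg
    rw [prod_mono, MvPolynomial.coeff_monomial, if_neg]
    intro h2
    exact hg (Finsupp.equivFunOnFinite.symm.injective h2)
  · intro h2
    exfalso
    apply h2
    rw [Fintype.mem_piFinset]
    intro h
    exact Finset.mem_range.2 (hN h).2

/-- one block of the divided derivative -/
lemma coeff_bterm {R : Type} [CommRing R] {n : ℕ} (j1 : Fin n) (k : ℕ) (a : Fin n → ℕ)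
    (W : Fin n → R) :
    (∏ l, (Polynomial.C (W l) + if l = j1 then Polynomial.X else 0) ^ a l :
      Polynomial R).coeff k = bterm j1 k a W := by
  classical
  unfold bterm
  rw [← Finset.mul_prod_erase univ _ (Finset.mem_univ j1),
    ← Finset.mul_prod_erase univ _ (Finset.mem_univ j1)]
  rw [if_pos rfl, if_pos rfl]
  have h1 : ∏ x ∈ univ.erase j1, (Polynomial.C (W x) + if x = j1 then Polynomial.X else 0) ^ a x =
      Polynomial.C (∏ x ∈ univ.erase j1, W x ^ (a x - if x = j1 then k else 0)) := by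
    rw [map_prod]
    refine Finset.prod_congr rfl fun x hx => ?_
    rw [if_neg (Finset.ne_of_mem_erase hx), if_neg (Finset.ne_of_mem_erase hx), add_zero,
      Nat.sub_zero, map_pow]
  rw [h1, Polynomial.coeff_mul_C, add_comm, Polynomial.coeff_X_add_C_pow]
  ring

/-- one block in terms of the forms -/
lemma coeff_block {R : Type} [CommRing R] {n : ℕ} (k : ℕ) (J : Fin n → ℕ) (y mm : Fin n → R) :
    (∏ l, (Polynomial.C (y l) + Polynomial.X * Polynomial.C (mm l)) ^ J l :
      Polynomial R).coeff k =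
      ∑ κ ∈ Finset.piAntidiag (Finset.univ : Finset (Fin n)) k,
        ∏ l, ((((J l).choose (κ l) : ℕ) : R) * (mm l) ^ (κ l) * (y l) ^ (J l - κ l)) := by
  classical
  have h1 : ∀ l, (Polynomial.C (y l) + Polynomial.X * Polynomial.C (mm l)) ^ J l =
      ∑ j ∈ range (J l + 1), Polynomial.monomial j
        ((((J l).choose j : ℕ) : R) * (mm l) ^ j * (y l) ^ (J l - j)) := by
    intro l
    rw [add_comm, add_pow]
    refine Finset.sum_congr rfl fun j _ => ?_
    rw [mul_pow, ← Polynomial.C_mul_X_pow_eq_monomial]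
    simp only [map_mul, map_pow, map_natCast]
    ring
  rw [Finset.prod_congr rfl fun l _ => h1 l, Finset.prod_univ_sum, Polynomial.finsetSum_coeff]
  have h2 : ∀ g : Fin n → ℕ, (∏ l, Polynomial.monomial (g l)
        ((((J l).choose (g l) : ℕ) : R) * (mm l) ^ (g l) * (y l) ^ (J l - g l)) :
        Polynomial R).coeff k =
      if ∑ l, g l = k then
        ∏ l, ((((J l).choose (g l) : ℕ) : R) * (mm l) ^ (g l) * (y l) ^ (J l - g l)) else 0 := by
    intro g
    have h3 : (∏ l, Polynomial.monomial (g l)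
        ((((J l).choose (g l) : ℕ) : R) * (mm l) ^ (g l) * (y l) ^ (J l - g l)) :
        Polynomial R) = Polynomial.monomial (∑ l, g l)
        (∏ l, ((((J l).choose (g l) : ℕ) : R) * (mm l) ^ (g l) * (y l) ^ (J l - g l))) := by
      rw [← Polynomial.C_mul_X_pow_eq_monomial, map_prod, ← Finset.prod_pow_eq_pow_sum,
        ← Finset.prod_mul_distrib]
      refine Finset.prod_congr rfl fun l _ => ?_
      rw [Polynomial.C_mul_X_pow_eq_monomial]
    rw [h3, Polynomial.coeff_monomial]
  rw [Finset.sum_congr rfl fun g _ => h2 g, ← Finset.sum_filter]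
  apply Finset.sum_subset_zero_on_sdiff
  · intro g hg
    rw [Finset.mem_filter] at hg
    rw [Finset.mem_piAntidiag]
    exact ⟨hg.2, fun _ _ => Finset.mem_univ _⟩
  · intro g hg
    rw [Finset.mem_sdiff, Finset.mem_piAntidiag, Finset.mem_filter, Fintype.mem_piFinset] at hg
    have h4 : ∃ l, J l < g l := by
      by_contra hcon
      push Not at hcon
      exact hg.2 ⟨fun l => Finset.mem_range.2 (Nat.lt_succ_of_le (hcon l)), hg.1.1⟩
    obtain ⟨l, hl⟩ := h4
    apply Finset.prod_eq_zero (Finset.mem_univ l)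
    rw [Nat.choose_eq_zero_of_lt hl, Nat.cast_zero, zero_mul, zero_mul]
  · intro _ _
    rfl

theorem expand : ExpandStmt := by
  classical
  intro R _ m n r j1 k c d M hsub W
  set kk : Fin m →₀ ℕ := Finsupp.equivFunOnFinite.symm k with hkk
  -- the substitution
  have hS := hsub (MvPolynomial (Fin m) R) (fun h i =>
    MvPolynomial.C (∑ j, ((M i j : ℤ) : R) * W h j) + MvPolynomial.X h *
      MvPolynomial.C ((M i j1 : ℤ) : R))
  have hlin : ∀ (h : Fin m) (l : Fin n), (∑ i, ((M.adjugate l i : ℤ) : MvPolynomial (Fin m) R) *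
      (MvPolynomial.C (∑ j, ((M i j : ℤ) : R) * W h j) + MvPolynomial.X h *
      MvPolynomial.C ((M i j1 : ℤ) : R))) =
      ((M.det : ℤ) : MvPolynomial (Fin m) R) *
        (MvPolynomial.C (W h l) + if l = j1 then MvPolynomial.X h else 0) := by
    intro h l
    have hadj : ∀ j : Fin n, ∑ i, M.adjugate l i * M i j = if l = j then M.det else 0 := by
      intro j
      have h1 := congrFun (congrFun (Matrix.adjugate_mul M) l) j
      rw [Matrix.mul_apply, Matrix.smul_apply, Matrix.one_apply] at h1
      rw [h1]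
      by_cases h2 : l = j
      · rw [if_pos h2, if_pos h2, smul_eq_mul, mul_one]
      · rw [if_neg h2, if_neg h2, smul_zero]
    have hadjS : ∀ j : Fin n, ∑ i, ((M.adjugate l i : ℤ) : MvPolynomial (Fin m) R) *
        ((M i j : ℤ) : MvPolynomial (Fin m) R) =
        if l = j then ((M.det : ℤ) : MvPolynomial (Fin m) R) else 0 := by
      intro j
      have h1 := congrArg (fun z : ℤ => (z : MvPolynomial (Fin m) R)) (hadj j)
      simp only [Int.cast_sum, Int.cast_mul] at h1
      rw [h1]
      split_ifs <;> simp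
    have e1 : ∀ i, ((M.adjugate l i : ℤ) : MvPolynomial (Fin m) R) *
        (MvPolynomial.C (∑ j, ((M i j : ℤ) : R) * W h j) + MvPolynomial.X h *
        MvPolynomial.C ((M i j1 : ℤ) : R)) =
        ∑ j, (((M.adjugate l i : ℤ) : MvPolynomial (Fin m) R) *
          ((M i j : ℤ) : MvPolynomial (Fin m) R)) *
          (MvPolynomial.C (W h j) + if j = j1 then MvPolynomial.X h else 0) := by
      intro i
      simp only [mul_add, Finset.sum_add_distrib, mul_ite, mul_zero, Finset.sum_ite_eq',
        Finset.mem_univ, if_true, map_sum, map_mul, map_intCast]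
      congr 1
      · rw [Finset.mul_sum]
        exact Finset.sum_congr rfl fun j _ => by ring
      · ring
    rw [Finset.sum_congr rfl fun i _ => e1 i, Finset.sum_comm]
    rw [Finset.sum_congr rfl fun j _ => by rw [← Finset.sum_mul, hadjS j]]
    simp only [ite_mul, zero_mul, Finset.sum_ite_eq, Finset.mem_univ, if_true]
  -- coefficients of the left side
  have hL : ∀ a ∈ Dset m n r, MvPolynomial.coeff kk
      (((c a : ℤ) : MvPolynomial (Fin m) R) * ∏ h, ∏ l,
        (∑ i, ((M.adjugate l i : ℤ) : MvPolynomial (Fin m) R) *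
      (MvPolynomial.C (∑ j, ((M i j : ℤ) : R) * W h j) + MvPolynomial.X h *
      MvPolynomial.C ((M i j1 : ℤ) : R))) ^ (a h l)) =
      ((M.det ^ (∑ h, r h) : ℤ) : R) * (((c a : ℤ) : R) * ∏ h, bterm j1 (k h) (a h) (W h)) := by
    intro a ha
    have ha' := mem_Dset.1 ha
    have e1 : ∏ h, ∏ l, (∑ i, ((M.adjugate l i : ℤ) : MvPolynomial (Fin m) R) *
        (MvPolynomial.C (∑ j, ((M i j : ℤ) : R) * W h j) + MvPolynomial.X h *
        MvPolynomial.C ((M i j1 : ℤ) : R))) ^ (a h l) =
        MvPolynomial.C (((M.det ^ (∑ h, r h) : ℤ) : R)) *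
          ∏ h, Polynomial.aeval (MvPolynomial.X h : MvPolynomial (Fin m) R)
            (∏ l, (Polynomial.C (W h l) + if l = j1 then Polynomial.X else 0) ^ a h l :
              Polynomial R) := by
      have e2 : MvPolynomial.C (((M.det ^ (∑ h, r h) : ℤ) : R)) =
          ∏ h, ((M.det : ℤ) : MvPolynomial (Fin m) R) ^ r h := by
        rw [Finset.prod_pow_eq_pow_sum, map_intCast, Int.cast_pow]
      rw [e2, ← Finset.prod_mul_distrib]
      refine Finset.prod_congr rfl fun h _ => ?_
      rw [← ha' h, ← Finset.prod_pow_eq_pow_sum, map_prod, ← Finset.prod_mul_distrib]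
      refine Finset.prod_congr rfl fun l _ => ?_
      rw [hlin h l, mul_pow, map_pow, map_add, Polynomial.aeval_C]
      congr 3
      split_ifs
      · rw [Polynomial.aeval_X]
      · rw [map_zero]
    rw [e1, ← map_intCast (MvPolynomial.C : R →+* MvPolynomial (Fin m) R), MvPolynomial.coeff_C_mul,
      MvPolynomial.coeff_C_mul, coeff_sep]
    rw [Finset.prod_congr rfl fun h _ => coeff_bterm j1 (k h) (a h) (W h)]
    ring
  -- coefficients of the right side
  have hR : ∀ J ∈ Dset m n r, MvPolynomial.coeff kk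
      (((d J : ℤ) : MvPolynomial (Fin m) R) * ∏ h, ∏ l,
        (MvPolynomial.C (∑ j, ((M l j : ℤ) : R) * W h j) + MvPolynomial.X h *
      MvPolynomial.C ((M l j1 : ℤ) : R)) ^ (J h l)) =
      ((d J : ℤ) : R) * ∏ h,
        ∑ κ ∈ Finset.piAntidiag (Finset.univ : Finset (Fin n)) (k h),
          ∏ l, ((((J h l).choose (κ l) : ℕ) : R) * ((M l j1 : ℤ) : R) ^ (κ l) *
            (∑ i, ((M l i : ℤ) : R) * W h i) ^ (J h l - κ l)) := by
    intro J _
    have e1 : ∏ h, ∏ l, (MvPolynomial.C (∑ j, ((M l j : ℤ) : R) * W h j) + MvPolynomial.X h *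
        MvPolynomial.C ((M l j1 : ℤ) : R)) ^ (J h l) =
          ∏ h, Polynomial.aeval (MvPolynomial.X h : MvPolynomial (Fin m) R)
            (∏ l, (Polynomial.C (∑ j, ((M l j : ℤ) : R) * W h j) +
              Polynomial.X * Polynomial.C ((M l j1 : ℤ) : R)) ^ J h l : Polynomial R) := by
      refine Finset.prod_congr rfl fun h _ => ?_
      rw [map_prod]
      refine Finset.prod_congr rfl fun l _ => ?_
      rw [map_pow, map_add, map_mul, Polynomial.aeval_C, Polynomial.aeval_C, Polynomial.aeval_X]
      rfl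
    rw [e1, ← map_intCast (MvPolynomial.C : R →+* MvPolynomial (Fin m) R), MvPolynomial.coeff_C_mul,
      coeff_sep]
    rw [Finset.prod_congr rfl fun h _ => coeff_block (k h) (J h) _ _]
  have hfin := congrArg (MvPolynomial.coeff kk) hS
  rw [MvPolynomial.coeff_sum, MvPolynomial.coeff_sum] at hfin
  rw [Finset.sum_congr rfl hL, Finset.sum_congr rfl hR, ← Finset.mul_sum] at hfin
  exact hfin

end Pool.Agent.TH461.SST.Expand
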