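import Mathlib
import Pool.Agent.TH461.SST.Stms

set_option autoImplicit false

open Finset Filter Topology

namespace Pool.Agent.TH461.SST.Hp

open Pool.Agent.TH461.SST

theorem coprime_quot (a b : ℤ) (ha : a ≠ 0) : ∃ P Q : ℤ, IsCoprime P Q ∧ Q ≠ 0 ∧
    a * P = -(b * Q) := by
  obtain ⟨a', ha'⟩ : (Int.gcd a b : ℤ) ∣ a := Int.gcd_dvd_left a b
  obtain ⟨b', hb'⟩ : (Int.gcd a b : ℤ) ∣ b := Int.gcd_dvd_right a b
  have hg : (Int.gcd a b : ℤ) ≠ 0 := by
    intro h
    rw [h, zero_mul] at ha'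
    exact ha ha'
  have ha0 : a' ≠ 0 := by
    intro h
    rw [h, mul_zero] at ha'
    exact ha ha'
  refine ⟨-b', a', ?_, ha0, ?_⟩
  · rw [IsCoprime.neg_left_iff, Int.isCoprime_iff_gcd_eq_one]
    have h1 : Int.gcd a b * Int.gcd a' b' = Int.gcd a b := by
      have h2 : Int.gcd ((Int.gcd a b : ℤ) * a') ((Int.gcd a b : ℤ) * b') =
          Int.gcd a b * Int.gcd a' b' := by
        rw [Int.gcd_mul_left]
        simp
      rw [← h2, ← ha', ← hb']
    have h3 : Int.gcd a b ≠ 0 := by exact_mod_cast hg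
    rw [Int.gcd_comm]
    exact Nat.eq_of_mul_eq_mul_left (Nat.pos_of_ne_zero h3) (by rw [h1, mul_one])
  · calc a * -b' = -((Int.gcd a b : ℤ) * a' * b') := by rw [← ha']; ring
      _ = -(b * a') := by
        conv_rhs => rw [hb']
        ring

theorem height_pair : HeightPairStmt := by
  intro n' x hx H hH hyp
  obtain ⟨j1, hj1⟩ := Function.ne_iff.1 hx
  have hj1' : x j1 ≠ 0 := hj1
  choose P Q hPQ hQ hxPQ using fun j => coprime_quot (x j1) (x j) hj1'
  by_cases hex : ∃ j2, j1 ≠ j2 ∧ H ≤ max |(P j2 : ℝ)| |(Q j2 : ℝ)|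
  · obtain ⟨j2, h12, hH2⟩ := hex
    exact ⟨j1, j2, h12, hj1', P j2, Q j2, hPQ j2, hQ j2, hxPQ j2, hH2⟩
  · exfalso
    push Not at hex
    have hPb : ∀ j, j1 ≠ j → |(P j : ℝ)| ≤ H := fun j hj =>
      (le_max_left _ _).trans (hex j hj).le
    have hQb : ∀ j, j1 ≠ j → |(Q j : ℝ)| ≤ H := fun j hj =>
      (le_max_right _ _).trans (hex j hj).le
    have hprod : ∀ S : Finset (Fin (n' + 1)), j1 ∉ S → ∀ k : ℕ, S.card ≤ k →
        |((∏ j ∈ S, Q j : ℤ) : ℝ)| ≤ H ^ k := by
      intro S hS k hk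
      rw [Int.cast_prod, Finset.abs_prod]
      calc ∏ j ∈ S, |(Q j : ℝ)| ≤ ∏ _j ∈ S, H :=
            Finset.prod_le_prod (fun _ _ => abs_nonneg _) fun j hj =>
              hQb j (fun h => hS (h ▸ hj))
        _ = H ^ S.card := by rw [Finset.prod_const]
        _ ≤ H ^ k := pow_le_pow_right₀ hH hk
    set y : Fin (n' + 1) → ℤ := fun l => if l = j1 then ∏ j ∈ univ.erase j1, Q j else
      -(P l) * ∏ j ∈ (univ.erase j1).erase l, Q j with hy
    have hyj1 : y j1 = ∏ j ∈ univ.erase j1, Q j := by rw [hy]; simp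
    have hprop : ∀ l, x j1 * y l = x l * y j1 := by
      intro l
      by_cases hl : l = j1
      · rw [hl]
      · have h1 : y l = -(P l) * ∏ j ∈ (univ.erase j1).erase l, Q j := by
          rw [hy]; simp [hl]
        have h2 : y j1 = Q l * ∏ j ∈ (univ.erase j1).erase l, Q j := by
          rw [hyj1, Finset.mul_prod_erase _ _ (by simp [hl])]
        rw [h1, h2]
        have h3 := hxPQ l
        linear_combination (-(∏ j ∈ (univ.erase j1).erase l, Q j)) * h3
    have hy0 : y ≠ 0 := by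
      intro h
      have h1 : y j1 = 0 := by rw [h]; rfl
      rw [hyj1, Finset.prod_eq_zero_iff] at h1
      obtain ⟨j, -, hj⟩ := h1
      exact hQ j hj
    obtain ⟨l, hl⟩ := hyp y hy0 (fun i j => by
      apply mul_left_cancel₀ hj1'
      linear_combination (x i) * hprop j - (x j) * hprop i)
    refine absurd hl (not_lt.2 ?_)
    by_cases hlj : l = j1
    · rw [hlj, hyj1]
      refine hprod _ (by simp) _ ?_
      rw [Finset.card_erase_of_mem (Finset.mem_univ _), Finset.card_univ, Fintype.card_fin]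
      omega
    · have h1 : y l = -(P l) * ∏ j ∈ (univ.erase j1).erase l, Q j := by
        rw [hy]; simp [hlj]
      rw [h1]
      push_cast
      rw [abs_mul, abs_neg, pow_succ']
      refine mul_le_mul (hPb l (Ne.symm hlj)) ?_ (abs_nonneg _) (by linarith)
      have h2 := hprod ((univ.erase j1).erase l) (by simp) n' (by
        rw [Finset.card_erase_of_mem (by simp [hlj]),
          Finset.card_erase_of_mem (Finset.mem_univ _), Finset.card_univ, Fintype.card_fin]
        omega)
      push_cast at h2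
      exact h2

end Pool.Agent.TH461.SST.Hp
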