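import Mathlib
import Pool.Agent.TH461.SST.Stms

set_option autoImplicit false

open Finset Filter Topology

namespace Pool.Agent.TH461.SST.Pen

open Pool.Agent.TH461.SST

/-- a nonzero integer vector orthogonal to `n'` vectors of `ℤ^(n'+1)` -/
theorem exists_perp (n' : ℕ) (w : Fin n' → Fin (n' + 1) → ℤ) :
    ∃ y : Fin (n' + 1) → ℤ, y ≠ 0 ∧ ∀ i, ∑ l, y l * w i l = 0 := by
  set W : Matrix (Fin (n' + 1)) (Fin (n' + 1)) ℤ := Matrix.of (Fin.cons 0 w) with hW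
  have hdet : W.det = 0 := by
    refine Matrix.det_eq_zero_of_row_eq_zero 0 fun j => ?_
    simp [hW]
  obtain ⟨y, hy0, hy⟩ := Matrix.exists_mulVec_eq_zero_iff.2 hdet
  refine ⟨y, hy0, fun i => ?_⟩
  have h1 := congrFun hy i.succ
  simp only [Matrix.mulVec, dotProduct, hW, Matrix.of_apply, Fin.cons_succ, Pi.zero_apply] at h1
  rw [← h1]
  exact Finset.sum_congr rfl fun l _ => mul_comm _ _

theorem size_mono {ι : Type} [Fintype ι] {s : ℕ} {b : Fin s → ℕ} {c c' γ N : ℝ}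
    {e : Fin s → ι → ℕ} {A : ι → ℝ} (h : Size b c γ N e A) (hc : c ≤ c') (hN : 0 ≤ N) :
    Size b c' γ N e A := by
  obtain ⟨h1, h2, h3, h4⟩ := h
  have h5 : c * N ≤ c' * N := mul_le_mul_of_nonneg_right hc hN
  exact ⟨fun v l => (h1 v l).trans h5, h2, fun l => (h3 l).trans h5, h4⟩

theorem freq_exists_mem {α : Type*} {l : Filter α} {β : Type*} (Y : Finset β)
    (p : β → α → Prop) (h : ∃ᶠ t in l, ∃ y ∈ Y, p y t) : ∃ y ∈ Y, ∃ᶠ t in l, p y t := by
  by_contra hcon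
  push Not at hcon
  have h1 : ∀ y ∈ Y, ∀ᶠ t in l, ¬ p y t := fun y hy => by
    have h3 := hcon y hy
    exact h3
  have h2 : ∀ᶠ t in l, ∀ y ∈ Y, ¬ p y t := (Filter.eventually_all_finset Y).2 h1
  exact h (h2.mono fun t ht ⟨y, hy, hp⟩ => ht y hy hp)

theorem pen (hcore : CoreStmt) (hhp : HeightPairStmt) (hdich : DichStmt) : PenStmt := by
  intro n' hn' s M0 M b hP c γ hc hγ N hN e A hS w hw hSol
  choose y hy0 hyw using fun t => exists_perp n' (w t)
  obtain ⟨c0, hc0, Y, hY, N1, hD⟩ := hdich n' s M0 M b hP γ hγ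
  by_cases hfr : ∃ᶠ t in atTop, N1 ≤ N t ∧ ∃ z : Fin (n' + 1) → ℤ, z ≠ 0 ∧
      (∀ i j, y t i * z j = y t j * z i) ∧ ∀ l, |(z l : ℝ)| ≤ Real.exp (c0 * N t)
  · have h1 : ∃ᶠ t in atTop, ∃ y' ∈ Y, ∀ i, ∑ l, y' l * w t i l = 0 := by
      refine hfr.mono ?_
      rintro t ⟨hNt, z, hz0, hz, hzb⟩
      refine hD c (N t) hNt (e t) (A t) (hS t) (w t) (hw t) (hSol t) z hz0 (fun i => ?_) hzb
      obtain ⟨i0, hi0⟩ := Function.ne_iff.1 (hy0 t)
      have hi0' : y t i0 ≠ 0 := hi0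
      apply mul_left_cancel₀ hi0'
      rw [mul_zero, Finset.mul_sum]
      calc ∑ l, y t i0 * (z l * w t i l) = ∑ l, z i0 * (y t l * w t i l) := by
            refine Finset.sum_congr rfl fun l _ => ?_
            linear_combination (w t i l) * hz i0 l
        _ = 0 := by rw [← Finset.mul_sum, hyw t i, mul_zero]
    obtain ⟨y', hy'Y, hy'⟩ := freq_exists_mem Y _ h1
    exact ⟨y', hY y' hy'Y, hy'⟩
  · exfalso
    have h1 := Filter.not_frequently.1 hfr
    have h2 : ∀ᶠ t in atTop, ∃ j : Fin (n' + 1) × Fin (n' + 1), 0 < N t ∧ j.1 ≠ j.2 ∧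
        y t j.1 ≠ 0 ∧ ∃ P Q : ℤ, IsCoprime P Q ∧ Q ≠ 0 ∧ y t j.1 * P = -(y t j.2 * Q) ∧
          c0 * N t / (n' + 1) ≤ Real.log (max |(P : ℝ)| |(Q : ℝ)|) := by
      filter_upwards [h1, hN.eventually_ge_atTop N1, hN.eventually_gt_atTop 0] with t ht hNt hNp
      have hn1 : (0 : ℝ) < (n' : ℝ) + 1 := by positivity
      have hpow : Real.exp (c0 * N t / (n' + 1)) ^ (n' + 1) = Real.exp (c0 * N t) := by
        rw [← Real.exp_nat_mul]
        congr 1
        push_cast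
        field_simp
      obtain ⟨j1, j2, h12, hj1, P, Q, hPQ, hQ, hx, hH⟩ := hhp n' (y t) (hy0 t)
        (Real.exp (c0 * N t / (n' + 1)))
        (Real.one_le_exp (by positivity)) (by
          intro z hz0 hz
          rw [hpow]
          by_contra hcon
          push Not at hcon
          exact ht ⟨hNt, z, hz0, hz, hcon⟩)
      refine ⟨(j1, j2), hNp, h12, hj1, P, Q, hPQ, hQ, hx, ?_⟩
      rw [← Real.log_exp (c0 * N t / (n' + 1))]
      exact Real.log_le_log (Real.exp_pos _) hH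
    have h3 : ∃ᶠ t in atTop, ∃ j ∈ (Finset.univ : Finset (Fin (n' + 1) × Fin (n' + 1))),
        0 < N t ∧ j.1 ≠ j.2 ∧
        y t j.1 ≠ 0 ∧ ∃ P Q : ℤ, IsCoprime P Q ∧ Q ≠ 0 ∧ y t j.1 * P = -(y t j.2 * Q) ∧
          c0 * N t / (n' + 1) ≤ Real.log (max |(P : ℝ)| |(Q : ℝ)|) :=
      (h2.mono fun t ⟨j, hj⟩ => ⟨j, Finset.mem_univ _, hj⟩).frequently
    obtain ⟨⟨j1, j2⟩, -, hj⟩ := freq_exists_mem _ _ h3
    obtain ⟨φ, hφ, hφp⟩ := Filter.extraction_of_frequently_atTop hj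
    choose hNp h12 hj1 P Q hPQ hQ hx hH using hφp
    refine hcore n' hn' s M0 M b hP j1 j2 (h12 0) (max c ((n' + 1) / c0)) γ
      (hc.trans (le_max_left _ _)) hγ (fun t => N (φ t)) (hN.comp hφ.tendsto_atTop) hNp
      (fun t => e (φ t)) (fun t => A (φ t))
      (fun t => size_mono (hS (φ t)) (le_max_left _ _) (hNp t).le)
      (fun t => w (φ t)) (fun t => hw (φ t)) (fun t i => hSol (φ t) i)
      (fun t => y (φ t)) (fun t i => hyw (φ t) i) hj1 P Q hPQ hQ hx (fun t => ?_)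
    refine le_trans ?_ (hH t)
    have hn1 : (0 : ℝ) < (n' : ℝ) + 1 := by positivity
    have h5 : ((n' : ℝ) + 1) / c0 ≤ max c ((n' + 1) / c0) := le_max_right _ _
    calc N (φ t) / max c ((n' + 1) / c0) ≤ N (φ t) / (((n' : ℝ) + 1) / c0) :=
          div_le_div_of_nonneg_left (hNp t).le (by positivity) h5
      _ = c0 * N (φ t) / (n' + 1) := by
        field_simp

end Pool.Agent.TH461.SST.Pen
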