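import Mathlib
import Pool.Agent.TH461.SST.Stms

set_option autoImplicit false

open Finset Filter Topology

namespace Pool.Agent.TH461.SST.Red

open Pool.Agent.TH461.SST

lemma prod_emb {n k : ℕ} (I : Ix n k) {α : Type} [CommMonoid α] (f : Fin n → α) :
    ∏ i : Fin k, f (I.1.orderEmbOfFin I.2 i) = ∏ l ∈ I.1, f l := by
  conv_rhs => rw [← Finset.map_orderEmbOfFin_univ I.1 I.2]
  rw [Finset.prod_map]
  rfl

lemma cpd_mul (hcb : CBStmt) {R : Type} [CommRing R] {n : ℕ} (k : ℕ)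
    (T S : Matrix (Fin n) (Fin n) R) : cpd k (T * S) = cpd k T * cpd k S := by
  ext I J
  have h := congrFun (hcb R n k T (S.submatrix id (J.1.orderEmbOfFin J.2))) I
  have e1 : wedge (T * S.submatrix id (J.1.orderEmbOfFin J.2)) I = cpd k (T * S) I J := by
    unfold wedge cpd
    congr 1
  rw [← e1, h]
  rfl

lemma cpd_map {n : ℕ} (k : ℕ) (T : Matrix (Fin n) (Fin n) ℤ) :
    cpd k (T.map (Int.cast : ℤ → ℝ)) = (cpd k T).map (Int.cast : ℤ → ℝ) := by
  ext I J
  rw [Matrix.map_apply]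
  unfold cpd
  have := (Int.castRingHom ℝ).map_det (T.submatrix (I.1.orderEmbOfFin I.2) (J.1.orderEmbOfFin J.2))
  rw [eq_intCast] at this
  rw [this]
  congr 1

lemma cpd_det_ne (hsf : SFStmt) {n k : ℕ} (hk : 1 ≤ k) (hkn : k ≤ n)
    (T : Matrix (Fin n) (Fin n) ℤ) (h : T.det ≠ 0) : (cpd k T).det ≠ 0 := by
  have h1 : (T.map (Int.cast : ℤ → ℝ)).det = (T.det : ℝ) := by
    have := (Int.castRingHom ℝ).map_det T
    rw [eq_intCast] at this
    rw [this]
    congr 1
  have h2 : (T.map (Int.cast : ℤ → ℝ)).det ≠ 0 := by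
    rw [h1]; exact_mod_cast h
  have h3 := hsf n k hk hkn _ h2
  rw [cpd_map] at h3
  have h4 : ((cpd k T).map (Int.cast : ℤ → ℝ)).det = ((cpd k T).det : ℝ) := by
    have := (Int.castRingHom ℝ).map_det (cpd k T)
    rw [eq_intCast] at this
    rw [this]
    congr 1
  rw [h4] at h3
  intro h0
  rw [h0] at h3
  have := pow_ne_zero ((n - 1).choose (k - 1)) h2
  apply this
  rw [← h3]; simp

lemma cpd_diag {n : ℕ} (k : ℕ) (d : Fin n → ℝ) (T : Matrix (Fin n) (Fin n) ℝ) (I J : Ix n k) :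
    cpd k (Matrix.of fun i j => d i * T i j) I J = (∏ l ∈ I.1, d l) * cpd k T I J := by
  unfold cpd
  rw [← prod_emb I d]
  rw [← Matrix.det_mul_column]
  rfl

lemma det_dvd {k : ℕ} (Q : Matrix (Fin k) (Fin k) ℤ) (a : Fin k → ℤ) (h : ∀ i j, a i ∣ Q i j) :
    ∏ i, a i ∣ Q.det := by
  choose Q' hQ' using h
  have : Q = Matrix.of fun i j => a i * (Matrix.of Q') i j := by
    ext i j
    simp [hQ' i j]
  rw [this, Matrix.det_mul_column]
  exact Dvd.intro _ rfl

lemma sum_Ix {n k : ℕ} (hk : 1 ≤ k) (a : Fin n → ℝ) :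
    ∑ I : Ix n k, ∑ l ∈ I.1, a l = (((n - 1).choose (k - 1) : ℕ) : ℝ) * ∑ l, a l := by
  classical
  have h1 : ∀ I : Ix n k, ∑ l ∈ I.1, a l = ∑ l, if l ∈ I.1 then a l else 0 := by
    intro I
    rw [Finset.sum_ite_mem, Finset.univ_inter]
  rw [Finset.sum_congr rfl (fun I _ => h1 I), Finset.sum_comm, Finset.mul_sum]
  refine Finset.sum_congr rfl (fun l _ => ?_)
  rw [← Finset.sum_filter, Finset.sum_const, nsmul_eq_mul]
  congr 2
  have h2 : ((n - 1).choose (k - 1)) = ((univ.erase l).powersetCard (k - 1)).card := by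
    rw [Finset.card_powersetCard, Finset.card_erase_of_mem (Finset.mem_univ l), Finset.card_univ,
      Fintype.card_fin]
  rw [h2]
  symm
  refine Finset.card_bij (fun (P : Finset (Fin n)) hP => (⟨insert l P, ?_⟩ : Ix n k)) ?_ ?_ ?_
  · rw [Finset.mem_powersetCard] at hP
    have : l ∉ P := fun h => by
      have := hP.1 h
      simp at this
    rw [Finset.card_insert_of_notMem this, hP.2]
    omega
  · intro P hP
    simp
  · intro P hP P' hP' he
    rw [Finset.mem_powersetCard] at hP hP'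
    have h3 : l ∉ P := fun h => by
      have := hP.1 h
      simp at this
    have h4 : l ∉ P' := fun h => by
      have := hP'.1 h
      simp at this
    have h5 : insert l P = insert l P' := congrArg Subtype.val he
    rw [← Finset.erase_insert h3, h5, Finset.erase_insert h4]
  · intro I hI
    rw [Finset.mem_filter] at hI
    refine ⟨I.1.erase l, ?_, ?_⟩
    · rw [Finset.mem_powersetCard]
      refine ⟨Finset.erase_subset_erase _ (Finset.subset_univ _), ?_⟩
      rw [Finset.card_erase_of_mem hI.2, I.2]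
    · apply Subtype.ext
      exact Finset.insert_erase hI.2

lemma card_Ix (n k : ℕ) : Fintype.card (Ix n k) = n.choose k := by
  have := Fintype.card_finset_len (α := Fin n) k
  rw [Fintype.card_fin] at this
  rw [← this]

lemma mk_eq {n k : ℕ} (hk : 1 ≤ k) :
    ((n.choose k : ℕ) : ℝ) * k = (((n - 1).choose (k - 1) : ℕ) : ℝ) * n := by
  have h := sum_Ix (n := n) hk (fun _ => (1 : ℝ))
  have h1 : ∑ I : Ix n k, ∑ l ∈ I.1, (1 : ℝ) = ((n.choose k : ℕ) : ℝ) * k := by
    have : ∀ I : Ix n k, ∑ l ∈ I.1, (1 : ℝ) = k := by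
      intro I
      rw [Finset.sum_const, I.2]; simp
    rw [Finset.sum_congr rfl (fun I _ => this I), Finset.sum_const, Finset.card_univ, card_Ix]
    simp
  rw [h1] at h
  rw [h]
  simp

/-- divisibility of the determinant of the basis -/
lemma det_lower {n s : ℕ} (M : Fin s → Matrix (Fin n) (Fin n) ℤ) (b : Fin s → ℕ)
    (hcop : ∀ v v', v ≠ v' → Nat.Coprime (b v) (b v')) (e : Fin s → Fin n → ℕ)
    (B : Matrix (Fin n) (Fin n) ℤ) (hB : ∀ v l j, (b v : ℤ) ^ (e v l) ∣ (M v * B) l j) :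
    ∏ v, ∏ l, (b v : ℤ) ^ (e v l) ∣ (∏ v, (M v).det) * B.det := by
  have h1 : ∀ v, ∏ l, (b v : ℤ) ^ (e v l) ∣ (M v).det * B.det := by
    intro v
    rw [← Matrix.det_mul]
    exact det_dvd _ _ (fun i j => hB v i j)
  refine Fintype.prod_dvd_of_coprime ?_ ?_
  · intro v v' hvv
    have h2 : IsCoprime (b v : ℤ) (b v' : ℤ) := Nat.isCoprime_iff_coprime.mpr (hcop v v' hvv)
    change IsCoprime (∏ l, (b v : ℤ) ^ (e v l)) (∏ l, (b v' : ℤ) ^ (e v' l))
    rw [Finset.prod_pow_eq_pow_sum, Finset.prod_pow_eq_pow_sum]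
    exact h2.pow
  · intro v
    refine (h1 v).trans ?_
    exact mul_dvd_mul_right (Finset.dvd_prod_of_mem _ (Finset.mem_univ v)) _

lemma basis_log (hbasis : BasisStmt) {n s : ℕ}
    (M : Fin s → Matrix (Fin n) (Fin n) ℤ) (b : Fin s → ℕ) (hM : ∀ v, (M v).det ≠ 0)
    (hb : ∀ v, 2 ≤ b v) (hcop : ∀ v v', v ≠ v' → Nat.Coprime (b v) (b v'))
    (e : Fin s → Fin n → ℕ) :
    ∃ B : Matrix (Fin n) (Fin n) ℤ, B.det ≠ 0 ∧
      Real.log |(B.det : ℝ)| ≤ ∑ v, ∑ l, (e v l : ℝ) * Real.log (b v) ∧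
      ∑ v, ∑ l, (e v l : ℝ) * Real.log (b v) ≤
        Real.log |((∏ v, (M v).det : ℤ) : ℝ)| + Real.log |(B.det : ℝ)| ∧
      (∀ v l j, (b v : ℤ) ^ (e v l) ∣ (M v * B) l j) ∧
      ∀ y : Fin n → ℤ, (∀ v l, (b v : ℤ) ^ (e v l) ∣ ∑ j, M v l j * y j) →
        ∃ z : Fin n → ℤ, y = B.mulVec z := by
  obtain ⟨B, hB0, hBu, hBy⟩ := hbasis n s M b hb e
  have hdiv : ∀ v l j, (b v : ℤ) ^ (e v l) ∣ (M v * B) l j := by
    intro v l j
    have h := (hBy (fun i => B i j)).2 ⟨Pi.single j 1, by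
      ext i
      simp [Matrix.mulVec_single]⟩ v l
    rw [Matrix.mul_apply]
    exact h
  have hlog : Real.log ((∏ v, ∏ l, (b v : ℤ) ^ (e v l) : ℤ) : ℝ) =
      ∑ v, ∑ l, (e v l : ℝ) * Real.log (b v) := by
    push_cast
    rw [Real.log_prod]
    · refine Finset.sum_congr rfl (fun v _ => ?_)
      rw [Real.log_prod]
      · refine Finset.sum_congr rfl (fun l _ => ?_)
        rw [Real.log_pow]
      · intro l _
        have := hb v
        positivity
    · intro v _
      refine Finset.prod_ne_zero_iff.mpr (fun l _ => ?_)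
      have := hb v
      positivity
  have hpos : (0 : ℤ) < ∏ v, ∏ l, (b v : ℤ) ^ (e v l) := by
    refine Finset.prod_pos (fun v _ => Finset.prod_pos (fun l _ => ?_))
    have := hb v
    positivity
  refine ⟨B, hB0, ?_, ?_, hdiv, fun y hy => (hBy y).1 hy⟩
  · rw [← hlog]
    apply Real.log_le_log
    · have : (B.det : ℝ) ≠ 0 := by exact_mod_cast hB0
      positivity
    · rw [← Int.cast_abs]
      exact_mod_cast hBu
  · rw [← hlog]
    have hM0 : ((∏ v, (M v).det : ℤ) : ℝ) ≠ 0 := by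
      have : (∏ v, (M v).det : ℤ) ≠ 0 := Finset.prod_ne_zero_iff.mpr (fun v _ => hM v)
      exact_mod_cast this
    have hB1 : (B.det : ℝ) ≠ 0 := by exact_mod_cast hB0
    rw [← Real.log_mul (abs_ne_zero.mpr hM0) (abs_ne_zero.mpr hB1), ← abs_mul]
    apply Real.log_le_log
    · exact_mod_cast hpos
    · rw [← Int.cast_mul, ← Int.cast_abs]
      have h3 := det_lower M b hcop e B hdiv
      have h4 : (∏ v, (M v).det) * B.det ≠ 0 :=
        mul_ne_zero (Finset.prod_ne_zero_iff.mpr (fun v _ => hM v)) hB0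
      have h5 := Int.le_of_dvd (abs_pos.mpr h4) ((dvd_abs _ _).mpr h3)
      exact_mod_cast h5

lemma key_id {κ : Type} [Fintype κ] [DecidableEq κ] (T : Matrix κ κ ℤ) (y u : κ → ℤ) :
    ∑ I, (T.adjugate.transpose.mulVec y) I * (T.mulVec u) I = T.det * ∑ I, y I * u I := by
  have h : (T.adjugate.transpose.mulVec y) ⬝ᵥ (T.mulVec u) = T.det * (y ⬝ᵥ u) := by
    rw [Matrix.mulVec_transpose, ← Matrix.dotProduct_mulVec, Matrix.mulVec_mulVec,
      Matrix.adjugate_mul, Matrix.smul_mulVec, Matrix.one_mulVec, dotProduct_smul, smul_eq_mul]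
  exact h

lemma dual_part (hcb : CBStmt) (hsf : SFStmt) {n k : ℕ} (hk : 1 ≤ k) (hkn : k ≤ n)
    (B : Matrix (Fin n) (Fin n) ℤ) (hB : B.det ≠ 0) (y : Ix n k → ℤ) (hy : y ≠ 0) {m : ℕ}
    (w : Fin m → Ix n k → ℤ) (hw : LinearIndependent ℤ w) (hyw : ∀ i, ∑ I, y I * w i I = 0) :
    (cpd k B).adjugate.transpose.mulVec y ≠ 0 ∧
    LinearIndependent ℤ (fun i => (cpd k B).mulVec (w i)) ∧
    (∀ i, ∑ I, ((cpd k B).adjugate.transpose.mulVec y) I * ((cpd k B).mulVec (w i)) I = 0) ∧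
    ∀ V : Matrix (Fin n) (Fin k) ℤ, ∑ I, y I * wedge (B.adjugate * V) I = 0 →
      ∑ I, ((cpd k B).adjugate.transpose.mulVec y) I * wedge V I = 0 := by
  have hd := cpd_det_ne hsf hk hkn B hB
  refine ⟨?_, ?_, ?_, ?_⟩
  · intro h0
    apply hy
    ext I0
    have h := key_id (cpd k B) y (Pi.single I0 1)
    rw [h0] at h
    have h2 : ∑ I, y I * (Pi.single I0 (1 : ℤ) : Ix n k → ℤ) I = y I0 := by
      rw [Finset.sum_eq_single I0]
      · simp
      · intro I _ hI
        rw [Pi.single_eq_of_ne hI]; simp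
      · intro h; exact absurd (Finset.mem_univ _) h
    rw [h2] at h
    simp only [Pi.zero_apply, zero_mul, Finset.sum_const_zero] at h
    rcases mul_eq_zero.mp h.symm with h3 | h3
    · exact absurd h3 hd
    · exact h3
  · have := hw.map' (Matrix.mulVecLin (cpd k B)) (by
      rw [LinearMap.ker_eq_bot']
      intro u hu
      rw [Matrix.mulVecLin_apply] at hu
      exact Matrix.eq_zero_of_mulVec_eq_zero hd hu)
    exact this
  · intro i
    rw [key_id, hyw i, mul_zero]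
  · intro V hV
    have h1 : B * (B.adjugate * V) = B.det • V := by
      rw [← Matrix.mul_assoc, Matrix.mul_adjugate, Matrix.smul_mul, Matrix.one_mul]
    have h2 := hcb ℤ n k B (B.adjugate * V)
    rw [h1] at h2
    have h3 : ∀ I : Ix n k, wedge (B.det • V) I = B.det ^ k * wedge V I := by
      intro I
      unfold wedge
      have h31 : (B.det • V).submatrix (I.1.orderEmbOfFin I.2) id =
          B.det • (V.submatrix (I.1.orderEmbOfFin I.2) id) := rfl
      rw [h31, Matrix.det_smul, Fintype.card_fin]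
    have h4 := key_id (cpd k B) y (wedge (B.adjugate * V))
    rw [hV, mul_zero, ← h2] at h4
    have h5 : ∑ I, ((cpd k B).adjugate.transpose.mulVec y) I * wedge (B.det • V) I =
        B.det ^ k * ∑ I, ((cpd k B).adjugate.transpose.mulVec y) I * wedge V I := by
      rw [Finset.mul_sum]
      refine Finset.sum_congr rfl (fun I _ => ?_)
      rw [h3]; ring
    rw [h5] at h4
    rcases mul_eq_zero.mp h4 with h6 | h6
    · exact absurd h6 (pow_ne_zero _ hB)
    · exact h6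

lemma sol_part (hcb : CBStmt) {n k s : ℕ} (M0 : Matrix (Fin n) (Fin n) ℤ)
    (M : Fin s → Matrix (Fin n) (Fin n) ℤ) (b : Fin s → ℕ) (e : Fin s → Fin n → ℕ)
    (B : Matrix (Fin n) (Fin n) ℤ) (hB : ∀ v l j, (b v : ℤ) ^ (e v l) ∣ (M v * B) l j)
    (A' : Ix n k → ℝ) (w : Ix n k → ℤ)
    (hA : ∀ I, |(((cpd k (M0 * B)).mulVec w I : ℤ) : ℝ)| ≤ A' I) :
    Sol (cpd k M0) (fun v => cpd k (M v)) b (fun v I => ∑ l ∈ I.1, e v l) A'
      ((cpd k B).mulVec w) := by
  have key : ∀ (T : Matrix (Fin n) (Fin n) ℤ) (I : Ix n k),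
      ∑ J, cpd k T I J * (cpd k B).mulVec w J = (cpd k (T * B)).mulVec w I := by
    intro T I
    rw [cpd_mul hcb, ← Matrix.mulVec_mulVec]
    rfl
  refine ⟨fun I => ?_, fun v I => ?_⟩
  · rw [key]
    exact hA I
  · change _ ∣ ∑ J, cpd k (M v) I J * (cpd k B).mulVec w J
    rw [key]
    change _ ∣ ∑ J, cpd k (M v * B) I J * w J
    refine Finset.dvd_sum (fun J _ => Dvd.dvd.mul_right ?_ _)
    have h1 : (b v : ℤ) ^ (∑ l ∈ I.1, e v l) =
        ∏ i : Fin k, (b v : ℤ) ^ (e v (I.1.orderEmbOfFin I.2 i)) := by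
      rw [prod_emb I (fun l => (b v : ℤ) ^ (e v l)), Finset.prod_pow_eq_pow_sum]
    rw [h1]
    exact det_dvd _ _ (fun i j => hB v _ _)

lemma cpdL {n : ℕ} (k : ℕ) (ρ : ℝ) (A : Fin n → ℝ) (Q : Matrix (Fin n) (Fin n) ℤ)
    (w : Ix n k → ℤ) (I : Ix n k) :
    ((cpd k (Matrix.of fun i j => (ρ⁻¹ * (A i)⁻¹) * (Q.map (Int.cast : ℤ → ℝ)) i j)).mulVec
      (fun J => (w J : ℝ))) I =
    (ρ ^ k * ∏ l ∈ I.1, A l)⁻¹ * (((cpd k Q).mulVec w I : ℤ) : ℝ) := by
  have h1 : (((cpd k Q).mulVec w I : ℤ) : ℝ) = ∑ J, ((cpd k Q I J : ℤ) : ℝ) * (w J : ℝ) := by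
    change ((∑ J, cpd k Q I J * w J : ℤ) : ℝ) = _
    push_cast
    rfl
  rw [h1, Finset.mul_sum]
  change ∑ J : Ix n k, (cpd k (Matrix.of fun i j => (ρ⁻¹ * (A i)⁻¹) *
    (Q.map (Int.cast : ℤ → ℝ)) i j)) I J * (w J : ℝ) = _
  refine Finset.sum_congr rfl (fun J _ => ?_)
  rw [cpd_diag, cpd_map, Matrix.map_apply, Finset.prod_mul_distrib, Finset.prod_const, I.2,
    Finset.prod_inv_distrib, mul_inv, inv_pow]
  ring

lemma size_part {n k s : ℕ} (hk : 1 ≤ k) (hkn : k < n) (b : Fin s → ℕ) (c γ N : ℝ)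
    (hc : 1 ≤ c) (hN : 1 ≤ N) (e : Fin s → Fin n → ℕ) (A : Fin n → ℝ) (hS : Size b c γ N e A)
    (lr D D0 : ℝ) (hlr : n * lr = D0 + D - ∑ l, Real.log (A l)) (hD0 : 0 ≤ D0)
    (hD' : D ≤ ∑ v, ∑ l, (e v l : ℝ) * Real.log (b v)) (hlr0 : 0 ≤ lr)
    (Ac : Ix n k → ℝ) (hAc : ∀ I, Real.exp (-(k * lr + k * (c * N))) ≤ Ac I) (C lg : ℝ)
    (hC : 1 ≤ C) (hprod : ∏ I, Ac I ≤ C / Real.exp lg) (hlg0 : Real.log C ≤ lg) (γ' : ℝ)
    (hlg : 2 ^ n * D0 + Real.log C + γ' * N ≤ lg) :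
    Size b ((2 ^ n + 1) * n * (D0 + (s + 2) * c)) γ' N (fun v I => ∑ l ∈ I.1, e v l)
      (fun I => Real.exp (k * lr) * (∏ l ∈ I.1, A l) * Ac I) := by
  obtain ⟨hS1, hS2, hS3, hS4⟩ := hS
  have hn : 0 < n := by omega
  have hnR : (1 : ℝ) ≤ n := by exact_mod_cast hn
  have hknR : (k : ℝ) ≤ n := by exact_mod_cast hkn.le
  have hkR : (1 : ℝ) ≤ k := by exact_mod_cast hk
  have hsR : (0 : ℝ) ≤ s := by positivity
  have h2n : (1 : ℝ) ≤ 2 ^ n := one_le_pow₀ (by norm_num)
  have hcN : 0 < c * N := by positivity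
  -- bound for lr
  have hDs : D ≤ s * (n * (c * N)) := by
    refine hD'.trans ?_
    have : ∑ v : Fin s, ∑ l : Fin n, (e v l : ℝ) * Real.log (b v) ≤
        ∑ v : Fin s, ∑ l : Fin n, c * N :=
      Finset.sum_le_sum (fun v _ => Finset.sum_le_sum (fun l _ => hS1 v l))
    refine this.trans ?_
    simp
  have hα : -∑ l, Real.log (A l) ≤ n * (c * N) := by
    rw [← Finset.sum_neg_distrib]
    have : ∑ l, -Real.log (A l) ≤ ∑ l : Fin n, c * N :=
      Finset.sum_le_sum (fun l _ => (neg_le_abs _).trans (hS3 l))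
    refine this.trans ?_
    simp
  have hlr1 : lr ≤ (D0 + (s + 1) * c) * N := by
    have h1 : (n : ℝ) * lr ≤ n * ((D0 + (s + 1) * c) * N) := by
      rw [hlr]
      have h2 : D0 ≤ n * (D0 * N) := by
        have : D0 * 1 ≤ D0 * N := mul_le_mul_of_nonneg_left hN hD0
        have h3 : 1 * (D0 * N) ≤ n * (D0 * N) :=
          mul_le_mul_of_nonneg_right hnR (by positivity)
        linarith
      calc D0 + D - ∑ l, Real.log (A l) ≤ n * (D0 * N) + s * (n * (c * N)) + n * (c * N) := by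
            linarith
        _ = n * ((D0 + (s + 1) * c) * N) := by ring
    exact le_of_mul_le_mul_left h1 (by linarith)
  set E : ℝ := (D0 + (s + 2) * c) * N with hE
  have hlrE : lr + c * N ≤ E := by
    rw [hE]; nlinarith
  have hE0 : 0 ≤ E := by linarith
  have hcE : ((2 ^ n + 1) * n * (D0 + (s + 2) * c)) * N = (2 ^ n + 1) * n * E := by
    rw [hE]; ring
  have hAcpos : ∀ I, 0 < Ac I := fun I => (Real.exp_pos _).trans_le (hAc I)
  have hAlow : ∀ I, -(k * lr + k * (c * N)) ≤ Real.log (Ac I) := by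
    intro I
    rw [Real.le_log_iff_exp_le (hAcpos I)]
    exact hAc I
  set F : ℝ := k * lr + k * (c * N) with hF
  have hF0 : 0 ≤ F := by
    rw [hF]; positivity
  have hFE : F ≤ n * E := by
    have : F = k * (lr + c * N) := by rw [hF]; ring
    rw [this]
    exact mul_le_mul hknR hlrE (by positivity) (by positivity)
  have hsumlog : ∑ I, Real.log (Ac I) ≤ Real.log C - lg := by
    rw [← Real.log_prod (fun I _ => (hAcpos I).ne')]
    refine (Real.log_le_log (Finset.prod_pos (fun I _ => hAcpos I)) hprod).trans ?_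
    rw [Real.log_div (by linarith) (Real.exp_pos _).ne', Real.log_exp]
  have hM2 : ((n.choose k : ℕ) : ℝ) ≤ 2 ^ n := by
    exact_mod_cast Nat.choose_le_two_pow n k
  have hAup : ∀ I, Real.log (Ac I) ≤ 2 ^ n * F := by
    intro I
    have h1 : Real.log (Ac I) + ∑ J ∈ univ.erase I, Real.log (Ac J) ≤ 0 := by
      rw [Finset.add_sum_erase univ (fun J => Real.log (Ac J)) (Finset.mem_univ I)]
      linarith
    have h2 : ∑ J ∈ univ.erase I, (-F) ≤ ∑ J ∈ univ.erase I, Real.log (Ac J) :=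
      Finset.sum_le_sum (fun J _ => hAlow J)
    rw [Finset.sum_const, nsmul_eq_mul] at h2
    have h3 : (((univ.erase I : Finset (Ix n k)).card : ℕ) : ℝ) ≤ 2 ^ n := by
      refine le_trans ?_ hM2
      have : (univ.erase I : Finset (Ix n k)).card ≤ (univ : Finset (Ix n k)).card :=
        Finset.card_le_card (Finset.erase_subset _ _)
      rw [Finset.card_univ, card_Ix] at this
      exact_mod_cast this
    nlinarith
  have hlogA' : ∀ I : Ix n k, Real.log (Real.exp (k * lr) * (∏ l ∈ I.1, A l) * Ac I) =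
      k * lr + ∑ l ∈ I.1, Real.log (A l) + Real.log (Ac I) := by
    intro I
    have h1 : (∏ l ∈ I.1, A l) ≠ 0 := Finset.prod_ne_zero_iff.mpr (fun l _ => (hS2 l).ne')
    rw [Real.log_mul (mul_ne_zero (Real.exp_pos _).ne' h1) (hAcpos I).ne',
      Real.log_mul (Real.exp_pos _).ne' h1, Real.log_exp, Real.log_prod (fun l _ => (hS2 l).ne')]
  have hsumA : ∀ I : Ix n k, |∑ l ∈ I.1, Real.log (A l)| ≤ k * (c * N) := by
    intro I
    refine (Finset.abs_sum_le_sum_abs _ _).trans ?_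
    refine (Finset.sum_le_sum (fun l _ => hS3 l)).trans ?_
    rw [Finset.sum_const, I.2, nsmul_eq_mul]
  refine ⟨fun v I => ?_, fun I => ?_, fun I => ?_, ?_⟩
  · rw [hcE]
    push_cast
    rw [Finset.sum_mul]
    have h1 : ∑ l ∈ I.1, (e v l : ℝ) * Real.log (b v) ≤ ∑ l ∈ I.1, c * N :=
      Finset.sum_le_sum (fun l _ => hS1 v l)
    rw [Finset.sum_const, I.2, nsmul_eq_mul] at h1
    have h2 : (k : ℝ) * (c * N) ≤ F := by
      rw [hF]
      have : 0 ≤ (k : ℝ) * lr := by positivity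
      linarith
    have h3 : (n : ℝ) * E ≤ (2 ^ n + 1) * n * E := by
      have : 0 ≤ (n : ℝ) * E := by positivity
      nlinarith
    linarith
  · have h1 : 0 < (∏ l ∈ I.1, A l) := Finset.prod_pos (fun l _ => hS2 l)
    have := hAcpos I
    positivity
  · rw [hcE, hlogA' I]
    have h1 := abs_le.mp (hsumA I)
    have h2 := hAlow I
    have h3 := hAup I
    have h4 : F + 2 ^ n * F ≤ (2 ^ n + 1) * n * E := by
      have : (2 ^ n + 1) * F ≤ (2 ^ n + 1) * (n * E) :=
        mul_le_mul_of_nonneg_left hFE (by positivity)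
      linarith
    have h5 : 0 ≤ (k : ℝ) * lr := by positivity
    have h6 : F ≤ 2 ^ n * F := by nlinarith
    rw [abs_le]
    constructor
    · linarith
    · linarith
  · have e1 : ∑ I : Ix n k, Real.log (Real.exp (k * lr) * (∏ l ∈ I.1, A l) * Ac I) =
        ((n.choose k : ℕ) : ℝ) * k * lr +
        (((n - 1).choose (k - 1) : ℕ) : ℝ) * ∑ l, Real.log (A l) + ∑ I, Real.log (Ac I) := by
      rw [Finset.sum_congr rfl (fun I _ => hlogA' I), Finset.sum_add_distrib,
        Finset.sum_add_distrib, Finset.sum_const, Finset.card_univ, card_Ix, nsmul_eq_mul,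
        sum_Ix hk]
      ring
    have e2 : ∑ v, ∑ I : Ix n k, (((∑ l ∈ I.1, e v l : ℕ) : ℝ)) * Real.log (b v) =
        (((n - 1).choose (k - 1) : ℕ) : ℝ) * ∑ v, ∑ l, (e v l : ℝ) * Real.log (b v) := by
      rw [Finset.mul_sum]
      refine Finset.sum_congr rfl (fun v _ => ?_)
      rw [← sum_Ix hk (fun l => (e v l : ℝ) * Real.log (b v))]
      refine Finset.sum_congr rfl (fun I _ => ?_)
      push_cast
      rw [Finset.sum_mul]
    rw [e1, e2, mk_eq hk]
    set g1 : ℝ := (((n - 1).choose (k - 1) : ℕ) : ℝ) with hg1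
    have hg10 : 0 ≤ g1 := by positivity
    have hg12 : g1 ≤ 2 ^ n := by
      have h1 : ((n - 1).choose (k - 1)) ≤ 2 ^ (n - 1) := Nat.choose_le_two_pow _ _
      have h2 : 2 ^ (n - 1) ≤ 2 ^ n := Nat.pow_le_pow_right (by norm_num) (by omega)
      rw [hg1]
      exact_mod_cast h1.trans h2
    have e3 : g1 * n * lr = g1 * D0 + g1 * D - g1 * ∑ l, Real.log (A l) := by
      rw [mul_assoc, hlr]; ring
    have e4 : g1 * D ≤ g1 * ∑ v, ∑ l, (e v l : ℝ) * Real.log (b v) :=
      mul_le_mul_of_nonneg_left hD' hg10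
    have e5 : g1 * D0 ≤ 2 ^ n * D0 := mul_le_mul_of_nonneg_right hg12 hD0
    rw [e3]
    linarith

theorem red (hbasis : BasisStmt) (hcb : CBStmt) (hsf : SFStmt) (hgap : GapStmt)
    (hcomp : CompStmt) : RedStmt := by
  classical
  intro n s hn M0 M b hP c γ hc hγ
  obtain ⟨hM0, hM, hb, hcop⟩ := hP
  obtain ⟨C0, hC0, hgap'⟩ := hgap n hn
  have hcomp' := fun (k : ℕ) (h1 : 1 ≤ k) (h2 : k < n) => hcomp n k h1 h2 C0 hC0
  choose Cf hCf1 hCf using hcomp'
  obtain ⟨C1, hC11, hC1⟩ : ∃ C1 : ℝ, 1 ≤ C1 ∧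
      ∀ k (h1 : 1 ≤ k) (h2 : k < n), Cf k h1 h2 ≤ C1 := by
    have hnn : ∀ k ∈ range n, 0 ≤ (if h : 1 ≤ k ∧ k < n then Cf k h.1 h.2 else 0 : ℝ) := by
      intro k _
      split_ifs with h
      · have := hCf1 k h.1 h.2
        linarith
      · exact le_rfl
    refine ⟨1 + ∑ k ∈ range n, (if h : 1 ≤ k ∧ k < n then Cf k h.1 h.2 else 0), ?_, ?_⟩
    · have := Finset.sum_nonneg hnn
      linarith
    · intro k h1 h2
      have := Finset.single_le_sum hnn (Finset.mem_range.mpr h2)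
      rw [dif_pos ⟨h1, h2⟩] at this
      linarith
  have hn1 : (1 : ℝ) ≤ n := by exact_mod_cast (by omega : 1 ≤ n)
  have hn0 : (0 : ℝ) < n := by linarith
  have hM0R : (M0.det : ℝ) ≠ 0 := by exact_mod_cast hM0
  have hMvZ : (∏ v, (M v).det : ℤ) ≠ 0 := Finset.prod_ne_zero_iff.mpr (fun v _ => hM v)
  set D0 : ℝ := Real.log |(M0.det : ℝ)| with hD0def
  set Dv : ℝ := Real.log |((∏ v, (M v).det : ℤ) : ℝ)| with hDvdef
  have hD0 : 0 ≤ D0 := by
    apply Real.log_nonneg
    rw [← Int.cast_abs]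
    exact_mod_cast Int.one_le_abs hM0
  have hDv : 0 ≤ Dv := by
    apply Real.log_nonneg
    rw [← Int.cast_abs]
    exact_mod_cast Int.one_le_abs hMvZ
  have hlC0 : 0 ≤ Real.log C0 := Real.log_nonneg hC0
  have hlC1 : 0 ≤ Real.log C1 := Real.log_nonneg hC11
  refine ⟨(2 ^ n + 1) * n * (D0 + (s + 2) * c), γ / (4 * n ^ 2),
    1 + (2 * Dv + 2 * n * Real.log C0) / γ + 2 * n ^ 2 * (Real.log C1 + 1) / γ +
      4 * n ^ 2 * (2 ^ n * D0 + Real.log C1) / γ, ?_, by positivity, ?_⟩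
  · have h1 : (1 : ℝ) ≤ 2 ^ n + 1 := by
      have : (0 : ℝ) ≤ 2 ^ n := by positivity
      linarith
    have hs0 : (0 : ℝ) ≤ s := by positivity
    have h2 : (1 : ℝ) ≤ D0 + (s + 2) * c := by nlinarith
    have h3 : (1 : ℝ) ≤ (2 ^ n + 1) * n := by nlinarith
    nlinarith
  intro N hN e A hS x hx hSol
  have hq1 : 0 ≤ (2 * Dv + 2 * n * Real.log C0) / γ := by positivity
  have hq2 : 0 ≤ 2 * n ^ 2 * (Real.log C1 + 1) / γ := by positivity
  have hq3 : 0 ≤ 4 * n ^ 2 * (2 ^ n * D0 + Real.log C1) / γ := by positivity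
  have hN1 : 1 ≤ N := by linarith
  have hNa : 2 * Dv + 2 * n * Real.log C0 ≤ γ * N := by
    have : (2 * Dv + 2 * n * Real.log C0) / γ ≤ N := by linarith
    rw [div_le_iff₀ hγ] at this
    linarith
  have hNb : 2 * n ^ 2 * (Real.log C1 + 1) ≤ γ * N := by
    have : 2 * n ^ 2 * (Real.log C1 + 1) / γ ≤ N := by linarith
    rw [div_le_iff₀ hγ] at this
    linarith
  have hNc : 4 * n ^ 2 * (2 ^ n * D0 + Real.log C1) ≤ γ * N := by
    have : 4 * n ^ 2 * (2 ^ n * D0 + Real.log C1) / γ ≤ N := by linarith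
    rw [div_le_iff₀ hγ] at this
    linarith
  obtain ⟨B, hB0, hBu, hBl, hBdiv, hBy⟩ := basis_log hbasis M b hM hb hcop e
  obtain ⟨x0, hx0⟩ := hBy x hSol.2
  have hx00 : x0 ≠ 0 := by
    rintro rfl
    apply hx
    rw [hx0, Matrix.mulVec_zero]
  have hB0R : (B.det : ℝ) ≠ 0 := by exact_mod_cast hB0
  set D : ℝ := Real.log |(B.det : ℝ)| with hDdef
  set Q : Matrix (Fin n) (Fin n) ℤ := M0 * B with hQ
  have hQdet : (Q.det : ℝ) = M0.det * B.det := by
    rw [hQ, Matrix.det_mul]; push_cast; rfl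
  have hQ0 : Q.det ≠ 0 := by
    rw [hQ, Matrix.det_mul]; exact mul_ne_zero hM0 hB0
  set lr : ℝ := (D0 + D - ∑ l, Real.log (A l)) / n with hlrdef
  have hlr : n * lr = D0 + D - ∑ l, Real.log (A l) := by
    rw [hlrdef]; field_simp
  have hA0 : ∀ l, 0 < A l := hS.2.1
  have hS4 := hS.2.2.2
  have hlrlow : γ * N / (2 * n) + Real.log C0 ≤ lr := by
    rw [hlrdef, le_div_iff₀ hn0]
    have : (γ * N / (2 * n) + Real.log C0) * n = γ * N / 2 + n * Real.log C0 := by
      field_simp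
    rw [this]
    linarith
  have hlr0 : 0 ≤ lr := by
    have : 0 ≤ γ * N / (2 * n) := by positivity
    linarith
  set ρ : ℝ := Real.exp lr with hρ
  have hρ0 : 0 < ρ := Real.exp_pos _
  set L : Matrix (Fin n) (Fin n) ℝ :=
    Matrix.of fun i j => (ρ⁻¹ * (A i)⁻¹) * (Q.map (Int.cast : ℤ → ℝ)) i j with hL
  have hdet : |L.det| = 1 := by
    have h1 : L.det = (∏ i, (ρ⁻¹ * (A i)⁻¹)) * (Q.map (Int.cast : ℤ → ℝ)).det := by
      rw [hL, Matrix.det_mul_column]
    have h2 : (Q.map (Int.cast : ℤ → ℝ)).det = (Q.det : ℝ) := by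
      have := (Int.castRingHom ℝ).map_det Q
      rw [eq_intCast] at this
      rw [this]
      congr 1
    have h3 : ∏ i, (ρ⁻¹ * (A i)⁻¹) = (Real.exp (n * lr + ∑ l, Real.log (A l)))⁻¹ := by
      rw [Finset.prod_mul_distrib, Finset.prod_const, Finset.card_univ, Fintype.card_fin,
        Finset.prod_inv_distrib, inv_pow, Real.exp_add, Real.exp_sum, mul_inv]
      congr 2
      · rw [hρ, ← Real.exp_nat_mul]
      · refine Finset.prod_congr rfl (fun l _ => ?_)
        rw [Real.exp_log (hA0 l)]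
    have h4 : |(Q.det : ℝ)| = Real.exp (D0 + D) := by
      rw [hQdet, abs_mul, Real.exp_add, hD0def, hDdef, Real.exp_log (abs_pos.mpr hM0R),
        Real.exp_log (abs_pos.mpr hB0R)]
    have h5 : n * lr + ∑ l, Real.log (A l) = D0 + D := by
      rw [hlr]; ring
    rw [h1, abs_mul, h2, h4, h3, h5, abs_inv, abs_of_pos (Real.exp_pos _)]
    exact inv_mul_cancel₀ (Real.exp_pos _).ne'
  set lg : ℝ := γ * N / (2 * n ^ 2) with hlg
  have hlg0 : Real.log C1 + 1 ≤ lg := by
    rw [hlg, le_div_iff₀ (by positivity)]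
    linarith
  have hlgn : n * lg = γ * N / (2 * n) := by
    rw [hlg]; field_simp
  set g : ℝ := Real.exp lg with hg
  have hg1 : 1 ≤ g := by
    rw [hg]
    exact Real.one_le_exp (by linarith)
  have hC1g : C1 < g := by
    rw [hg, ← Real.log_lt_iff_lt_exp (by linarith)]
    linarith
  have hcond : ∀ l, C0 * g ^ n * |(L.mulVec (fun i => (x0 i : ℝ))) l| ≤ 1 := by
    intro l
    have h1 : (L.mulVec (fun i => (x0 i : ℝ))) l =
        (ρ⁻¹ * (A l)⁻¹) * ((∑ j, M0 l j * x j : ℤ) : ℝ) := by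
      have h2 : ∑ j, M0 l j * x j = ∑ j, Q l j * x0 j := by
        have h3 : M0.mulVec x = Q.mulVec x0 := by
          rw [hx0, Matrix.mulVec_mulVec]
        exact congrFun h3 l
      rw [h2]
      change ∑ j, L l j * (x0 j : ℝ) = _
      push_cast
      rw [Finset.mul_sum]
      refine Finset.sum_congr rfl (fun j _ => ?_)
      rw [hL, Matrix.of_apply, Matrix.map_apply]
      ring
    have h2 : |(L.mulVec (fun i => (x0 i : ℝ))) l| ≤ ρ⁻¹ := by
      rw [h1, abs_mul, abs_of_pos (mul_pos (inv_pos.mpr hρ0) (inv_pos.mpr (hA0 l)))]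
      calc ρ⁻¹ * (A l)⁻¹ * |((∑ j, M0 l j * x j : ℤ) : ℝ)| ≤ ρ⁻¹ * (A l)⁻¹ * A l :=
            mul_le_mul_of_nonneg_left (hSol.1 l)
              (mul_pos (inv_pos.mpr hρ0) (inv_pos.mpr (hA0 l))).le
        _ = ρ⁻¹ := by
            rw [mul_assoc, inv_mul_cancel₀ (hA0 l).ne', mul_one]
    have h3 : C0 * g ^ n * ρ⁻¹ ≤ 1 := by
      have h4 : C0 = Real.exp (Real.log C0) := (Real.exp_log (by linarith)).symm
      rw [h4, hg, ← Real.exp_nat_mul, hρ, ← Real.exp_neg, ← Real.exp_add, ← Real.exp_add,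
        Real.exp_le_one_iff]
      linarith
    calc C0 * g ^ n * |(L.mulVec (fun i => (x0 i : ℝ))) l| ≤ C0 * g ^ n * ρ⁻¹ := by
          apply mul_le_mul_of_nonneg_left h2
          have : 0 ≤ g := by linarith
          positivity
      _ ≤ 1 := h3
  have hLu : IsUnit L.det := by
    rw [isUnit_iff_ne_zero]
    intro h0
    rw [h0] at hdet
    simp at hdet
  obtain ⟨r, hr1, hrn, G, lam, hG, hlam0, hlamm, hGl, hlamC, hgapl, hGx⟩ :=
    hgap' L (L⁻¹).transpose hdet (by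
      rw [Matrix.transpose_transpose]
      exact Matrix.nonsing_inv_mul L hLu) x0 hx00 g hg1 hcond
  obtain ⟨k, hk⟩ : ∃ k, k = n - r := ⟨_, rfl⟩
  have hk1 : 1 ≤ k := by omega
  have hkn : k < n := by omega
  have hnk : n - k = r := by omega
  have hexpA : ∀ l, A l ≤ Real.exp (c * N) := by
    intro l
    rw [← Real.log_le_iff_le_exp (hA0 l)]
    exact (le_abs_self _).trans (hS.2.2.1 l)
  obtain ⟨Ac, y, w, hAc, hprod, hy, hw, hyw, hwA, hlast⟩ :=
    hCf k hk1 hkn L hdet G lam hG hlam0 hlamm hGl hlamC g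
      (lt_of_le_of_lt (hC1 k hk1 hkn) hC1g) (by
        intro i j hi hj
        rw [hnk] at hi hj
        exact hgapl i j hi hj)
      (Real.exp (-(k * lr + k * (c * N)))) (Real.exp_pos _) (by
        intro w hw
        have h1 : (cpd k Q).mulVec w ≠ 0 := fun h =>
          hw (Matrix.eq_zero_of_mulVec_eq_zero (cpd_det_ne hsf hk1 hkn.le Q hQ0) h)
        obtain ⟨I, hI⟩ := Function.ne_iff.mp h1
        refine ⟨I, ?_⟩
        rw [hL, cpdL, abs_mul]
        have h2 : (1 : ℝ) ≤ |(((cpd k Q).mulVec w I : ℤ) : ℝ)| := by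
          rw [← Int.cast_abs]
          exact_mod_cast Int.one_le_abs hI
        have hprodA : 0 < ∏ l ∈ I.1, A l := Finset.prod_pos (fun l _ => hA0 l)
        have h3 : Real.exp (-(k * lr + k * (c * N))) ≤ |(ρ ^ k * ∏ l ∈ I.1, A l)⁻¹| := by
          rw [abs_of_pos (by positivity), Real.exp_neg]
          apply inv_anti₀ (by positivity)
          rw [Real.exp_add]
          apply mul_le_mul
          · rw [hρ, ← Real.exp_nat_mul]
          · calc ∏ l ∈ I.1, A l ≤ ∏ l ∈ I.1, Real.exp (c * N) :=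
                  Finset.prod_le_prod (fun l _ => (hA0 l).le) (fun l _ => hexpA l)
              _ = Real.exp (k * (c * N)) := by
                  rw [Finset.prod_const, I.2, ← Real.exp_nat_mul]
          · exact hprodA.le
          · exact (Real.exp_pos _).le
        calc Real.exp (-(k * lr + k * (c * N))) = Real.exp (-(k * lr + k * (c * N))) * 1 := by
              rw [mul_one]
          _ ≤ _ := mul_le_mul h3 h2 (by norm_num) (abs_nonneg _))
  have hdual := dual_part hcb hsf hk1 hkn.le B hB0 y hy w hw hyw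
  refine ⟨k, hk1, hkn, fun v I => ∑ l ∈ I.1, e v l,
    fun I => Real.exp (k * lr) * (∏ l ∈ I.1, A l) * Ac I, fun i => (cpd k B).mulVec (w i),
    (cpd k B).adjugate.transpose.mulVec y, ?_, hdual.2.1, ?_, hdual.1, hdual.2.2.1, ?_⟩
  · have hCk1 := hCf1 k hk1 hkn
    have hCkC1 := hC1 k hk1 hkn
    have hlogk : Real.log (Cf k hk1 hkn) ≤ Real.log C1 :=
      Real.log_le_log (by linarith) hCkC1
    refine size_part hk1 hkn b c γ N hc hN1 e A hS lr D D0 hlr hD0 hBu hlr0 Ac hAc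
      (Cf k hk1 hkn) lg hCk1 hprod (by linarith) _ ?_
    have h1 : 2 ^ n * D0 + Real.log C1 ≤ γ * N / (4 * n ^ 2) := by
      rw [le_div_iff₀ (by positivity)]
      linarith
    have h2 : γ / (4 * n ^ 2) * N = γ * N / (4 * n ^ 2) := by ring
    have h3 : lg = γ * N / (4 * n ^ 2) + γ * N / (4 * n ^ 2) := by
      rw [hlg]; field_simp; norm_num
    rw [h2, h3]
    linarith
  · intro i
    apply sol_part hcb M0 M b e B hBdiv _ (w i)
    intro I
    have h1 := hwA i I
    have hprodA : 0 < ∏ l ∈ I.1, A l := Finset.prod_pos (fun l _ => hA0 l)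
    rw [hL, cpdL, abs_mul, abs_of_pos (by positivity)] at h1
    rw [inv_mul_le_iff₀ (by positivity)] at h1
    rw [hρ, ← Real.exp_nat_mul] at h1
    exact h1
  · rintro V ⟨c0, hc0⟩
    apply hdual.2.2.2 V
    apply hlast _ c0
    intro i hi
    rw [hnk] at hi
    have h1 : (fun l => (B.adjugate * V) l c0) = B.det • x0 := by
      have h2 : B.adjugate.mulVec x = B.det • x0 := by
        rw [hx0, Matrix.mulVec_mulVec, Matrix.adjugate_mul, Matrix.smul_mulVec, Matrix.one_mulVec]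
      rw [← h2]
      ext l
      rw [Matrix.mul_apply]
      change _ = ∑ j, B.adjugate l j * x j
      refine Finset.sum_congr rfl (fun j _ => ?_)
      rw [hc0 j]
    rw [h1, Matrix.det_updateRow_smul, hGx i hi, mul_zero]

end Pool.Agent.TH461.SST.Red
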