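import Mathlib
import Pool.Agent.TH461.SST.Stms
import Pool.Agent.H393R2.Vanish

/-!
SST-A3: vanishing on products of hyperplanes (helper757 for helper461)
-/

set_option autoImplicit false

open Finset Filter Topology

namespace Pool.Agent.TH461.SST.Vanish

open Pool.Agent.TH461.SST
open Pool.Agent.H393R2 (bterm Sk Dset mem_Dset map_Sk l1 l1_nonneg l1_sum_le l1_mul_le
  l1_prod_le l1_pow_le l1_X l1_C l1_natCast abs_coeff_le_l1)

/-- the linear forms in the variables `u` -/
noncomputable def WP (R : Type) [CommRing R] {m n n' : ℕ} (w : Fin m → Fin n' → Fin n → ℤ)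
    (h : Fin m) (l : Fin n) : MvPolynomial (Fin m × Fin n') R :=
  ∑ i, MvPolynomial.X (h, i) * MvPolynomial.C ((w h i l : ℤ) : R)

lemma form_eq (R : Type) [CommRing R] {m n n' : ℕ} (w : Fin m → Fin n' → Fin n → ℤ)
    (M : Matrix (Fin n) (Fin n) ℤ) (h : Fin m) (l : Fin n) :
    ∑ j, ((M l j : ℤ) : MvPolynomial (Fin m × Fin n') R) * WP R w h j =
      ∑ i, MvPolynomial.X (h, i) * MvPolynomial.C ((∑ j, M l j * w h i j : ℤ) : R) := by
  unfold WP
  simp_rw [Finset.mul_sum]
  rw [Finset.sum_comm]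
  apply Finset.sum_congr rfl
  intro i _
  rw [Int.cast_sum, map_sum, Finset.mul_sum]
  apply Finset.sum_congr rfl
  intro j _
  rw [Int.cast_mul, MvPolynomial.C_mul]
  have : ((M l j : ℤ) : MvPolynomial (Fin m × Fin n') R) = MvPolynomial.C ((M l j : ℤ) : R) := by
    simp
  rw [this]
  ring

/-- divisibility of the expansion -/
lemma dvd_expansion {m n : ℕ} {R : Type} [CommRing R] (r k : Fin m → ℕ) (j1 : Fin n)
    (d : (Fin m → Fin n → ℕ) → ℤ) (M : Matrix (Fin n) (Fin n) ℤ) (e : Fin m → Fin n → ℕ) (E : ℕ)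
    (hE : LowExp r k d e E) (β : R) (L : Fin m → Fin n → R) (hL : ∀ h l, β ^ (e h l) ∣ L h l) :
    β ^ E ∣ ∑ J ∈ Dset m n r, (d J : R) * ∏ h,
        ∑ κ ∈ Finset.piAntidiag (Finset.univ : Finset (Fin n)) (k h),
          ∏ l, ((((J h l).choose (κ l) : ℕ) : R) * ((M l j1 : ℤ) : R) ^ (κ l) *
            (L h l) ^ (J h l - κ l)) := by
  classical
  apply Finset.dvd_sum
  intro J hJ
  by_cases hd : d J = 0
  · rw [hd, Int.cast_zero, zero_mul]; exact dvd_zero _
  apply Dvd.dvd.mul_left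
  rw [Finset.prod_univ_sum]
  apply Finset.dvd_sum
  intro κ hκ
  rw [Fintype.mem_piFinset] at hκ
  have hκ' : ∀ h, ∑ l, κ h l = k h := fun h => by
    have := hκ h
    rw [Finset.mem_piAntidiag] at this
    exact this.1
  by_cases hle : ∀ h l, κ h l ≤ J h l
  · have h1 := hE J hJ hd κ hκ' hle
    refine (pow_dvd_pow β h1).trans ?_
    rw [← Finset.prod_pow_eq_pow_sum]
    apply Finset.prod_dvd_prod_of_dvd
    intro h _
    rw [← Finset.prod_pow_eq_pow_sum]
    apply Finset.prod_dvd_prod_of_dvd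
    intro l _
    apply Dvd.dvd.mul_left
    rw [pow_mul]
    exact pow_dvd_pow_of_dvd (hL h l) _
  · push Not at hle
    obtain ⟨h, l, hl⟩ := hle
    have : ∏ h, ∏ l, ((((J h l).choose (κ h l) : ℕ) : R) * ((M l j1 : ℤ) : R) ^ (κ h l) *
            (L h l) ^ (J h l - κ h l)) = 0 := by
      apply Finset.prod_eq_zero (Finset.mem_univ h)
      apply Finset.prod_eq_zero (Finset.mem_univ l)
      rw [Nat.choose_eq_zero_of_lt hl, Nat.cast_zero, zero_mul, zero_mul]
    rw [this]
    exact dvd_zero _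

/-- the norm of the expansion -/
lemma l1_expansion {m n : ℕ} {σ : Type} (r k : Fin m → ℕ) (j1 : Fin n)
    (d : (Fin m → Fin n → ℕ) → ℤ) (M : Matrix (Fin n) (Fin n) ℤ) (X : ℝ)
    (hM : ∀ l, |(M l j1 : ℝ)| ≤ X) (A : Fin m → Fin n → ℝ)
    (L : Fin m → Fin n → MvPolynomial σ ℝ) (hL : ∀ h l, l1 (L h l) ≤ X * A h l) :
    l1 (∑ J ∈ Dset m n r, (d J : MvPolynomial σ ℝ) * ∏ h,
        ∑ κ ∈ Finset.piAntidiag (Finset.univ : Finset (Fin n)) (k h),
          ∏ l, ((((J h l).choose (κ l) : ℕ) : MvPolynomial σ ℝ) *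
            ((M l j1 : ℤ) : MvPolynomial σ ℝ) ^ (κ l) * (L h l) ^ (J h l - κ l))) ≤
      ∑ J ∈ Dset m n r, |(d J : ℝ)| * ∏ h,
        ∑ κ ∈ Finset.piAntidiag (Finset.univ : Finset (Fin n)) (k h),
          ∏ l, (((J h l).choose (κ l) : ℝ) * X ^ (κ l) * (X * A h l) ^ (J h l - κ l)) := by
  have hint : ∀ z : ℤ, l1 ((z : ℤ) : MvPolynomial σ ℝ) = |(z : ℝ)| := by
    intro z
    have : ((z : ℤ) : MvPolynomial σ ℝ) = MvPolynomial.C (z : ℝ) := by simp
    rw [this, l1_C]
  refine (l1_sum_le _ _).trans ?_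
  apply Finset.sum_le_sum
  intro J _
  refine (l1_mul_le _ _).trans ?_
  rw [hint]
  apply mul_le_mul_of_nonneg_left _ (abs_nonneg _)
  refine (l1_prod_le _ _).trans ?_
  apply Finset.prod_le_prod
  · intro h _; exact l1_nonneg _
  intro h _
  refine (l1_sum_le _ _).trans ?_
  apply Finset.sum_le_sum
  intro κ _
  refine (l1_prod_le _ _).trans ?_
  apply Finset.prod_le_prod
  · intro l _; exact l1_nonneg _
  intro l _
  refine (l1_mul_le _ _).trans ?_
  refine mul_le_mul ?_ ?_ (l1_nonneg _) ?_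
  · refine (l1_mul_le _ _).trans ?_
    rw [l1_natCast]
    apply mul_le_mul_of_nonneg_left _ (by positivity)
    refine (l1_pow_le _ _).trans ?_
    rw [hint]
    exact pow_le_pow_left₀ (abs_nonneg _) (hM l) _
  · exact (l1_pow_le _ _).trans (pow_le_pow_left₀ (l1_nonneg _) (hL h l) _)
  · have : 0 ≤ X := (abs_nonneg _).trans (hM l)
    positivity

theorem vanish (hexp : ExpandStmt) : VanishStmt := by
  classical
  intro m n s n' r j1 k c M0 hM0 M hM b hb hcop d0 hd0 d hd w e hwe E hE X hX hdet hMX A hA hsmall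
  have hF : Sk r j1 k c (WP ℤ w) = 0 := by
    ext β
    rw [MvPolynomial.coeff_zero]
    by_contra hne
    obtain ⟨z, hz⟩ : ∃ z : ℤ, z = (Sk r j1 k c (WP ℤ w)).coeff β := ⟨_, rfl⟩
    rw [← hz] at hne
    -- divisibility
    have h1 : ∀ v, (b v : ℤ) ^ (E v) ∣ (M v).det ^ (∑ h, r h) * z := by
      intro v
      have e1 := hexp (MvPolynomial (Fin m × Fin n') ℤ) m n r j1 k c (d v) (M v) (hd v) (WP ℤ w)
      have hL : ∀ h l, (MvPolynomial.C (b v : ℤ) : MvPolynomial (Fin m × Fin n') ℤ) ^ (e h v l) ∣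
          ∑ i, ((M v l i : ℤ) : MvPolynomial (Fin m × Fin n') ℤ) * WP ℤ w h i := by
        intro h l
        rw [form_eq]
        apply Finset.dvd_sum
        intro i _
        apply Dvd.dvd.mul_left
        rw [← map_pow]
        apply map_dvd
        simpa using hwe h v i l
      have e2 := dvd_expansion r k j1 (d v) (M v) (fun h => e h v) (E v) (hE v)
        (MvPolynomial.C (b v : ℤ) : MvPolynomial (Fin m × Fin n') ℤ) _ hL
      rw [← e1, ← map_pow, MvPolynomial.C_dvd_iff_dvd_coeff] at e2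
      have e3 := e2 β
      have e4 : (((M v).det ^ (∑ h, r h) : ℤ) : MvPolynomial (Fin m × Fin n') ℤ) =
          MvPolynomial.C ((M v).det ^ (∑ h, r h)) := by simp
      rw [e4, MvPolynomial.coeff_C_mul, ← hz] at e3
      exact e3
    have h2 : ∏ v, (b v : ℤ) ^ (E v) ∣ (∏ v, (M v).det ^ (∑ h, r h)) * z := by
      apply Finset.prod_dvd_of_coprime
      · intro v _ v' _ hvv
        exact IsCoprime.pow (Nat.isCoprime_iff_coprime.2 (hcop v v' hvv))
      · intro v _
        refine (h1 v).trans ?_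
        exact mul_dvd_mul_right (Finset.dvd_prod_of_mem (fun v => (M v).det ^ (∑ h, r h))
          (Finset.mem_univ v)) z
    have h3 : (∏ v, (M v).det ^ (∑ h, r h)) * z ≠ 0 :=
      mul_ne_zero (Finset.prod_ne_zero_iff.2 (fun v _ => pow_ne_zero _ (hM v))) hne
    have h4 : ∏ v, (b v : ℝ) ^ (E v) ≤ X ^ (∑ h, r h) * |(z : ℝ)| := by
      obtain ⟨D, hD⟩ : ∃ D : Fin s → ℤ, D = fun v => (M v).det := ⟨_, rfl⟩
      have e0 : ∀ v, (M v).det = D v := fun v => by rw [hD]
      simp only [e0] at h2 h3 hdet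
      have e1 : ∏ v, (b v : ℤ) ^ (E v) ≤ |(∏ v, (D v) ^ (∑ h, r h)) * z| :=
        Int.le_of_dvd (abs_pos.2 h3) ((dvd_abs _ _).2 h2)
      have e2 : ((∏ v, (b v : ℤ) ^ (E v) : ℤ) : ℝ) ≤
          ((|(∏ v, (D v) ^ (∑ h, r h)) * z| : ℤ) : ℝ) := by exact_mod_cast e1
      push_cast at e2
      rw [abs_mul, Finset.abs_prod] at e2
      refine e2.trans (mul_le_mul_of_nonneg_right ?_ (abs_nonneg _))
      have e3 : ∏ v, |(D v : ℝ) ^ (∑ h, r h)| = (∏ v, |(D v : ℝ)|) ^ (∑ h, r h) := by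
        rw [← Finset.prod_pow]
        apply Finset.prod_congr rfl
        intro v _
        rw [abs_pow]
      rw [e3]
      exact pow_le_pow_left₀ (Finset.prod_nonneg (fun v _ => abs_nonneg _)) hdet _
    -- archimedean bound
    have h5 : |(z : ℝ)| ≤ ∑ J ∈ Dset m n r, |(d0 J : ℝ)| * ∏ h,
        ∑ κ ∈ Finset.piAntidiag (Finset.univ : Finset (Fin n)) (k h),
          ∏ l, (((J h l).choose (κ l) : ℝ) * X ^ (κ l) * (X * A h l) ^ (J h l - κ l)) := by
      have e1 := hexp (MvPolynomial (Fin m × Fin n') ℝ) m n r j1 k c d0 M0 hd0 (WP ℝ w)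
      have hL : ∀ h l, l1 (∑ i, ((M0 l i : ℤ) : MvPolynomial (Fin m × Fin n') ℝ) * WP ℝ w h i) ≤
          X * A h l := by
        intro h l
        rw [form_eq]
        refine (l1_sum_le _ _).trans (le_trans ?_ (hA h l))
        apply Finset.sum_le_sum
        intro i _
        refine (l1_mul_le _ _).trans ?_
        rw [l1_X, l1_C, one_mul]
      have e2 := l1_expansion r k j1 d0 M0 X hMX A _ hL
      rw [← e1] at e2
      refine le_trans ?_ e2
      have e3 : (((M0.det ^ (∑ h, r h) : ℤ)) : MvPolynomial (Fin m × Fin n') ℝ) =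
          MvPolynomial.C ((M0.det : ℝ) ^ (∑ h, r h)) := by simp
      rw [e3]
      refine le_trans ?_ (abs_coeff_le_l1 _ β)
      rw [MvPolynomial.coeff_C_mul]
      have e4 : (Sk r j1 k c (WP ℝ w)).coeff β = (z : ℝ) := by
        have : Sk r j1 k c (WP ℝ w) = MvPolynomial.map (Int.castRingHom ℝ)
            (Sk r j1 k c (WP ℤ w)) := by
          rw [map_Sk]
          congr 1
          funext h l
          unfold WP
          rw [map_sum]
          apply Finset.sum_congr rfl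
          intro i _
          rw [map_mul, MvPolynomial.map_X, MvPolynomial.map_C]
          simp
        rw [this, MvPolynomial.coeff_map, ← hz]
        simp
      rw [e4, abs_mul, abs_pow]
      have e5 : (1 : ℝ) ≤ |(M0.det : ℝ)| := by
        rw [← Int.cast_abs]
        exact_mod_cast Int.one_le_abs hM0
      have e6 : (1 : ℝ) ≤ |(M0.det : ℝ)| ^ (∑ h, r h) := one_le_pow₀ e5
      nlinarith [abs_nonneg (z : ℝ)]
    have h6 : X ^ (∑ h, r h) * |(z : ℝ)| ≤ Big r k X d0 A := by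
      unfold Big
      exact mul_le_mul_of_nonneg_left h5 (by positivity)
    linarith
  intro u
  have h1 := congrArg (MvPolynomial.eval (fun x : Fin m × Fin n' => u x.1 x.2))
    (congrArg (MvPolynomial.map (Int.castRingHom ℝ)) hF)
  rw [map_Sk, map_Sk, map_zero, map_zero] at h1
  rw [← h1]
  congr 1
  funext h l
  unfold WP
  rw [map_sum, map_sum]
  apply Finset.sum_congr rfl
  intro i _
  simp

end Pool.Agent.TH461.SST.Vanish
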