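import Mathlib
import Pool.Agent.TH461.SST.Stms

/-!
# The structure of the near cells

The near cells `(i, j)` of the orbit `θ p^i q^j` are organised in triangles, one for every
fraction `a / (p^m q^n)`.
-/

set_option autoImplicit false

open Finset

namespace Pool.Agent.TH461.SST.Tri

open Pool.Agent.TH461.SST
open Pool.Agent.H706R2 (dZ round_step dZ_le_of_int)

/-- reduced triples `(a, m, n)`, for the fraction `a / (p^m q^n)` -/
def Red (p q : ℕ) (t : ℤ × ℕ × ℕ) : Prop :=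
  (t.2.1 = 0 ∨ ¬ (p : ℤ) ∣ t.1) ∧ (t.2.2 = 0 ∨ ¬ (q : ℤ) ∣ t.1)

/-- the value of a triple -/
noncomputable def val (p q : ℕ) (t : ℤ × ℕ × ℕ) : ℝ :=
  (t.1 : ℝ) / ((p : ℝ) ^ t.2.1 * (q : ℝ) ^ t.2.2)

/-- the triple captures the cell `(i, j)` -/
def Cap (p q : ℕ) (r θ : ℝ) (t : ℤ × ℕ × ℕ) (i j : ℕ) : Prop :=
  t.2.1 ≤ i ∧ t.2.2 ≤ j ∧ |θ - val p q t| * ((p : ℝ) ^ i * (q : ℝ) ^ j) < r

variable {p q : ℕ} {r θ : ℝ}

lemma coprime_int (hpq : Nat.Coprime p q) : IsCoprime (p : ℤ) (q : ℤ) :=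
  Nat.isCoprime_iff_coprime.2 hpq

lemma val_mul (hp : 2 ≤ p) (hq : 2 ≤ q) {t : ℤ × ℕ × ℕ} {i j : ℕ} (hi : t.2.1 ≤ i)
    (hj : t.2.2 ≤ j) :
    val p q t * ((p : ℝ) ^ i * (q : ℝ) ^ j) =
      ((t.1 * (p : ℤ) ^ (i - t.2.1) * (q : ℤ) ^ (j - t.2.2) : ℤ) : ℝ) := by
  have hp0 : (0 : ℝ) < (p : ℝ) := by exact_mod_cast (by omega : 0 < p)
  have hq0 : (0 : ℝ) < (q : ℝ) := by exact_mod_cast (by omega : 0 < q)
  unfold val
  have h1 : (p : ℝ) ^ i = (p : ℝ) ^ (i - t.2.1) * (p : ℝ) ^ t.2.1 := by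
    rw [← pow_add]; congr 1; omega
  have h2 : (q : ℝ) ^ j = (q : ℝ) ^ (j - t.2.2) * (q : ℝ) ^ t.2.2 := by
    rw [← pow_add]; congr 1; omega
  rw [h1, h2]
  push_cast
  field_simp

lemma r_lt (hp : 2 ≤ p) (hr : 0 < r) (hrp : ((p : ℝ) + 1) * r ≤ 1) : 3 * r ≤ 1 := by
  have : (2 : ℝ) ≤ p := by exact_mod_cast hp
  nlinarith

lemma round_of_near (hp : 2 ≤ p) (hr : 0 < r) (hrp : ((p : ℝ) + 1) * r ≤ 1) {x : ℝ} {k : ℤ}
    (h : |x - k| < r) : round x = k ∧ dZ x < r := by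
  have h1 := dZ_le_of_int x k
  have h3 := r_lt hp hr hrp
  refine ⟨?_, by linarith⟩
  unfold dZ at h1
  have h2 : |((round x - k : ℤ) : ℝ)| < 1 := by
    have e : ((round x - k : ℤ) : ℝ) = (x - k) - (x - round x) := by push_cast; ring
    rw [e]
    calc |(x - k) - (x - round x)| ≤ |x - k| + |x - round x| := abs_sub _ _
      _ < 1 := by linarith
  have h4 : |round x - k| < 1 := by exact_mod_cast h2
  have h5 := Int.abs_lt_one_iff.mp h4
  omega

/-- captured cells are near -/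
lemma Cap.round (hp : 2 ≤ p) (hq : 2 ≤ q) (hr : 0 < r) (hrp : ((p : ℝ) + 1) * r ≤ 1)
    {t : ℤ × ℕ × ℕ} {i j : ℕ} (h : Cap p q r θ t i j) :
    round (θ * (p : ℝ) ^ i * (q : ℝ) ^ j) = t.1 * (p : ℤ) ^ (i - t.2.1) * (q : ℤ) ^ (j - t.2.2) ∧
      dZ (θ * (p : ℝ) ^ i * (q : ℝ) ^ j) < r := by
  obtain ⟨hi, hj, h⟩ := h
  apply round_of_near hp hr hrp
  rw [← val_mul hp hq hi hj]
  have hpos : 0 < (p : ℝ) ^ i * (q : ℝ) ^ j := by
    have hp0 : (0 : ℝ) < (p : ℝ) := by exact_mod_cast (by omega : 0 < p)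
    have hq0 : (0 : ℝ) < (q : ℝ) := by exact_mod_cast (by omega : 0 < q)
    positivity
  have e : θ * (p : ℝ) ^ i * (q : ℝ) ^ j - val p q t * ((p : ℝ) ^ i * (q : ℝ) ^ j) =
      (θ - val p q t) * ((p : ℝ) ^ i * (q : ℝ) ^ j) := by ring
  rw [e, abs_mul, abs_of_pos hpos]
  exact h

lemma Cap.not_far (hp : 2 ≤ p) (hq : 2 ≤ q) (hr : 0 < r) (hrp : ((p : ℝ) + 1) * r ≤ 1)
    {t : ℤ × ℕ × ℕ} {i j : ℕ} (h : Cap p q r θ t i j) : ¬ Far p q r θ i j := by
  have := (h.round hp hq hr hrp).2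
  unfold Far
  linarith

/-- every fraction has a reduced triple -/
lemma exists_red (hp : 2 ≤ p) (hq : 2 ≤ q) (k : ℕ) : ∀ (i j : ℕ) (A : ℤ), i + j = k →
    ∃ t : ℤ × ℕ × ℕ, Red p q t ∧ t.2.1 ≤ i ∧ t.2.2 ≤ j ∧
      val p q t = val p q (A, i, j) := by
  have hp0 : (p : ℝ) ≠ 0 := by positivity
  have hq0 : (q : ℝ) ≠ 0 := by positivity
  induction k with
  | zero =>
    intro i j A h
    obtain ⟨rfl, rfl⟩ : i = 0 ∧ j = 0 := by omega
    exact ⟨(A, 0, 0), ⟨Or.inl rfl, Or.inl rfl⟩, le_rfl, le_rfl, rfl⟩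
  | succ k ih =>
    intro i j A h
    by_cases h1 : i ≠ 0 ∧ (p : ℤ) ∣ A
    · obtain ⟨hi, B, rfl⟩ := h1
      obtain ⟨i', rfl⟩ : ∃ i', i = i' + 1 := ⟨i - 1, by omega⟩
      obtain ⟨t, h2, h3, h4, h5⟩ := ih i' j B (by omega)
      refine ⟨t, h2, by omega, h4, ?_⟩
      rw [h5]
      unfold val
      simp only
      push_cast
      rw [pow_succ]
      field_simp
    · by_cases h2 : j ≠ 0 ∧ (q : ℤ) ∣ A
      · obtain ⟨hj, B, rfl⟩ := h2
        obtain ⟨j', rfl⟩ : ∃ j', j = j' + 1 := ⟨j - 1, by omega⟩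
        obtain ⟨t, h2, h3, h4, h5⟩ := ih i j' B (by omega)
        refine ⟨t, h2, h3, by omega, ?_⟩
        rw [h5]
        unfold val
        simp only
        push_cast
        rw [pow_succ]
        field_simp
      · refine ⟨(A, i, j), ⟨?_, ?_⟩, le_rfl, le_rfl, rfl⟩
        · simp only; tauto
        · simp only; tauto

/-- near cells are captured by a reduced triple -/
lemma exists_cap (hp : 2 ≤ p) (hq : 2 ≤ q) {i j : ℕ} (h : ¬ Far p q r θ i j) :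
    ∃ t : ℤ × ℕ × ℕ, Red p q t ∧ Cap p q r θ t i j := by
  unfold Far at h
  push Not at h
  have hp0 : (0 : ℝ) < (p : ℝ) := by exact_mod_cast (by omega : 0 < p)
  have hq0 : (0 : ℝ) < (q : ℝ) := by exact_mod_cast (by omega : 0 < q)
  obtain ⟨t, h1, h2, h3, h4⟩ := exists_red hp hq (i + j) i j
    (round (θ * (p : ℝ) ^ i * (q : ℝ) ^ j)) rfl
  refine ⟨t, h1, h2, h3, ?_⟩
  rw [h4]
  unfold dZ at h
  have hpos : 0 < (p : ℝ) ^ i * (q : ℝ) ^ j := by positivity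
  have e : |θ - val p q (round (θ * (p : ℝ) ^ i * (q : ℝ) ^ j), i, j)| *
      ((p : ℝ) ^ i * (q : ℝ) ^ j) =
      |θ * (p : ℝ) ^ i * (q : ℝ) ^ j - round (θ * (p : ℝ) ^ i * (q : ℝ) ^ j)| := by
    have e1 : θ * (p : ℝ) ^ i * (q : ℝ) ^ j - round (θ * (p : ℝ) ^ i * (q : ℝ) ^ j) =
        (θ - val p q (round (θ * (p : ℝ) ^ i * (q : ℝ) ^ j), i, j)) *
          ((p : ℝ) ^ i * (q : ℝ) ^ j) := by
      unfold val
      simp only
      field_simp
    rw [e1, abs_mul, abs_of_pos hpos]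
  rw [e]
  exact h

lemma red_unique (hp : 2 ≤ p) (hq : 2 ≤ q) (hpq : Nat.Coprime p q) {t t' : ℤ × ℕ × ℕ}
    (ht : Red p q t) (ht' : Red p q t') (h : val p q t = val p q t') : t = t' := by
  have hp0 : (0 : ℝ) < (p : ℝ) := by exact_mod_cast (by omega : 0 < p)
  have hq0 : (0 : ℝ) < (q : ℝ) := by exact_mod_cast (by omega : 0 < q)
  have hpz : (p : ℤ) ≠ 0 := by exact_mod_cast (by omega : p ≠ 0)
  have hqz : (q : ℤ) ≠ 0 := by exact_mod_cast (by omega : q ≠ 0)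
  obtain ⟨a, m, n⟩ := t
  obtain ⟨a', m', n'⟩ := t'
  have hc := coprime_int hpq
  have key : a * ((p : ℤ) ^ m' * (q : ℤ) ^ n') = a' * ((p : ℤ) ^ m * (q : ℤ) ^ n) := by
    unfold val at h
    simp only at h
    rw [div_eq_div_iff (by positivity) (by positivity)] at h
    exact_mod_cast h
  -- `m = m'`
  have aux : ∀ (a a' : ℤ) (m m' n n' : ℕ),
      a * ((p : ℤ) ^ m' * (q : ℤ) ^ n') = a' * ((p : ℤ) ^ m * (q : ℤ) ^ n) →
      m < m' → (p : ℤ) ∣ a' := by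
    intro a a' m m' n n' h hm
    obtain ⟨d, rfl⟩ : ∃ d, m' = m + 1 + d := ⟨m' - m - 1, by omega⟩
    have h1 : (p : ℤ) ^ m * (a * (p : ℤ) ^ (1 + d) * (q : ℤ) ^ n') =
        (p : ℤ) ^ m * (a' * (q : ℤ) ^ n) := by
      rw [show m + 1 + d = m + (1 + d) by ring, pow_add] at h
      linarith
    have h2 := mul_left_cancel₀ (pow_ne_zero m hpz) h1
    have h3 : (p : ℤ) ∣ a' * (q : ℤ) ^ n := by
      rw [← h2, pow_add, pow_one]
      exact ⟨a * (p : ℤ) ^ d * (q : ℤ) ^ n', by ring⟩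
    exact (hc.pow_right (n := n)).dvd_of_dvd_mul_right h3
  have aux2 : ∀ (a a' : ℤ) (m m' n n' : ℕ),
      a * ((p : ℤ) ^ m' * (q : ℤ) ^ n') = a' * ((p : ℤ) ^ m * (q : ℤ) ^ n) →
      n < n' → (q : ℤ) ∣ a' := by
    intro a a' m m' n n' h hn
    obtain ⟨d, rfl⟩ : ∃ d, n' = n + 1 + d := ⟨n' - n - 1, by omega⟩
    have h1 : (q : ℤ) ^ n * (a * (q : ℤ) ^ (1 + d) * (p : ℤ) ^ m') =
        (q : ℤ) ^ n * (a' * (p : ℤ) ^ m) := by
      rw [show n + 1 + d = n + (1 + d) by ring, pow_add] at h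
      linarith
    have h2 := mul_left_cancel₀ (pow_ne_zero n hqz) h1
    have h3 : (q : ℤ) ∣ a' * (p : ℤ) ^ m := by
      rw [← h2, pow_add, pow_one]
      exact ⟨a * (q : ℤ) ^ d * (p : ℤ) ^ m', by ring⟩
    exact (hc.symm.pow_right (n := m)).dvd_of_dvd_mul_right h3
  have hm : m = m' := by
    rcases lt_trichotomy m m' with h1 | h1 | h1
    · exfalso
      have h2 := aux a a' m m' n n' key h1
      rcases ht'.1 with h3 | h3
      · simp only at h3; omega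
      · exact h3 h2
    · exact h1
    · exfalso
      have h2 := aux a' a m' m n' n key.symm h1
      rcases ht.1 with h3 | h3
      · simp only at h3; omega
      · exact h3 h2
  have hn : n = n' := by
    rcases lt_trichotomy n n' with h1 | h1 | h1
    · exfalso
      have h2 := aux2 a a' m m' n n' key h1
      rcases ht'.2 with h3 | h3
      · simp only at h3; omega
      · exact h3 h2
    · exact h1
    · exfalso
      have h2 := aux2 a' a m' m n' n key.symm h1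
      rcases ht.2 with h3 | h3
      · simp only at h3; omega
      · exact h3 h2
  subst hm hn
  have h4 : a = a' := by
    have h5 : (p : ℤ) ^ m * (q : ℤ) ^ n ≠ 0 := mul_ne_zero (pow_ne_zero _ hpz) (pow_ne_zero _ hqz)
    exact mul_right_cancel₀ h5 key
  rw [h4]

/-- the triangles of different fractions are disjoint -/
lemma cap_unique (hp : 2 ≤ p) (hq : 2 ≤ q) (hpq : Nat.Coprime p q) (hr : 0 < r)
    (hrp : ((p : ℝ) + 1) * r ≤ 1) {t t' : ℤ × ℕ × ℕ} (ht : Red p q t) (ht' : Red p q t')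
    {i j : ℕ} (h : Cap p q r θ t i j) (h' : Cap p q r θ t' i j) : t = t' := by
  apply red_unique hp hq hpq ht ht'
  have hp0 : (0 : ℝ) < (p : ℝ) := by exact_mod_cast (by omega : 0 < p)
  have hq0 : (0 : ℝ) < (q : ℝ) := by exact_mod_cast (by omega : 0 < q)
  have h1 := (h.round hp hq hr hrp).1
  have h2 := (h'.round hp hq hr hrp).1
  have hpos : (p : ℝ) ^ i * (q : ℝ) ^ j ≠ 0 := by positivity
  apply mul_right_cancel₀ hpos
  rw [val_mul hp hq h.1 h.2.1, val_mul hp hq h'.1 h'.2.1, ← h1, ← h2]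

/-- the cells to the left of a triangle are far -/
lemma left_far (hp : 2 ≤ p) (hq : 2 ≤ q) (hpq : Nat.Coprime p q) (hr : 0 < r)
    (hrp : ((p : ℝ) + 1) * r ≤ 1) {t : ℤ × ℕ × ℕ} (ht : Red p q t) {j : ℕ}
    (h : Cap p q r θ t t.2.1 j) (hm : 1 ≤ t.2.1) : Far p q r θ (t.2.1 - 1) j := by
  by_contra hcon
  unfold Far at hcon
  push Not at hcon
  obtain ⟨h1, h2⟩ := h.round hp hq hr hrp
  obtain ⟨m', hm'⟩ : ∃ m', t.2.1 = m' + 1 := ⟨t.2.1 - 1, by omega⟩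
  have e : θ * (p : ℝ) ^ t.2.1 * (q : ℝ) ^ j =
      (p : ℝ) * (θ * (p : ℝ) ^ (t.2.1 - 1) * (q : ℝ) ^ j) := by
    rw [hm', pow_succ]
    simp only [Nat.add_sub_cancel]
    ring
  rw [e] at h1 h2
  rw [round_step hrp hcon h2] at h1
  rw [Nat.sub_self, pow_zero, mul_one] at h1
  have h3 : (p : ℤ) ∣ t.1 * (q : ℤ) ^ (j - t.2.2) := ⟨_, h1.symm⟩
  have h4 := ((coprime_int hpq).pow_right (n := j - t.2.2)).dvd_of_dvd_mul_right h3
  rcases ht.1 with h5 | h5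
  · omega
  · exact h5 h4

/-- the cells below a triangle are far -/
lemma below_far (hp : 2 ≤ p) (hq : 2 ≤ q) (hpq : Nat.Coprime p q) (hr : 0 < r)
    (hrp : ((p : ℝ) + 1) * r ≤ 1) (hrq : ((q : ℝ) + 1) * r ≤ 1) {t : ℤ × ℕ × ℕ}
    (ht : Red p q t) {i : ℕ} (h : Cap p q r θ t i t.2.2) (hn : 1 ≤ t.2.2) :
    Far p q r θ i (t.2.2 - 1) := by
  by_contra hcon
  unfold Far at hcon
  push Not at hcon
  obtain ⟨h1, h2⟩ := h.round hp hq hr hrp
  obtain ⟨n', hn'⟩ : ∃ n', t.2.2 = n' + 1 := ⟨t.2.2 - 1, by omega⟩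
  have e : θ * (p : ℝ) ^ i * (q : ℝ) ^ t.2.2 =
      (q : ℝ) * (θ * (p : ℝ) ^ i * (q : ℝ) ^ (t.2.2 - 1)) := by
    rw [hn', pow_succ]
    simp only [Nat.add_sub_cancel]
    ring
  rw [e] at h1 h2
  rw [round_step hrq hcon h2] at h1
  rw [Nat.sub_self, pow_zero, mul_one] at h1
  have h3 : (q : ℤ) ∣ t.1 * (p : ℤ) ^ (i - t.2.1) := ⟨_, h1.symm⟩
  have h4 := ((coprime_int hpq).symm.pow_right (n := i - t.2.1)).dvd_of_dvd_mul_right h3
  rcases ht.2 with h5 | h5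
  · omega
  · exact h5 h4

/-! ### Levels -/

/-- the level of a triangle in a window of size `N` -/
noncomputable def lev (p q : ℕ) (r θ N : ℝ) (t : ℤ × ℕ × ℕ) : ℝ :=
  if θ = val p q t then N else min N (Real.log (r / |θ - val p q t|))

lemma exp_level (hp : 2 ≤ p) (hq : 2 ≤ q) (i j : ℕ) :
    Real.exp ((i : ℝ) * Real.log p + (j : ℝ) * Real.log q) = (p : ℝ) ^ i * (q : ℝ) ^ j := by
  have hp0 : (0 : ℝ) < (p : ℝ) := by exact_mod_cast (by omega : 0 < p)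
  have hq0 : (0 : ℝ) < (q : ℝ) := by exact_mod_cast (by omega : 0 < q)
  rw [Real.exp_add, ← Real.log_pow, ← Real.log_pow, Real.exp_log (by positivity),
    Real.exp_log (by positivity)]

lemma lev_le (N : ℝ) (t : ℤ × ℕ × ℕ) : lev p q r θ N t ≤ N := by
  unfold lev
  split_ifs
  · exact le_rfl
  · exact min_le_left _ _

lemma lt_lev_iff (hr : 0 < r) {N x : ℝ} {t : ℤ × ℕ × ℕ} :
    x < lev p q r θ N t ↔ x < N ∧ |θ - val p q t| * Real.exp x < r := by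
  unfold lev
  split_ifs with h
  · rw [h, sub_self, abs_zero, zero_mul]
    exact ⟨fun h => ⟨h, hr⟩, fun h => h.1⟩
  · have hpos : 0 < |θ - val p q t| := abs_pos.2 (sub_ne_zero.2 h)
    rw [lt_min_iff, Real.lt_log_iff_exp_lt (by positivity), lt_div_iff₀ hpos, mul_comm]

lemma dist_le_exp (hr : 0 < r) (hr1 : r ≤ 1) (N : ℝ) (t : ℤ × ℕ × ℕ) :
    |θ - val p q t| ≤ Real.exp (-(lev p q r θ N t)) := by
  unfold lev
  split_ifs with h
  · rw [h, sub_self, abs_zero]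
    positivity
  · have hpos : 0 < |θ - val p q t| := abs_pos.2 (sub_ne_zero.2 h)
    have h1 : Real.exp (-(Real.log (r / |θ - val p q t|))) ≤
        Real.exp (-(min N (Real.log (r / |θ - val p q t|)))) := by
      apply Real.exp_le_exp.2
      have := min_le_right N (Real.log (r / |θ - val p q t|))
      linarith
    refine le_trans ?_ h1
    rw [Real.exp_neg, Real.exp_log (by positivity), inv_div]
    rw [le_div_iff₀ hr]
    nlinarith

/-- the cells in the triangle of `t` are the captured cells of level below `N` -/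
lemma inT_iff (hp : 2 ≤ p) (hq : 2 ≤ q) (hr : 0 < r) {N : ℝ} {t : ℤ × ℕ × ℕ} {i j : ℕ} :
    InT (Real.log p) (Real.log q) t.2.1 t.2.2 (lev p q r θ N t) i j ↔
      (i : ℝ) * Real.log p + (j : ℝ) * Real.log q < N ∧ Cap p q r θ t i j := by
  unfold InT Cap
  rw [lt_lev_iff hr, exp_level hp hq]
  tauto

end Pool.Agent.TH461.SST.Tri
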