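import Mathlib
import Pool.Agent.TH461.SST.Tri

/-!
# The big triangles of a window
-/

set_option autoImplicit false

open Finset

namespace Pool.Agent.TH461.SST.Tri

open Pool.Agent.TH461.SST
open Pool.Agent.H706R2 (dZ round_step dZ_le_of_int)

variable {p q : ℕ} {r θ : ℝ}

/-- the size of a triangle -/
noncomputable def size (p q : ℕ) (r θ N : ℝ) (t : ℤ × ℕ × ℕ) : ℝ :=
  lev p q r θ N t - (t.2.1 : ℝ) * Real.log p - (t.2.2 : ℝ) * Real.log q

lemma log_pos' {p : ℕ} (hp : 2 ≤ p) : 0 < Real.log p :=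
  Real.log_pos (by exact_mod_cast (by omega : 1 < p))

/-- the cluster inequality: there are few big triangles -/
lemma cluster_fin (hp : 2 ≤ p) (hq : 2 ≤ q) (hpq : Nat.Coprime p q) (hr : 0 < r) (hr1 : r ≤ 1)
    (hcl : ClusterStmt p q) {η' : ℝ} (hη : 0 < η') :
    ∃ N0 : ℝ, 0 < N0 ∧ ∀ N : ℝ, N0 ≤ N → ∀ θ : ℝ, 1 ≤ θ → θ < 2 → ∀ Z : Finset (ℤ × ℕ × ℕ),
      (∀ t ∈ Z, Red p q t) → (∀ t ∈ Z, η' * N ≤ size p q r θ N t) →
      (Z.card : ℝ) ≤ 2 / η' ∧ ∑ t ∈ Z, size p q r θ N t ≤ 2 * N := by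
  classical
  choose N0f hN0f using fun k => hcl k η' hη
  set k0 : ℕ := ⌊2 / η'⌋₊ + 1 with hk0
  have hk0lt : 2 / η' < (k0 : ℝ) := by
    rw [hk0]; push_cast; exact Nat.lt_floor_add_one _
  refine ⟨1 + ∑ k ∈ range (k0 + 1), |N0f k|, by positivity, ?_⟩
  intro N hN θ hθ1 hθ2 Z hred hbig
  have hNpos : 0 < N := lt_of_lt_of_le (by positivity) hN
  -- the inequality for small sets
  have small : ∀ W : Finset (ℤ × ℕ × ℕ), W ⊆ Z → W.card ≤ k0 →
      ∑ t ∈ W, size p q r θ N t ≤ 2 * N := by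
    intro W hW hcard
    have h1 : N0f W.card ≤ N := by
      have h2 : |N0f W.card| ≤ ∑ k ∈ range (k0 + 1), |N0f k| :=
        Finset.single_le_sum (f := fun k => |N0f k|) (fun _ _ => abs_nonneg _)
          (Finset.mem_range.2 (by omega))
      have h3 := le_abs_self (N0f W.card)
      linarith
    let e := W.equivFin
    have h2 := hN0f W.card N h1 θ hθ1 hθ2 (fun i => (e.symm i).1.1) (fun i => (e.symm i).1.2.1)
      (fun i => (e.symm i).1.2.2) (fun i => lev p q r θ N (e.symm i).1)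
      (fun i => (hred _ (hW (e.symm i).2)).1)
      (fun i => lev_le _ _)
      (fun i => dist_le_exp hr hr1 N (e.symm i).1)
      (fun i => by
        have := hbig _ (hW (e.symm i).2)
        unfold size at this
        linarith)
      (fun i j hij hval => by
        apply hij
        apply e.symm.injective
        apply Subtype.ext
        exact red_unique hp hq hpq (hred _ (hW (e.symm i).2)) (hred _ (hW (e.symm j).2)) hval)
    have h3 : ∑ i : Fin W.card, size p q r θ N (e.symm i).1 = ∑ t ∈ W, size p q r θ N t := by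
      rw [← Finset.sum_coe_sort W]
      exact Equiv.sum_comp e.symm (fun t : W => size p q r θ N t.1)
    rw [← h3]
    exact h2
  have hcard : Z.card < k0 := by
    by_contra hcon
    push Not at hcon
    obtain ⟨W, hW, hWc⟩ := Finset.exists_subset_card_eq hcon
    have h1 := small W hW hWc.le
    have h2 : (W.card : ℝ) * (η' * N) ≤ ∑ t ∈ W, size p q r θ N t := by
      rw [← nsmul_eq_mul]
      exact Finset.card_nsmul_le_sum _ _ _ (fun t ht => hbig t (hW ht))
    rw [hWc] at h2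
    have h3 : (k0 : ℝ) * η' * N ≤ 2 * N := by linarith
    have h4 : (k0 : ℝ) * η' ≤ 2 := le_of_mul_le_mul_right h3 hNpos
    rw [div_lt_iff₀ hη] at hk0lt
    linarith
  refine ⟨?_, small Z subset_rfl hcard.le⟩
  have h1 : Z.card ≤ ⌊2 / η'⌋₊ := by omega
  exact (Nat.le_floor_iff (by positivity)).1 h1

/-- the big triangles of a window -/
lemma window (hp : 2 ≤ p) (hq : 2 ≤ q) (hpq : Nat.Coprime p q) (hr : 0 < r)
    (hrp : ((p : ℝ) + 1) * r ≤ 1) (hcl : ClusterStmt p q) {η : ℝ} (hη : 0 < η) :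
    ∃ K : ℝ, 0 < K ∧ ∃ R0 : ℕ, 1 ≤ R0 ∧ ∀ R C : ℕ, R0 ≤ R →
      (R : ℝ) * Real.log q ≤ C * Real.log p →
      (C : ℝ) * Real.log p ≤ R * Real.log q + Real.log p →
      ∀ θ : ℝ, 1 ≤ θ → θ < 2 → ∀ N : ℝ, N = C * Real.log p + R * Real.log q →
      ∃ Z : Finset (ℤ × ℕ × ℕ),
        (∀ t ∈ Z, Red p q t ∧ t.2.1 < C ∧ t.2.2 < R ∧ 0 < size p q r θ N t) ∧
        (Z.card : ℝ) ≤ K ∧ ∑ t ∈ Z, size p q r θ N t ≤ 2 * N ∧
        ∀ x ∈ range C ×ˢ range R, η * R ≤ x.1 →
          (∀ t ∈ Z, ¬ InT (Real.log p) (Real.log q) t.2.1 t.2.2 (lev p q r θ N t) x.1 x.2) →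
          ∃ i' : ℕ, i' ≤ x.1 ∧ (x.1 : ℝ) ≤ i' + η * R ∧ Far p q r θ i' x.2 := by
  classical
  have hl := log_pos' hp
  have hu := log_pos' hq
  set l := Real.log p with hl_def
  set u := Real.log q with hu_def
  have hr1 : r ≤ 1 := by have := r_lt hp hr hrp; linarith
  set η' : ℝ := η * l / (2 * (2 * u + l)) with hη'
  have hη'0 : 0 < η' := by positivity
  obtain ⟨N0, hN0, hfin⟩ := cluster_fin hp hq hpq hr hr1 hcl hη'0
  refine ⟨2 / η', by positivity, max 1 (max ⌈N0 / u⌉₊ ⌈2 / η⌉₊), le_max_left _ _, ?_⟩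
  intro R C hR hC1 hC2 θ hθ1 hθ2 N hN
  have hR1 : 1 ≤ R := (le_max_left _ _).trans hR
  have hR1' : (1 : ℝ) ≤ R := by exact_mod_cast hR1
  have hR2 : N0 / u ≤ R := by
    refine (Nat.le_ceil _).trans ?_
    exact_mod_cast ((le_max_left _ _).trans (le_max_right _ _)).trans hR
  have hR3 : 2 / η ≤ R := by
    refine (Nat.le_ceil _).trans ?_
    exact_mod_cast ((le_max_right _ _).trans (le_max_right _ _)).trans hR
  have hNR : (R : ℝ) * u ≤ N := by
    rw [hN]
    have : 0 ≤ (C : ℝ) * l := by positivity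
    linarith
  have hNN0 : N0 ≤ N := by
    rw [div_le_iff₀ hu] at hR2
    linarith
  have hNpos : 0 < N := by linarith
  have hNup : η' * N ≤ η * R * l / 2 := by
    have h1 : N ≤ (2 * u + l) * R := by
      rw [hN]
      nlinarith
    have h2 : η' * N ≤ η' * ((2 * u + l) * R) := mul_le_mul_of_nonneg_left h1 hη'0.le
    have h3 : η' * ((2 * u + l) * R) = η * R * l / 2 := by
      rw [hη']; field_simp
    linarith
  -- the triangle of a near cell
  have hT : ∀ x : ℕ × ℕ, ∃ t : ℤ × ℕ × ℕ, ¬ Far p q r θ x.1 x.2 →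
      Red p q t ∧ Cap p q r θ t x.1 x.2 := by
    intro x
    by_cases h : Far p q r θ x.1 x.2
    · exact ⟨(0, 0, 0), fun h' => absurd h h'⟩
    · obtain ⟨t, ht⟩ := exists_cap hp hq h
      exact ⟨t, fun _ => ht⟩
  choose T hT using hT
  set Z : Finset (ℤ × ℕ × ℕ) := (((range C ×ˢ range R).filter
    (fun x => ¬ Far p q r θ x.1 x.2)).image T).filter
      (fun t => η' * N ≤ size p q r θ N t) with hZ
  have hZmem : ∀ t ∈ Z, Red p q t ∧ t.2.1 < C ∧ t.2.2 < R ∧ η' * N ≤ size p q r θ N t := by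
    intro t ht
    rw [hZ, Finset.mem_filter, Finset.mem_image] at ht
    obtain ⟨⟨x, hx, rfl⟩, hs⟩ := ht
    rw [Finset.mem_filter, Finset.mem_product, Finset.mem_range, Finset.mem_range] at hx
    obtain ⟨⟨hx1, hx2⟩, hx3⟩ := hx
    obtain ⟨h1, h2, h3, -⟩ := hT x hx3
    exact ⟨h1, by omega, by omega, hs⟩
  obtain ⟨hZc, hZs⟩ := hfin N hNN0 θ hθ1 hθ2 Z (fun t ht => (hZmem t ht).1)
    (fun t ht => (hZmem t ht).2.2.2)
  refine ⟨Z, ?_, hZc, hZs, ?_⟩
  · intro t ht
    obtain ⟨h1, h2, h3, h4⟩ := hZmem t ht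
    exact ⟨h1, h2, h3, lt_of_lt_of_le (by positivity) h4⟩
  intro x hx hxη hxZ
  by_cases hfar : Far p q r θ x.1 x.2
  · exact ⟨x.1, le_rfl, by have : 0 ≤ η * R := by positivity
                           linarith, hfar⟩
  have hx' := hx
  rw [Finset.mem_product, Finset.mem_range, Finset.mem_range] at hx'
  obtain ⟨hred, hcap⟩ := hT x hfar
  have hlevel : (x.1 : ℝ) * l + (x.2 : ℝ) * u < N := by
    have h1 : (x.1 : ℝ) < C := by exact_mod_cast hx'.1
    have h2 : (x.2 : ℝ) < R := by exact_mod_cast hx'.2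
    rw [hN]
    nlinarith
  have hin : InT l u (T x).2.1 (T x).2.2 (lev p q r θ N (T x)) x.1 x.2 :=
    (inT_iff hp hq hr).2 ⟨hlevel, hcap⟩
  have hsmall : size p q r θ N (T x) < η' * N := by
    by_contra hcon
    push Not at hcon
    refine hxZ (T x) ?_ hin
    rw [hZ, Finset.mem_filter]
    exact ⟨Finset.mem_image_of_mem _ (Finset.mem_filter.2 ⟨hx, hfar⟩), hcon⟩
  have hm : ((x.1 : ℝ) - (T x).2.1) * l < η * R * l / 2 := by
    have h1 : ((T x).2.2 : ℝ) ≤ x.2 := by exact_mod_cast hcap.2.1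
    have h2 := hin.2.2
    unfold size at hsmall
    rw [← hl_def, ← hu_def] at hsmall
    nlinarith
  have hm' : (x.1 : ℝ) - (T x).2.1 < η * R / 2 := by
    have : ((x.1 : ℝ) - (T x).2.1) * l < (η * R / 2) * l := by linarith
    exact lt_of_mul_lt_mul_right this hl.le
  have hm1 : 1 ≤ (T x).2.1 := by
    by_contra hcon
    have h0 : (T x).2.1 = 0 := by omega
    rw [h0] at hm'
    push_cast at hm'
    have : 0 < η * R := by positivity
    linarith
  have hcapm : Cap p q r θ (T x) (T x).2.1 x.2 := by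
    refine ⟨le_rfl, hcap.2.1, lt_of_le_of_lt ?_ hcap.2.2⟩
    have hp1 : (1 : ℝ) ≤ (p : ℝ) := by exact_mod_cast (by omega : 1 ≤ p)
    have hq0 : (0 : ℝ) < (q : ℝ) := by exact_mod_cast (by omega : 0 < q)
    apply mul_le_mul_of_nonneg_left _ (abs_nonneg _)
    apply mul_le_mul_of_nonneg_right _ (by positivity)
    exact pow_le_pow_right₀ hp1 hcap.1
  refine ⟨(T x).2.1 - 1, ?_, ?_, left_far hp hq hpq hr hrp hred hcapm hm1⟩
  · have := hcap.1; omega
  · rw [Nat.cast_sub hm1]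
    push_cast
    have h1 : 2 ≤ η * R := by
      rw [div_le_iff₀ hη] at hR3
      linarith
    linarith

/-! ### Shifts by integers and cells near the left side of the window -/

lemma dZ_add_int (x : ℝ) (k : ℤ) : dZ (x + k) = dZ x := by
  unfold dZ
  rw [round_add_intCast]
  push_cast
  congr 1
  ring

lemma far_shift (p q : ℕ) (r θ : ℝ) (k : ℤ) (i j : ℕ) :
    Far p q r (θ + k) i j ↔ Far p q r θ i j := by
  unfold Far
  have e : (θ + k) * (p : ℝ) ^ i * (q : ℝ) ^ j =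
      θ * (p : ℝ) ^ i * (q : ℝ) ^ j + ((k * (p : ℤ) ^ i * (q : ℤ) ^ j : ℤ) : ℝ) := by
    push_cast; ring
  rw [e, dZ_add_int]

lemma exists_shift (θ : ℝ) : ∃ k : ℤ, 1 ≤ θ + k ∧ θ + k < 2 := by
  refine ⟨1 - ⌊θ⌋, ?_, ?_⟩
  · push_cast
    have := Int.floor_le θ
    linarith
  · push_cast
    have := Int.lt_floor_add_one θ
    linarith

/-- few cells of the window are near its left side -/
lemma card_drop {C R : ℕ} {η : ℝ} (hη : 0 ≤ η) (S : Finset (ℕ × ℕ))
    (hS : S ⊆ range C ×ˢ range R) :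
    (S.card : ℝ) - (η * R + 1) * R ≤ ((S.filter (fun x => η * R ≤ (x.1 : ℝ))).card : ℝ) := by
  classical
  have h1 : (S.filter (fun x => η * R ≤ (x.1 : ℝ))).card +
      (S.filter (fun x => ¬ η * R ≤ (x.1 : ℝ))).card = S.card :=
    Finset.card_filter_add_card_filter_not _
  have h2 : S.filter (fun x => ¬ η * R ≤ (x.1 : ℝ)) ⊆ range ⌈η * R⌉₊ ×ˢ range R := by
    intro x hx
    rw [Finset.mem_filter] at hx
    have h3 := hS hx.1
    rw [Finset.mem_product, Finset.mem_range, Finset.mem_range] at h3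
    rw [Finset.mem_product, Finset.mem_range, Finset.mem_range]
    refine ⟨?_, h3.2⟩
    rw [Nat.lt_ceil]
    exact not_le.1 hx.2
  have h3 : ((S.filter (fun x => ¬ η * R ≤ (x.1 : ℝ))).card : ℝ) ≤ (η * R + 1) * R := by
    have h4 := Finset.card_le_card h2
    rw [Finset.card_product, Finset.card_range, Finset.card_range] at h4
    have h5 : ((S.filter (fun x => ¬ η * R ≤ (x.1 : ℝ))).card : ℝ) ≤ (⌈η * R⌉₊ : ℝ) * R := by
      exact_mod_cast h4
    refine h5.trans ?_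
    apply mul_le_mul_of_nonneg_right _ (Nat.cast_nonneg R)
    exact (Nat.ceil_lt_add_one (by positivity)).le
  have h4 : ((S.filter (fun x => η * R ≤ (x.1 : ℝ))).card : ℝ) +
      ((S.filter (fun x => ¬ η * R ≤ (x.1 : ℝ))).card : ℝ) = S.card := by exact_mod_cast h1
  linarith

end Pool.Agent.TH461.SST.Tri
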