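import Mathlib
import Pool.Agent.TH461.SST.Stms

/-!
SST-C2 (helper241): the cluster inequality from the subspace theorem.
-/

set_option autoImplicit false

open Finset Filter Topology

namespace Pool.Agent.TH461.SST.Cluster

open Pool.Agent.TH461.SST

/-! ### linear algebra -/

/-- restriction to a cobasis is surjective -/
theorem cob_surj {k : ℕ} {K : Submodule ℚ (Fin k → ℚ)} {B : Finset (Fin k)} (hB : Cob K B)
    (v : Fin k → ℚ) : ∃ c ∈ K, ∀ i ∈ B, c i = v i := by
  classical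
  let ρ : K →ₗ[ℚ] (B → ℚ) :=
    { toFun := fun c i => (c : Fin k → ℚ) i
      map_add' := fun c c' => by ext i; simp
      map_smul' := fun r c => by ext i; simp }
  have hinj : Function.Injective ρ := by
    rw [← LinearMap.ker_eq_bot, LinearMap.ker_eq_bot']
    intro c hc
    have h0 : (c : Fin k → ℚ) = 0 := by
      refine hB.2 c.1 c.2 fun i hi => ?_
      have := congrFun hc ⟨i, hi⟩
      simpa [ρ] using this
    exact Subtype.ext h0
  have hrk : Module.finrank ℚ K = Module.finrank ℚ (B → ℚ) := by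
    rw [Module.finrank_fintype_fun_eq_card, Fintype.card_coe, hB.1]
  have hsurj : Function.Surjective ρ :=
    (LinearMap.injective_iff_surjective_of_finrank_eq_finrank hrk).1 hinj
  obtain ⟨c, hc⟩ := hsurj fun i => v i
  refine ⟨c.1, c.2, fun i hi => ?_⟩
  have := congrFun hc ⟨i, hi⟩
  simpa [ρ] using this

/-- a vector orthogonal to `K` vanishing outside a cobasis vanishes -/
theorem cob_perp {k : ℕ} {K : Submodule ℚ (Fin k → ℚ)} {B : Finset (Fin k)} (hB : Cob K B)
    (z : Fin k → ℚ) (hz : ∀ c ∈ K, ∑ i, c i * z i = 0) (h0 : ∀ i, i ∉ B → z i = 0) : z = 0 := by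
  classical
  ext i
  by_cases hi : i ∈ B
  · obtain ⟨c, hc, hci⟩ := cob_surj hB (Pi.single i 1)
    have h1 := hz c hc
    rw [Finset.sum_eq_single i] at h1
    · rw [hci i hi, Pi.single_eq_same, one_mul] at h1
      simpa using h1
    · intro j _ hj
      by_cases hjB : j ∈ B
      · rw [hci j hjB, Pi.single_eq_of_ne hj, zero_mul]
      · rw [h0 j hjB, mul_zero]
    · intro h; exact absurd (Finset.mem_univ i) h
  · simpa using h0 i hi

/-- the parametrisation of the orthogonal space by the coordinates outside a cobasis -/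
theorem cob_param {k : ℕ} {K : Submodule ℚ (Fin k → ℚ)} {B : Finset (Fin k)} (hB : Cob K B) :
    ∃ α : Fin k → Fin k → ℚ,
      (∀ z : Fin k → ℚ, (∀ c ∈ K, ∑ i, c i * z i = 0) → ∀ i, z i = ∑ j ∈ Bᶜ, α i j * z j) ∧
      (∀ v : Fin k → ℚ, (∀ c ∈ K, ∑ i, c i * ∑ j ∈ Bᶜ, α i j * v j = 0) ∧
        ∀ i ∈ Bᶜ, ∑ j ∈ Bᶜ, α i j * v j = v i) := by
  classical
  have h1 : ∀ i : Fin k, ∃ c ∈ K, ∀ j ∈ B, c j = (Pi.single i 1 : Fin k → ℚ) j :=
    fun i => cob_surj hB _
  choose γ hγK hγ using h1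
  refine ⟨fun i j => (if i = j then 1 else 0) - γ i j, ?_, ?_⟩
  · intro z hz i
    have h2 := hz (γ i) (hγK i)
    rw [← Finset.sum_add_sum_compl B] at h2
    have h3 : ∑ j ∈ B, γ i j * z j = ∑ j ∈ B, (if i = j then 1 else 0) * z j := by
      refine Finset.sum_congr rfl fun j hj => ?_
      rw [hγ i j hj]
      by_cases hij : i = j
      · subst hij; simp
      · rw [Pi.single_eq_of_ne (Ne.symm hij), if_neg hij]
    have h4 : z i = ∑ j, (if i = j then 1 else 0) * z j := by simp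
    rw [← Finset.sum_add_sum_compl B] at h4
    have h5 : ∑ j ∈ Bᶜ, ((if i = j then 1 else 0) - γ i j) * z j =
        ∑ j ∈ Bᶜ, (if i = j then 1 else 0) * z j - ∑ j ∈ Bᶜ, γ i j * z j := by
      rw [← Finset.sum_sub_distrib]
      exact Finset.sum_congr rfl fun j _ => by ring
    rw [h5]
    rw [h3] at h2
    linarith
  · intro v
    constructor
    · intro c hc
      have h2 : c - ∑ i ∈ B, c i • γ i = 0 := by
        refine hB.2 _ ?_ ?_
        · exact K.sub_mem hc (K.sum_mem fun i _ => K.smul_mem _ (hγK i))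
        · intro j hj
          rw [Pi.sub_apply, Finset.sum_apply, Finset.sum_eq_single j]
          · rw [Pi.smul_apply, hγ j j hj, Pi.single_eq_same, smul_eq_mul, mul_one, sub_self]
          · intro i _ hij
            rw [Pi.smul_apply, hγ i j hj, Pi.single_eq_of_ne (Ne.symm hij), smul_zero]
          · intro h; exact absurd hj h
      have h3 : ∀ j, c j = ∑ i ∈ B, c i * γ i j := by
        intro j
        have := congrFun h2 j
        rw [Pi.sub_apply, Finset.sum_apply, Pi.zero_apply, sub_eq_zero] at this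
        simpa using this
      have h4 : ∀ i, i ∉ B → ∀ j, γ i j = 0 := by
        intro i hi j
        have : γ i = 0 := by
          refine hB.2 _ (hγK i) fun l hl => ?_
          rw [hγ i l hl, Pi.single_eq_of_ne]
          rintro rfl
          exact hi hl
        rw [this]; rfl
      have h5 : ∀ j, ∑ i, c i * γ i j = c j := by
        intro j
        rw [← Finset.sum_add_sum_compl B, ← h3 j,
          Finset.sum_eq_zero (s := Bᶜ) (fun i hi => by
            rw [h4 i (Finset.mem_compl.1 hi) j, mul_zero]), add_zero]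
      calc ∑ i, c i * ∑ j ∈ Bᶜ, ((if i = j then 1 else 0) - γ i j) * v j
          = ∑ i, ∑ j ∈ Bᶜ, (c i * (if i = j then 1 else 0) - c i * γ i j) * v j := by
            refine Finset.sum_congr rfl fun i _ => ?_
            rw [Finset.mul_sum]
            exact Finset.sum_congr rfl fun j _ => by ring
        _ = ∑ j ∈ Bᶜ, (∑ i, (c i * (if i = j then 1 else 0) - c i * γ i j)) * v j := by
            rw [Finset.sum_comm]
            exact Finset.sum_congr rfl fun j _ => by rw [Finset.sum_mul]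
        _ = 0 := by
            refine Finset.sum_eq_zero fun j _ => ?_
            rw [Finset.sum_sub_distrib, h5 j]
            simp
    · intro i hi
      have h4 : ∀ j, γ i j = 0 := by
        intro j
        have : γ i = 0 := by
          refine hB.2 _ (hγK i) fun l hl => ?_
          rw [hγ i l hl, Pi.single_eq_of_ne]
          rintro rfl
          exact (Finset.mem_compl.1 hi) hl
        rw [this]; rfl
      simp only [h4, sub_zero]
      rw [Finset.sum_eq_single i]
      · simp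
      · intro j _ hj; rw [if_neg (Ne.symm hj), zero_mul]
      · intro h; exact absurd hi h

/-- common denominators -/
theorem common_den {ι : Type*} [Fintype ι] (f : ι → ℚ) :
    ∃ F : ℕ, 0 < F ∧ ∃ g : ι → ℤ, ∀ i, (g i : ℚ) = F * f i := by
  classical
  refine ⟨∏ i, (f i).den, Finset.prod_pos fun i _ => (f i).den_pos,
    fun i => (f i).num * ∏ j ∈ Finset.univ.erase i, ((f j).den : ℤ), fun i => ?_⟩
  rw [← Finset.mul_prod_erase _ _ (Finset.mem_univ i)]
  push_cast
  have h := Rat.mul_den_eq_num (f i)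
  rw [← h]
  ring

/-! ### arithmetic of the approximants -/

/-- the approximants -/
def zz (p q : ℕ) {k : ℕ} (a : Fin k → ℤ) (m n : Fin k → ℕ) (i : Fin k) : ℚ :=
  (a i : ℚ) / ((p : ℚ) ^ (m i) * (q : ℚ) ^ (n i))

/-- the numerators for the common denominator `p ^ ms * q ^ ns` -/
def YY (p q : ℕ) {k : ℕ} (ms ns : ℕ) (a : Fin k → ℤ) (m n : Fin k → ℕ) (i : Fin k) : ℤ :=
  a i * (p : ℤ) ^ (ms - m i) * (q : ℤ) ^ (ns - n i)

theorem YY_eq {p q : ℕ} (hp : 2 ≤ p) (hq : 2 ≤ q) {k : ℕ} (ms ns : ℕ) (a : Fin k → ℤ)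
    (m n : Fin k → ℕ) (i : Fin k) (hm : m i ≤ ms) (hn : n i ≤ ns) :
    (YY p q ms ns a m n i : ℚ) = (p : ℚ) ^ ms * (q : ℚ) ^ ns * zz p q a m n i := by
  unfold YY zz
  have hp0 : (p : ℚ) ≠ 0 := by positivity
  have hq0 : (q : ℚ) ≠ 0 := by positivity
  have e1 : (p : ℚ) ^ ms = (p : ℚ) ^ (m i) * (p : ℚ) ^ (ms - m i) := by
    rw [← pow_add]; congr 1; omega
  have e2 : (q : ℚ) ^ ns = (q : ℚ) ^ (n i) * (q : ℚ) ^ (ns - n i) := by
    rw [← pow_add]; congr 1; omega
  rw [e1, e2]
  push_cast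
  field_simp

/-- a divisibility -/
theorem val_bound {p : ℕ} {a c : ℤ} {R : ℕ} (ha : a ≠ 0) (hc : c ≠ 0) (hR : c.natAbs < R)
    (hpa : ¬ (p : ℤ) ∣ a) (h : (p : ℤ) ^ R ∣ c * a) : False := by
  have hp0 : p ≠ 0 := by
    rintro rfl
    rcases Nat.eq_zero_or_pos R with h0 | h0
    · omega
    · rw [Nat.cast_zero, zero_pow h0.ne', zero_dvd_iff] at h
      exact (mul_ne_zero hc ha) h
  have h1 : ¬ p ∣ a.natAbs := by
    rwa [← Int.natCast_dvd]
  rw [← Nat.factorization_prime_le_iff_dvd hp0 (Int.natAbs_ne_zero.2 ha)] at h1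
  push Not at h1
  obtain ⟨l, hl, h2⟩ := h1
  have h3 : p ^ R ∣ c.natAbs * a.natAbs := by
    rw [← Int.natAbs_mul]
    have := Int.natAbs_dvd_natAbs.2 h
    rwa [Int.natAbs_pow, Int.natAbs_natCast] at this
  have hne : c.natAbs * a.natAbs ≠ 0 :=
    mul_ne_zero (Int.natAbs_ne_zero.2 hc) (Int.natAbs_ne_zero.2 ha)
  have h4 := (Nat.factorization_prime_le_iff_dvd (pow_ne_zero R hp0) hne).2 h3 l hl
  rw [Nat.factorization_pow, Nat.factorization_mul (Int.natAbs_ne_zero.2 hc)
    (Int.natAbs_ne_zero.2 ha)] at h4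
  simp only [Finsupp.coe_smul, Finsupp.coe_add, Pi.smul_apply, Pi.add_apply, smul_eq_mul] at h4
  have h5 : c.natAbs.factorization l < c.natAbs :=
    Nat.factorization_lt l (Int.natAbs_ne_zero.2 hc)
  have h6 : 1 ≤ p.factorization l := by omega
  obtain ⟨R', rfl⟩ : ∃ R', R = R' + 1 := ⟨R - 1, by omega⟩
  have h7 : R' ≤ R' * p.factorization l := Nat.le_mul_of_pos_right _ h6
  have h8 : (R' + 1) * p.factorization l = R' * p.factorization l + p.factorization l := by ring
  omega

theorem relation {p q : ℕ} (hp : 2 ≤ p) (hq : 2 ≤ q) (hpq : Nat.Coprime p q) {k : ℕ}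
    (a : Fin k → ℤ) (m n : Fin k → ℕ) (hcop : ∀ i, m i = 0 ∨ ¬ (p : ℤ) ∣ a i)
    (hpos : ∀ i, zz p q a m n i ≠ 0) (c : Fin k → ℤ) (hc : ∑ j, (c j : ℚ) * zz p q a m n j = 0)
    (i : Fin k) (hi : c i ≠ 0) : ∃ j, j ≠ i ∧ c j ≠ 0 ∧ m i < m j + ((c i).natAbs + 1) := by
  classical
  by_contra hcon
  push Not at hcon
  have hai : a i ≠ 0 := by
    intro h
    apply hpos i
    unfold zz
    rw [h]; simp
  rcases hcop i with h0 | h0
  · have h1 : ∀ j, j ≠ i → c j = 0 := by
      intro j hj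
      by_contra hcj
      have := hcon j hj hcj
      omega
    rw [Finset.sum_eq_single i] at hc
    · exact (mul_ne_zero (by exact_mod_cast hi) (hpos i)) hc
    · intro j _ hj
      rw [h1 j hj]; simp
    · intro h; exact absurd (Finset.mem_univ i) h
  · set R := (c i).natAbs + 1 with hR
    set ns : ℕ := ∑ j, n j with hns
    have hn : ∀ j, n j ≤ ns := fun j => Finset.single_le_sum (fun _ _ => Nat.zero_le _)
      (Finset.mem_univ j)
    have hsum : ∑ j, c j * YY p q (m i) ns a (fun j => min (m j) (m i)) n j = 0 := by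
      have h2 : ((∑ j, c j * YY p q (m i) ns a (fun j => min (m j) (m i)) n j : ℤ) : ℚ) = 0 := by
        push_cast
        rw [show (0 : ℚ) = (p : ℚ) ^ (m i) * (q : ℚ) ^ ns * 0 by ring, ← hc, Finset.mul_sum]
        refine Finset.sum_congr rfl fun j _ => ?_
        by_cases hcj : c j = 0
        · rw [hcj]; simp
        · have hmj : m j ≤ m i := by
            by_cases hji : j = i
            · rw [hji]
            · have := hcon j hji hcj
              omega
          rw [YY_eq hp hq (m i) ns a _ n j (min_le_right _ _) (hn j)]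
          unfold zz
          beta_reduce
          rw [min_eq_left hmj]
          ring
      exact_mod_cast h2
    rw [← Finset.add_sum_erase _ _ (Finset.mem_univ i)] at hsum
    have h3 : (p : ℤ) ^ R ∣ ∑ j ∈ Finset.univ.erase i,
        c j * YY p q (m i) ns a (fun j => min (m j) (m i)) n j := by
      refine Finset.dvd_sum fun j hj => ?_
      by_cases hcj : c j = 0
      · rw [hcj, zero_mul]; exact dvd_zero _
      · have hji : j ≠ i := (Finset.mem_erase.1 hj).1
        have h4 := hcon j hji hcj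
        unfold YY
        beta_reduce
        rw [min_eq_left (by omega)]
        have h5 : (p : ℤ) ^ R ∣ (p : ℤ) ^ (m i - m j) := pow_dvd_pow _ (by omega)
        exact (((h5.mul_left (a j)).mul_right _).mul_left _)
    have h6 : (p : ℤ) ^ R ∣ c i * YY p q (m i) ns a (fun j => min (m j) (m i)) n i := by
      have := (dvd_add_left h3).1 (by rw [hsum]; exact dvd_zero _)
      exact this
    unfold YY at h6
    beta_reduce at h6
    rw [min_self, Nat.sub_self, pow_zero, mul_one, ← mul_assoc] at h6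
    have h7 : IsCoprime ((p : ℤ) ^ R) ((q : ℤ) ^ (ns - n i)) :=
      (Nat.isCoprime_iff_coprime.2 hpq).pow
    have h8 := h7.dvd_of_dvd_mul_right h6
    exact val_bound hai hi (by omega) h0 h8

/-! ### the data of a counterexample -/

/-- a counterexample to the cluster inequality -/
structure Dat (p q : ℕ) {k : ℕ} (η N θ : ℝ) (a : Fin k → ℤ) (m n : Fin k → ℕ)
    (h : Fin k → ℝ) : Prop where
  N1 : 1 ≤ N
  θ1 : 1 ≤ θ
  θ2 : θ < 2
  cop : ∀ i, m i = 0 ∨ ¬ (p : ℤ) ∣ a i
  hN : ∀ i, h i ≤ N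
  app : ∀ i, |θ - (a i : ℝ) / ((p : ℝ) ^ (m i) * (q : ℝ) ^ (n i))| ≤ Real.exp (-(h i))
  lev : ∀ i, (m i : ℝ) * Real.log p + (n i : ℝ) * Real.log q + η * N ≤ h i
  ne : ∀ i j, i ≠ j → (a i : ℝ) / ((p : ℝ) ^ (m i) * (q : ℝ) ^ (n i)) ≠
    (a j : ℝ) / ((p : ℝ) ^ (m j) * (q : ℝ) ^ (n j))
  big : 2 * N < ∑ i, (h i - (m i : ℝ) * Real.log p - (n i : ℝ) * Real.log q)

theorem cast_zz (p q : ℕ) {k : ℕ} (a : Fin k → ℤ) (m n : Fin k → ℕ) (i : Fin k) :
    ((zz p q a m n i : ℚ) : ℝ) = (a i : ℝ) / ((p : ℝ) ^ (m i) * (q : ℝ) ^ (n i)) := by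
  unfold zz
  push_cast
  rfl

theorem log_nat_nonneg (p : ℕ) : 0 ≤ Real.log p := Real.log_natCast_nonneg p

section dat

variable {p q k : ℕ} {η N θ : ℝ} {a : Fin k → ℤ} {m n : Fin k → ℕ} {h : Fin k → ℝ}

theorem Dat.x_le (hD : Dat p q η N θ a m n h) (hη : 0 < η) (i : Fin k) :
    (m i : ℝ) * Real.log p ≤ N := by
  have h1 := hD.lev i
  have h2 := hD.hN i
  have h3 : 0 ≤ (n i : ℝ) * Real.log q := mul_nonneg (Nat.cast_nonneg _) (log_nat_nonneg q)
  have h4 : 0 ≤ η * N := mul_nonneg hη.le (by linarith [hD.N1])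
  linarith

theorem Dat.y_le (hD : Dat p q η N θ a m n h) (hη : 0 < η) (i : Fin k) :
    (n i : ℝ) * Real.log q ≤ N := by
  have h1 := hD.lev i
  have h2 := hD.hN i
  have h3 : 0 ≤ (m i : ℝ) * Real.log p := mul_nonneg (Nat.cast_nonneg _) (log_nat_nonneg p)
  have h4 : 0 ≤ η * N := mul_nonneg hη.le (by linarith [hD.N1])
  linarith

theorem Dat.h_pos (hD : Dat p q η N θ a m n h) (hη : 0 < η) (i : Fin k) : 0 < h i := by
  have h1 := hD.lev i
  have h3 : 0 ≤ (m i : ℝ) * Real.log p := mul_nonneg (Nat.cast_nonneg _) (log_nat_nonneg p)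
  have h5 : 0 ≤ (n i : ℝ) * Real.log q := mul_nonneg (Nat.cast_nonneg _) (log_nat_nonneg q)
  have h4 : 0 < η * N := mul_pos hη (by linarith [hD.N1])
  linarith

theorem Dat.z_pos (hD : Dat p q η N θ a m n h) (hη : 0 < η) (i : Fin k) :
    0 < ((zz p q a m n i : ℚ) : ℝ) ∧ ((zz p q a m n i : ℚ) : ℝ) ≤ 3 := by
  rw [cast_zz]
  have h1 := hD.app i
  have h2 : Real.exp (-(h i)) < 1 := by
    rw [Real.exp_lt_one_iff]
    linarith [hD.h_pos hη i]
  have h3 := abs_lt.1 (lt_of_le_of_lt h1 h2)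
  have h4 := hD.θ1
  have h5 := hD.θ2
  constructor <;> linarith [h3.1, h3.2]

theorem Dat.zz_ne (hD : Dat p q η N θ a m n h) (hη : 0 < η) (i : Fin k) :
    zz p q a m n i ≠ 0 := by
  have h1 := (hD.z_pos hη i).1
  intro h2
  rw [h2] at h1
  simp at h1

theorem pow_exp {p q : ℕ} (hp : 2 ≤ p) (hq : 2 ≤ q) (ms ns : ℕ) :
    (p : ℝ) ^ ms * (q : ℝ) ^ ns = Real.exp ((ms : ℝ) * Real.log p + (ns : ℝ) * Real.log q) := by
  have hp0 : (0 : ℝ) < p := by positivity
  have hq0 : (0 : ℝ) < q := by positivity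
  rw [Real.exp_add, mul_comm (ms : ℝ), mul_comm (ns : ℝ), Real.exp_mul, Real.exp_mul,
    Real.exp_log hp0, Real.exp_log hq0, Real.rpow_natCast, Real.rpow_natCast]

theorem YY_real {p q : ℕ} (hp : 2 ≤ p) (hq : 2 ≤ q) {k : ℕ} (ms ns : ℕ) (a : Fin k → ℤ)
    (m n : Fin k → ℕ) (i : Fin k) (hm : m i ≤ ms) (hn : n i ≤ ns) :
    (YY p q ms ns a m n i : ℝ) =
      Real.exp ((ms : ℝ) * Real.log p + (ns : ℝ) * Real.log q) *
        ((zz p q a m n i : ℚ) : ℝ) := by
  rw [← pow_exp hp hq]
  have h1 := YY_eq hp hq ms ns a m n i hm hn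
  have h2 : ((YY p q ms ns a m n i : ℚ) : ℝ) =
      (((p : ℚ) ^ ms * (q : ℚ) ^ ns * zz p q a m n i : ℚ) : ℝ) := by rw [h1]
  push_cast at h2
  exact h2

theorem Dat.dist_le (hD : Dat p q η N θ a m n h) (i j : Fin k) :
    |((zz p q a m n i : ℚ) : ℝ) - ((zz p q a m n j : ℚ) : ℝ)| ≤
      Real.exp (-(h i)) + Real.exp (-(h j)) := by
  rw [cast_zz, cast_zz]
  have h1 := hD.app i
  have h2 := hD.app j
  rw [abs_le] at h1 h2 ⊢
  constructor <;> linarith [h1.1, h1.2, h2.1, h2.2]

theorem Dat.pair (hD : Dat p q η N θ a m n h) (hp : 2 ≤ p) (hq : 2 ≤ q) (i j : Fin k)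
    (hij : i ≠ j) :
    min (h i) (h j) ≤ max ((m i : ℝ) * Real.log p) ((m j : ℝ) * Real.log p) +
      max ((n i : ℝ) * Real.log q) ((n j : ℝ) * Real.log q) + Real.log 2 := by
  rw [← max_mul_of_nonneg _ _ (log_nat_nonneg p), ← max_mul_of_nonneg _ _ (log_nat_nonneg q),
    ← Nat.cast_max, ← Nat.cast_max]
  set M := max (m i) (m j) with hM
  set M' := max (n i) (n j) with hM'
  have e1 := YY_real hp hq M M' a m n i (le_max_left _ _) (le_max_left _ _)
  have e2 := YY_real hp hq M M' a m n j (le_max_right _ _) (le_max_right _ _)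
  have hne : YY p q M M' a m n i ≠ YY p q M M' a m n j := by
    intro he
    rw [he, e2] at e1
    have h3 := mul_left_cancel₀ (Real.exp_pos _).ne' e1
    rw [cast_zz, cast_zz] at h3
    exact hD.ne j i (Ne.symm hij) h3
  have h1 : (1 : ℝ) ≤ |((YY p q M M' a m n i : ℤ) : ℝ) - ((YY p q M M' a m n j : ℤ) : ℝ)| := by
    have : (1 : ℤ) ≤ |YY p q M M' a m n i - YY p q M M' a m n j| :=
      Int.one_le_abs (sub_ne_zero.2 hne)
    exact_mod_cast this
  rw [e1, e2, ← mul_sub, abs_mul, abs_of_pos (Real.exp_pos _)] at h1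
  have h2 := hD.dist_le i j
  have h3 : Real.exp (-(h i)) + Real.exp (-(h j)) ≤ Real.exp (Real.log 2 - min (h i) (h j)) := by
    rw [Real.exp_sub, Real.exp_log two_pos, div_eq_mul_inv, ← Real.exp_neg]
    have h4 : Real.exp (-(h i)) ≤ Real.exp (-(min (h i) (h j))) :=
      Real.exp_le_exp.2 (neg_le_neg (min_le_left _ _))
    have h5 : Real.exp (-(h j)) ≤ Real.exp (-(min (h i) (h j))) :=
      Real.exp_le_exp.2 (neg_le_neg (min_le_right _ _))
    linarith
  have h6 : (1 : ℝ) ≤ Real.exp (((M : ℝ) * Real.log p + (M' : ℝ) * Real.log q) +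
      (Real.log 2 - min (h i) (h j))) := by
    rw [Real.exp_add]
    exact h1.trans (mul_le_mul_of_nonneg_left (h2.trans h3) (Real.exp_pos _).le)
  rw [Real.one_le_exp_iff] at h6
  linarith

end dat

/-! ### the matrices -/

theorem sum_emb {k d : ℕ} (B : Finset (Fin k)) (hB : B.card = d) (f : Fin k → ℝ) :
    ∑ l : Fin d, f (B.orderEmbOfFin hB l) = ∑ i ∈ B, f i := by
  have h : B = Finset.univ.map (B.orderEmbOfFin hB).toEmbedding := by
    ext i
    simp only [Finset.mem_map, Finset.mem_univ, true_and]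
    constructor
    · intro hi
      have : i ∈ Set.range (B.orderEmbOfFin hB) := by
        rw [Finset.range_orderEmbOfFin]; exact hi
      obtain ⟨l, hl⟩ := this
      exact ⟨l, hl⟩
    · rintro ⟨l, rfl⟩
      exact Finset.orderEmbOfFin_mem B hB l
  conv_rhs => rw [h, Finset.sum_map]
  rfl

theorem sum_embQ {k d : ℕ} (B : Finset (Fin k)) (hB : B.card = d) (f : Fin k → ℚ) :
    ∑ l : Fin d, f (B.orderEmbOfFin hB l) = ∑ i ∈ B, f i := by
  have h : B = Finset.univ.map (B.orderEmbOfFin hB).toEmbedding := by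
    ext i
    simp only [Finset.mem_map, Finset.mem_univ, true_and]
    constructor
    · intro hi
      have : i ∈ Set.range (B.orderEmbOfFin hB) := by
        rw [Finset.range_orderEmbOfFin]; exact hi
      obtain ⟨l, hl⟩ := this
      exact ⟨l, hl⟩
    · rintro ⟨l, rfl⟩
      exact Finset.orderEmbOfFin_mem B hB l
  conv_rhs => rw [h, Finset.sum_map]
  rfl

/-- extension of a vector on the complement of `B` by zero -/
noncomputable def ext0 {k d : ℕ} (J : Finset (Fin k)) (hJ : J.card = d) (v : Fin d → ℤ) : Fin k → ℚ :=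
  Function.extend (J.orderEmbOfFin hJ) (fun l => (v l : ℚ)) 0

theorem ext0_emb {k d : ℕ} (J : Finset (Fin k)) (hJ : J.card = d) (v : Fin d → ℤ) (l : Fin d) :
    ext0 J hJ v (J.orderEmbOfFin hJ l) = v l :=
  (J.orderEmbOfFin hJ).injective.extend_apply _ _ l

theorem ext0_not {k d : ℕ} (J : Finset (Fin k)) (hJ : J.card = d) (v : Fin d → ℤ) (i : Fin k)
    (hi : i ∉ J) : ext0 J hJ v i = 0 := by
  unfold ext0
  rw [Function.extend_apply']
  · rfl
  · rintro ⟨l, hl⟩
    exact hi (hl ▸ Finset.orderEmbOfFin_mem J hJ l)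

/-- the linear map given by the integral matrix is injective -/
theorem det_key {k d : ℕ} {K : Submodule ℚ (Fin k → ℚ)} {Bx B : Finset (Fin k)}
    (hB : Cob K B) (hJx : Bxᶜ.card = d) (hJ : Bᶜ.card = d)
    {α : Fin k → Fin k → ℚ}
    (hα : ∀ v : Fin k → ℚ, (∀ c ∈ K, ∑ i, c i * ∑ j ∈ Bxᶜ, α i j * v j = 0) ∧
        ∀ i ∈ Bxᶜ, ∑ j ∈ Bxᶜ, α i j * v j = v i)
    {F : ℕ} (hF : 0 < F) {β : Fin k → Fin k → ℤ} (hβ : ∀ i j, (β i j : ℚ) = F * α i j)
    (v : Fin d → ℤ)
    (hv : ∀ l : Fin d, ∑ j, β (Bᶜ.orderEmbOfFin hJ l) (Bxᶜ.orderEmbOfFin hJx j) * v j = 0) :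
    v = 0 := by
  obtain ⟨h1, h2⟩ := hα (ext0 Bxᶜ hJx v)
  have hF0 : (F : ℚ) ≠ 0 := by positivity
  have h3 : ∀ i, (F : ℚ) * ∑ j ∈ Bxᶜ, α i j * ext0 Bxᶜ hJx v j =
      ((∑ j, β i (Bxᶜ.orderEmbOfFin hJx j) * v j : ℤ) : ℚ) := by
    intro i
    rw [← sum_embQ Bxᶜ hJx, Finset.mul_sum]
    push_cast
    refine Finset.sum_congr rfl fun l _ => ?_
    rw [ext0_emb, hβ]
    ring
  have h4 : (fun i => ∑ j ∈ Bxᶜ, α i j * ext0 Bxᶜ hJx v j) = 0 := by
    refine cob_perp hB _ h1 ?_
    intro i hi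
    have hi' : i ∈ Bᶜ := Finset.mem_compl.2 hi
    have : i ∈ Set.range (Bᶜ.orderEmbOfFin hJ) := by
      rw [Finset.range_orderEmbOfFin]; exact hi'
    obtain ⟨l, rfl⟩ := this
    have h5 := h3 (Bᶜ.orderEmbOfFin hJ l)
    rw [hv l, Int.cast_zero] at h5
    rcases mul_eq_zero.1 h5 with h6 | h6
    · exact absurd h6 hF0
    · exact h6
  ext l
  have h5 := h2 (Bxᶜ.orderEmbOfFin hJx l) (Finset.orderEmbOfFin_mem _ hJx l)
  rw [ext0_emb] at h5
  have h6 := congrFun h4 (Bxᶜ.orderEmbOfFin hJx l)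
  simp only [Pi.zero_apply] at h6
  rw [h6] at h5
  have : (v l : ℚ) = 0 := h5.symm
  simpa using this

/-! ### the contradiction -/

theorem main_contra (hsub : SubspaceStmt) (hld : LDStmt) {p q : ℕ} (hp : 2 ≤ p) (hq : 2 ≤ q)
    (hpq : Nat.Coprime p q) (k : ℕ) (η : ℝ) (hη : 0 < η) (N θ : ℕ → ℝ) (a : ℕ → Fin k → ℤ)
    (m n : ℕ → Fin k → ℕ) (h : ℕ → Fin k → ℝ)
    (hD : ∀ t, Dat p q η (N t) (θ t) (a t) (m t) (n t) (h t)) (hN : Tendsto N atTop atTop)
    (ξ ζ χ : Fin k → ℝ)
    (hξ : ∀ i, Tendsto (fun t => (m t i : ℝ) * Real.log p / N t) atTop (𝓝 (ξ i)))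
    (hζ : ∀ i, Tendsto (fun t => (n t i : ℝ) * Real.log q / N t) atTop (𝓝 (ζ i)))
    (hχ : ∀ i, Tendsto (fun t => h t i / N t) atTop (𝓝 (χ i)))
    (K : Submodule ℚ (Fin k → ℚ))
    (hK : ∀ t, ∀ c ∈ K, ∑ i, c i * zz p q (a t) (m t) (n t) i = 0)
    (hmax : ∀ K' : Submodule ℚ (Fin k → ℚ), K < K' →
      ¬ ∃ᶠ t in atTop, ∀ c ∈ K', ∑ i, c i * zz p q (a t) (m t) (n t) i = 0) : False := by
  classical
  have hNpos : ∀ t, 0 < N t := fun t => lt_of_lt_of_le one_pos (hD t).N1
  -- limits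
  have hlt : ∀ i, ξ i + ζ i < χ i := by
    intro i
    have h1 : Tendsto (fun t => (m t i : ℝ) * Real.log p / N t + (n t i : ℝ) * Real.log q / N t + η)
        atTop (𝓝 (ξ i + ζ i + η)) := ((hξ i).add (hζ i)).add_const η
    have h2 : ξ i + ζ i + η ≤ χ i := by
      refine le_of_tendsto_of_tendsto' h1 (hχ i) fun t => ?_
      have h3 := (hD t).lev i
      have h4 := hNpos t
      rw [← add_div, le_div_iff₀ h4, add_mul, div_mul_cancel₀ _ h4.ne']
      exact h3
    linarith
  have hχ1 : ∀ i, χ i ≤ 1 := by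
    intro i
    refine le_of_tendsto' (hχ i) fun t => ?_
    rw [div_le_one (hNpos t)]
    exact (hD t).hN i
  have hmin : ∀ i j, i ≠ j → min (χ i) (χ j) ≤ max (ξ i) (ξ j) + max (ζ i) (ζ j) := by
    intro i j hij
    have h1 : Tendsto (fun t => min (h t i / N t) (h t j / N t)) atTop (𝓝 (min (χ i) (χ j))) :=
      (hχ i).min (hχ j)
    have h0 : Tendsto (fun t => Real.log 2 / N t) atTop (𝓝 0) := hN.const_div_atTop _
    have h2 : Tendsto (fun t => max ((m t i : ℝ) * Real.log p / N t)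
        ((m t j : ℝ) * Real.log p / N t) + max ((n t i : ℝ) * Real.log q / N t)
        ((n t j : ℝ) * Real.log q / N t) + Real.log 2 / N t) atTop
        (𝓝 (max (ξ i) (ξ j) + max (ζ i) (ζ j) + 0)) :=
      (((hξ i).max (hξ j)).add ((hζ i).max (hζ j))).add h0
    rw [add_zero] at h2
    refine le_of_tendsto_of_tendsto' h1 h2 fun t => ?_
    have h3 := (hD t).pair hp hq i j hij
    have h4 := hNpos t
    rw [max_div_div_right h4.le, max_div_div_right h4.le, min_div_div_right h4.le, ← add_div,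
      ← add_div]
    exact div_le_div_of_nonneg_right h3 h4.le
  -- relations
  have hrel : ∀ c ∈ K, ∀ i, c i ≠ 0 → ∃ j, j ≠ i ∧ c j ≠ 0 ∧ ξ i ≤ ξ j := by
    intro c hc i hci
    obtain ⟨F, hF, g, hg⟩ := common_den c
    have hF0 : (F : ℚ) ≠ 0 := by positivity
    have hg0 : ∀ j, g j ≠ 0 ↔ c j ≠ 0 := by
      intro j
      rw [← Int.cast_ne_zero (α := ℚ), hg j]
      simp [hF0]
    have h1 : ∀ t, ∃ j, j ≠ i ∧ c j ≠ 0 ∧ m t i < m t j + ((g i).natAbs + 1) := by
      intro t
      obtain ⟨j, hj1, hj2, hj3⟩ := relation hp hq hpq (a t) (m t) (n t) (hD t).cop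
        (fun i => (hD t).zz_ne hη i) g (by
          have := hK t c hc
          calc ∑ j, (g j : ℚ) * zz p q (a t) (m t) (n t) j
              = F * ∑ j, c j * zz p q (a t) (m t) (n t) j := by
                rw [Finset.mul_sum]
                exact Finset.sum_congr rfl fun j _ => by rw [hg]; ring
            _ = 0 := by rw [this, mul_zero]) i ((hg0 i).2 hci)
      exact ⟨j, hj1, (hg0 j).1 hj2, hj3⟩
    have h2 : ∃ j, j ≠ i ∧ c j ≠ 0 ∧ ∃ᶠ t in atTop, m t i < m t j + ((g i).natAbs + 1) := by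
      by_contra hcon
      push Not at hcon
      have h3 : ∀ᶠ t in atTop, ∀ j, j ≠ i → c j ≠ 0 → m t j + ((g i).natAbs + 1) ≤ m t i := by
        refine eventually_all.2 fun j => ?_
        by_cases hj1 : j ≠ i
        · by_cases hj2 : c j ≠ 0
          · have h4 := hcon j hj1 hj2
            filter_upwards [h4] with t ht _ _
            omega
          · exact Eventually.of_forall fun t _ h => absurd h hj2
        · exact Eventually.of_forall fun t h => absurd h hj1
      obtain ⟨t, ht⟩ := h3.exists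
      obtain ⟨j, hj1, hj2, hj3⟩ := h1 t
      have := ht j hj1 hj2
      omega
    obtain ⟨j, hj1, hj2, hj3⟩ := h2
    refine ⟨j, hj1, hj2, ?_⟩
    have h5 : Tendsto (fun t => (m t i : ℝ) * Real.log p / N t - (m t j : ℝ) * Real.log p / N t -
        (((g i).natAbs + 1 : ℕ) : ℝ) * Real.log p / N t) atTop (𝓝 (ξ i - ξ j - 0)) :=
      ((hξ i).sub (hξ j)).sub (hN.const_div_atTop _)
    have h6 : ξ i - ξ j - 0 ≤ 0 := by
      refine le_of_tendsto_of_frequently h5 (hj3.mono fun t ht => ?_)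
      rw [← sub_div, ← sub_div]
      apply div_nonpos_of_nonpos_of_nonneg _ (hNpos t).le
      have h7 : (m t i : ℝ) ≤ m t j + (((g i).natAbs + 1 : ℕ) : ℝ) := by
        exact_mod_cast ht.le
      have h8 := mul_le_mul_of_nonneg_right h7 (log_nat_nonneg p)
      linarith
    linarith
  obtain ⟨Bh, Bx, By, hBh, hBx, hBy, hsum⟩ := hld k K ξ ζ χ hlt hmin hrel
  -- the total
  have htot : 2 ≤ ∑ i, (χ i - ξ i - ζ i) := by
    have h1 : Tendsto (fun t => ∑ i, (h t i / N t - (m t i : ℝ) * Real.log p / N t -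
        (n t i : ℝ) * Real.log q / N t)) atTop (𝓝 (∑ i, (χ i - ξ i - ζ i))) :=
      tendsto_finsetSum _ fun i _ => ((hχ i).sub (hξ i)).sub (hζ i)
    refine ge_of_tendsto' h1 fun t => ?_
    have h2 := (hD t).big
    have h3 : ∑ i, (h t i / N t - (m t i : ℝ) * Real.log p / N t -
        (n t i : ℝ) * Real.log q / N t) =
        (∑ i, (h t i - (m t i : ℝ) * Real.log p - (n t i : ℝ) * Real.log q)) / N t := by
      rw [Finset.sum_div]
      exact Finset.sum_congr rfl fun i _ => by rw [sub_div, sub_div]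
    rw [h3, le_div_iff₀ (hNpos t)]
    exact h2.le
  obtain ⟨d, hd⟩ : ∃ d, d = k - Module.finrank ℚ K := ⟨_, rfl⟩
  have hcard : ∀ B : Finset (Fin k), Cob K B → Bᶜ.card = d := by
    intro B hB
    rw [Finset.card_compl, Fintype.card_fin, hB.1, hd]
  have hJh := hcard Bh hBh
  have hJx := hcard Bx hBx
  have hJy := hcard By hBy
  have hgap : ∑ i ∈ Bxᶜ, ξ i + ∑ i ∈ Byᶜ, ζ i + 2 ≤ ∑ i ∈ Bhᶜ, χ i := by
    rw [Finset.sum_sub_distrib, Finset.sum_sub_distrib, ← Finset.sum_add_sum_compl Bh χ,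
      ← Finset.sum_add_sum_compl Bx ξ, ← Finset.sum_add_sum_compl By ζ] at htot
    linarith
  have hdpos : 1 ≤ d := by
    by_contra hd0
    have hd0' : d = 0 := by omega
    rw [hd0', Finset.card_eq_zero] at hJh hJx hJy
    rw [hJh, hJx, hJy] at hgap
    simp at hgap
    linarith
  have hkpos : 1 ≤ k := by omega
  have hdk : d ≤ k := by omega
  obtain ⟨i0, hi0, hi0max⟩ := Finset.exists_max_image Bhᶜ χ
    (Finset.card_pos.1 (by rw [hJh]; omega))
  obtain ⟨l0, hl0⟩ : ∃ l0, Bhᶜ.orderEmbOfFin hJh l0 = i0 := by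
    have : i0 ∈ Set.range (Bhᶜ.orderEmbOfFin hJh) := by
      rw [Finset.range_orderEmbOfFin]; exact hi0
    exact this
  obtain ⟨α, hα1, hα2⟩ := cob_param hBx
  obtain ⟨F, hF, g, hg⟩ := common_den (fun ij : Fin k × Fin k => α ij.1 ij.2)
  obtain ⟨β, hβ⟩ : ∃ β : Fin k → Fin k → ℤ, ∀ i j, (β i j : ℚ) = F * α i j :=
    ⟨fun i j => g (i, j), fun i j => hg (i, j)⟩
  set ih := Bhᶜ.orderEmbOfFin hJh with hih
  set ix := Bxᶜ.orderEmbOfFin hJx with hix
  set iy := Byᶜ.orderEmbOfFin hJy with hiy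
  -- the matrices
  let M0 : Matrix (Fin d) (Fin d) ℤ := fun l j =>
    if l = l0 then β i0 (ix j) else β (ih l) (ix j) - β i0 (ix j)
  let M1 : Matrix (Fin d) (Fin d) ℤ := 1
  let M2 : Matrix (Fin d) (Fin d) ℤ := fun l j => β (iy l) (ix j)
  have hdet0 : M0.det ≠ 0 := by
    intro hdet
    obtain ⟨v, hv, hv0⟩ := Matrix.exists_mulVec_eq_zero_iff.2 hdet
    apply hv
    refine det_key hBh hJx hJh hα2 hF hβ v fun l => ?_
    have e0 : ∑ j, β i0 (ix j) * v j = 0 := by
      have := congrFun hv0 l0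
      simpa [Matrix.mulVec, dotProduct, M0] using this
    by_cases hl : l = l0
    · rw [hl, hl0]; exact e0
    · have := congrFun hv0 l
      simp only [Matrix.mulVec, dotProduct, M0, if_neg hl, Pi.zero_apply, sub_mul,
        Finset.sum_sub_distrib] at this
      rw [e0, sub_zero] at this
      exact this
  have hdet2 : M2.det ≠ 0 := by
    intro hdet
    obtain ⟨v, hv, hv0⟩ := Matrix.exists_mulVec_eq_zero_iff.2 hdet
    apply hv
    refine det_key hBy hJx hJy hα2 hF hβ v fun l => ?_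
    have := congrFun hv0 l
    simpa [Matrix.mulVec, dotProduct, M2] using this
  have hplaces : Places M0 ![M1, M2] ![p, q] := by
    refine ⟨hdet0, ?_, ?_, ?_⟩
    · intro v
      fin_cases v
      · show M1.det ≠ 0
        simp [M1]
      · exact hdet2
    · intro v
      fin_cases v
      · exact hp
      · exact hq
    · intro v v' hvv
      fin_cases v <;> fin_cases v'
      · exact absurd rfl hvv
      · exact hpq
      · exact hpq.symm
      · exact absurd rfl hvv
  -- the sizes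
  set ms : ℕ → ℕ := fun t => Finset.univ.sup (m t) with hms
  set ns : ℕ → ℕ := fun t => Finset.univ.sup (n t) with hns
  have hmle : ∀ t i, m t i ≤ ms t := fun t i => Finset.le_sup (f := m t) (Finset.mem_univ i)
  have hnle : ∀ t i, n t i ≤ ns t := fun t i => Finset.le_sup (f := n t) (Finset.mem_univ i)
  have hmsN : ∀ t, (ms t : ℝ) * Real.log p ≤ N t := by
    intro t
    obtain ⟨i, _, hi⟩ := Finset.exists_mem_eq_sup (Finset.univ : Finset (Fin k))
      ⟨i0, Finset.mem_univ _⟩ (m t)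
    have : ms t = m t i := hi
    rw [this]
    exact (hD t).x_le hη i
  have hnsN : ∀ t, (ns t : ℝ) * Real.log q ≤ N t := by
    intro t
    obtain ⟨i, _, hi⟩ := Finset.exists_mem_eq_sup (Finset.univ : Finset (Fin k))
      ⟨i0, Finset.mem_univ _⟩ (n t)
    have : ns t = n t i := hi
    rw [this]
    exact (hD t).y_le hη i
  set LD : ℕ → ℝ := fun t => (ms t : ℝ) * Real.log p + (ns t : ℝ) * Real.log q with hLD
  have hLD0 : ∀ t, 0 ≤ LD t := fun t =>
    add_nonneg (mul_nonneg (Nat.cast_nonneg _) (log_nat_nonneg p))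
      (mul_nonneg (Nat.cast_nonneg _) (log_nat_nonneg q))
  have hLD2 : ∀ t, LD t ≤ 2 * N t := fun t => by
    have := hmsN t
    have := hnsN t
    simp only [hLD]
    linarith
  have hF1 : (1 : ℝ) ≤ F := by exact_mod_cast hF
  have hk1 : (1 : ℝ) ≤ k := by exact_mod_cast hkpos
  set G : ℝ := Real.log (3 * F) with hG
  have hG0 : 0 ≤ G := Real.log_nonneg (by linarith)
  have hG2 : Real.log (2 * F) ≤ G := Real.log_le_log (by positivity) (by linarith)
  have hG20 : 0 ≤ Real.log (2 * F) := Real.log_nonneg (by linarith)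
  set A : ℕ → Fin d → ℝ := fun t l => if l = l0 then 3 * F * Real.exp (LD t) else
    2 * F * Real.exp (LD t - h t (ih l) + N t / (8 * k)) with hA
  have hApos : ∀ t l, 0 < A t l := by
    intro t l
    simp only [hA]
    split_ifs <;> positivity
  have hlogA : ∀ t l, Real.log (A t l) = if l = l0 then G + LD t else
      Real.log (2 * F) + (LD t - h t (ih l) + N t / (8 * k)) := by
    intro t l
    simp only [hA]
    split_ifs
    · rw [Real.log_mul (by positivity) (Real.exp_pos _).ne', Real.log_exp]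
    · rw [Real.log_mul (by positivity) (Real.exp_pos _).ne', Real.log_exp]
  set e : ℕ → Fin 2 → Fin d → ℕ := fun t => ![fun l => ms t - m t (ix l),
    fun l => ns t - n t (iy l)] with he
  -- eventually
  have hev1 : ∀ᶠ t in atTop, ∀ l, h t (ih l) ≤ h t i0 + N t / (8 * k) := by
    refine eventually_all.2 fun l => ?_
    have h1 : Tendsto (fun t => h t (ih l) / N t - h t i0 / N t) atTop
        (𝓝 (χ (ih l) - χ i0)) := (hχ _).sub (hχ _)
    have h2 : χ (ih l) - χ i0 < 1 / (8 * k) := by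
      have h3 := hi0max (ih l) (Finset.orderEmbOfFin_mem _ hJh l)
      have h4 : (0 : ℝ) < 1 / (8 * k) := by positivity
      linarith
    filter_upwards [h1.eventually_lt_const h2] with t ht
    rw [← sub_div, div_lt_iff₀ (hNpos t)] at ht
    have h5 : N t / (8 * k) = 1 / (8 * k) * N t := by ring
    rw [h5]
    linarith
  have hev2 : ∀ᶠ t in atTop, d * G + h t i0 - ∑ l, h t (ih l) +
      ∑ l, (m t (ix l) : ℝ) * Real.log p + ∑ l, (n t (iy l) : ℝ) * Real.log q ≤
        -(5 / 8) * N t := by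
    have h1 : Tendsto (fun t => d * G / N t + h t i0 / N t - ∑ l, h t (ih l) / N t +
        ∑ l, (m t (ix l) : ℝ) * Real.log p / N t + ∑ l, (n t (iy l) : ℝ) * Real.log q / N t)
        atTop (𝓝 (0 + χ i0 - ∑ l, χ (ih l) + ∑ l, ξ (ix l) + ∑ l, ζ (iy l))) :=
      ((((hN.const_div_atTop _).add (hχ i0)).sub (tendsto_finsetSum _ fun l _ => hχ (ih l))).add
        (tendsto_finsetSum _ fun l _ => hξ (ix l))).add
        (tendsto_finsetSum _ fun l _ => hζ (iy l))
    have h2 : 0 + χ i0 - ∑ l, χ (ih l) + ∑ l, ξ (ix l) + ∑ l, ζ (iy l) < -(5 / 8) := by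
      rw [hih, hix, hiy, sum_emb Bhᶜ hJh χ, sum_emb Bxᶜ hJx ξ, sum_emb Byᶜ hJy ζ]
      have := hχ1 i0
      linarith
    filter_upwards [h1.eventually_lt_const h2] with t ht
    have h3 := hNpos t
    rw [← Finset.sum_div, ← Finset.sum_div, ← Finset.sum_div, ← add_div, ← sub_div, ← add_div,
      ← add_div, div_lt_iff₀ h3] at ht
    exact ht.le
  have hev3 : ∀ᶠ t in atTop, G ≤ N t := hN.eventually_ge_atTop G
  obtain ⟨T, hT⟩ := eventually_atTop.1 (hev1.and (hev2.and hev3))
  have hsize : ∀ t, T ≤ t → Size ![p, q] 4 (1 / 2) (N t) (e t) (A t) := by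
    intro t ht
    obtain ⟨h1, h2, h3⟩ := hT t ht
    have hNt := hNpos t
    have hN8 : 0 ≤ N t / (8 * k) := by positivity
    have hN8' : N t / (8 * k) ≤ N t := by
      apply div_le_self hNt.le
      linarith
    refine ⟨?_, hApos t, ?_, ?_⟩
    · intro v l
      fin_cases v
      · show ((ms t - m t (ix l) : ℕ) : ℝ) * Real.log p ≤ 4 * N t
        have h4 : ((ms t - m t (ix l) : ℕ) : ℝ) ≤ ms t := by exact_mod_cast Nat.sub_le _ _
        have h5 := mul_le_mul_of_nonneg_right h4 (log_nat_nonneg p)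
        have := hmsN t
        linarith
      · show ((ns t - n t (iy l) : ℕ) : ℝ) * Real.log q ≤ 4 * N t
        have h4 : ((ns t - n t (iy l) : ℕ) : ℝ) ≤ ns t := by exact_mod_cast Nat.sub_le _ _
        have h5 := mul_le_mul_of_nonneg_right h4 (log_nat_nonneg q)
        have := hnsN t
        linarith
    · intro l
      rw [hlogA, abs_le]
      have h4 := hLD0 t
      have h5 := hLD2 t
      have h6 := (hD t).h_pos hη (ih l)
      have h7 := (hD t).hN (ih l)
      split_ifs
      · constructor <;> linarith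
      · constructor <;> linarith
    · have h4 : ∑ l, Real.log (A t l) ≤ ∑ l, (LD t + G + N t / (8 * k) - h t (ih l)) +
          h t i0 := by
        have h5 : ∀ l, Real.log (A t l) ≤ (LD t + G + N t / (8 * k) - h t (ih l)) +
            (if l = l0 then h t i0 else 0) := by
          intro l
          rw [hlogA]
          split_ifs with hl
          · rw [hl, hl0]; linarith
          · linarith
        refine (Finset.sum_le_sum fun l _ => h5 l).trans ?_
        rw [Finset.sum_add_distrib]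
        simp
      have h6 : ∑ v, ∑ l, (e t v l : ℝ) * Real.log ((![p, q] : Fin 2 → ℕ) v) =
          d * LD t - ∑ l, (m t (ix l) : ℝ) * Real.log p -
            ∑ l, (n t (iy l) : ℝ) * Real.log q := by
        rw [Fin.sum_univ_two]
        show ∑ l, ((ms t - m t (ix l) : ℕ) : ℝ) * Real.log p +
          ∑ l, ((ns t - n t (iy l) : ℕ) : ℝ) * Real.log q = _
        have h7 : ∀ l, ((ms t - m t (ix l) : ℕ) : ℝ) * Real.log p =
            ms t * Real.log p - m t (ix l) * Real.log p := by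
          intro l
          rw [Nat.cast_sub (hmle t _), sub_mul]
        have h8 : ∀ l, ((ns t - n t (iy l) : ℕ) : ℝ) * Real.log q =
            ns t * Real.log q - n t (iy l) * Real.log q := by
          intro l
          rw [Nat.cast_sub (hnle t _), sub_mul]
        rw [Finset.sum_congr rfl fun l _ => h7 l, Finset.sum_congr rfl fun l _ => h8 l,
          Finset.sum_sub_distrib, Finset.sum_sub_distrib]
        simp only [Finset.sum_const, Finset.card_univ, Fintype.card_fin, nsmul_eq_mul, hLD]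
        ring
      rw [h6]
      have h9 : ∑ l, (LD t + G + N t / (8 * k) - h t (ih l)) =
          d * LD t + d * G + d * (N t / (8 * k)) - ∑ l, h t (ih l) := by
        rw [Finset.sum_sub_distrib]
        simp only [Finset.sum_const, Finset.card_univ, Fintype.card_fin, nsmul_eq_mul]
        ring
      rw [h9] at h4
      have h10 : d * (N t / (8 * k)) ≤ N t / 8 := by
        have h11 : (d : ℝ) ≤ k := by exact_mod_cast hdk
        have h12 : (d : ℝ) * (N t / (8 * k)) ≤ k * (N t / (8 * k)) :=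
          mul_le_mul_of_nonneg_right h11 hN8
        have h13 : (k : ℝ) * (N t / (8 * k)) = N t / 8 := by
          field_simp
        linarith
      linarith
  -- the solutions
  set X : ℕ → Fin k → ℤ := fun t => YY p q (ms t) (ns t) (a t) (m t) (n t) with hX
  have hXreal : ∀ t i, (X t i : ℝ) = Real.exp (LD t) *
      ((zz p q (a t) (m t) (n t) i : ℚ) : ℝ) := fun t i =>
    YY_real hp hq (ms t) (ns t) (a t) (m t) (n t) i (hmle t i) (hnle t i)
  have hXrat : ∀ t i, (X t i : ℚ) = (p : ℚ) ^ (ms t) * (q : ℚ) ^ (ns t) *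
      zz p q (a t) (m t) (n t) i := fun t i =>
    YY_eq hp hq (ms t) (ns t) (a t) (m t) (n t) i (hmle t i) (hnle t i)
  have hlin : ∀ t i, ∑ j, β i (ix j) * X t (ix j) = F * X t i := by
    intro t i
    have h1 : ((∑ j, β i (ix j) * X t (ix j) : ℤ) : ℚ) = ((F * X t i : ℤ) : ℚ) := by
      push_cast
      have h2 := hα1 _ (hK t) i
      rw [hXrat, h2]
      rw [← sum_embQ Bxᶜ hJx, ← hix, Finset.mul_sum, Finset.mul_sum]
      refine Finset.sum_congr rfl fun j _ => ?_
      rw [hXrat, hβ]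
      ring
    exact_mod_cast h1
  have hXne : ∀ t, (fun l => X t (ix l)) ≠ 0 := by
    intro t h0
    have h1 := congrFun h0 ⟨0, by omega⟩
    simp only [Pi.zero_apply] at h1
    have h2 := hXreal t (ix ⟨0, by omega⟩)
    rw [h1, Int.cast_zero] at h2
    rcases mul_eq_zero.1 h2.symm with h3 | h3
    · exact (Real.exp_pos _).ne' h3
    · exact ((hD t).z_pos hη _).1.ne' h3
  have hsol : ∀ t, T ≤ t → Sol M0 ![M1, M2] ![p, q] (e t) (A t) (fun l => X t (ix l)) := by
    intro t ht
    obtain ⟨h1, h2, h3⟩ := hT t ht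
    constructor
    · intro l
      by_cases hl : l = l0
      · have h4 : ∑ j, M0 l j * X t (ix j) = F * X t i0 := by
          rw [← hlin t i0]
          simp only [M0, if_pos hl]
        rw [h4]
        push_cast
        rw [hXreal]
        have h5 := (hD t).z_pos hη i0
        simp only [hA, if_pos hl]
        rw [abs_mul, abs_mul, abs_of_pos (Real.exp_pos _), abs_of_pos h5.1, abs_of_nonneg
          (by linarith : (0 : ℝ) ≤ F)]
        have h6 : (0 : ℝ) ≤ F * Real.exp (LD t) := by positivity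
        nlinarith [h5.2]
      · have h4 : ∑ j, M0 l j * X t (ix j) = F * (X t (ih l) - X t i0) := by
          rw [mul_sub, ← hlin t i0, ← hlin t (ih l), ← Finset.sum_sub_distrib]
          refine Finset.sum_congr rfl fun j _ => ?_
          simp only [M0, if_neg hl]
          ring
        rw [h4]
        push_cast
        rw [hXreal, hXreal, ← mul_sub, abs_mul, abs_mul, abs_of_pos (Real.exp_pos _),
          abs_of_nonneg (by linarith : (0 : ℝ) ≤ F)]
        have h5 := (hD t).dist_le (ih l) i0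
        have h6 : Real.exp (-(h t (ih l))) ≤ Real.exp (-h t (ih l) + N t / (8 * k)) := by
          apply Real.exp_le_exp.2
          have : 0 ≤ N t / (8 * k) := by have := hNpos t; positivity
          linarith
        have h7 : Real.exp (-(h t i0)) ≤ Real.exp (-h t (ih l) + N t / (8 * k)) := by
          apply Real.exp_le_exp.2
          have := h1 l
          linarith
        simp only [hA, if_neg hl]
        have h8 : Real.exp (LD t - h t (ih l) + N t / (8 * k)) =
            Real.exp (LD t) * Real.exp (-h t (ih l) + N t / (8 * k)) := by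
          rw [← Real.exp_add]; congr 1; ring
        rw [h8]
        have h9 : |((zz p q (a t) (m t) (n t) (ih l) : ℚ) : ℝ) -
            ((zz p q (a t) (m t) (n t) i0 : ℚ) : ℝ)| ≤
            2 * Real.exp (-h t (ih l) + N t / (8 * k)) := by linarith
        have h10 : (0 : ℝ) ≤ F * Real.exp (LD t) := by positivity
        calc (F : ℝ) * (Real.exp (LD t) * |((zz p q (a t) (m t) (n t) (ih l) : ℚ) : ℝ) -
            ((zz p q (a t) (m t) (n t) i0 : ℚ) : ℝ)|)
            = (F * Real.exp (LD t)) * |((zz p q (a t) (m t) (n t) (ih l) : ℚ) : ℝ) -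
            ((zz p q (a t) (m t) (n t) i0 : ℚ) : ℝ)| := by ring
          _ ≤ (F * Real.exp (LD t)) * (2 * Real.exp (-h t (ih l) + N t / (8 * k))) :=
            mul_le_mul_of_nonneg_left h9 h10
          _ = _ := by ring
    · intro v l
      fin_cases v
      · show (p : ℤ) ^ (ms t - m t (ix l)) ∣ ∑ j, (1 : Matrix (Fin d) (Fin d) ℤ) l j * X t (ix j)
        rw [Finset.sum_eq_single l]
        · rw [Matrix.one_apply_eq, one_mul]
          show _ ∣ a t (ix l) * (p : ℤ) ^ (ms t - m t (ix l)) * (q : ℤ) ^ (ns t - n t (ix l))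
          exact (Dvd.intro_left _ rfl).mul_right _
        · intro j _ hj
          rw [Matrix.one_apply_ne (Ne.symm hj), zero_mul]
        · intro h; exact absurd (Finset.mem_univ l) h
      · show (q : ℤ) ^ (ns t - n t (iy l)) ∣ ∑ j, β (iy l) (ix j) * X t (ix j)
        rw [hlin]
        show _ ∣ (F : ℤ) * (a t (iy l) * (p : ℤ) ^ (ms t - m t (iy l)) *
          (q : ℤ) ^ (ns t - n t (iy l)))
        exact (Dvd.intro_left _ rfl).mul_left _
  obtain ⟨y, hy0, hy⟩ := hsub d 2 hdpos M0 ![M1, M2] ![p, q] hplaces 4 (1 / 2) (by norm_num)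
    (by norm_num) (fun t => N (t + T)) (hN.comp (tendsto_add_atTop_nat T))
    (fun t => e (t + T)) (fun t => A (t + T)) (fun t => hsize (t + T) (Nat.le_add_left _ _))
    (fun t l => X (t + T) (ix l)) (fun t => hXne (t + T))
    (fun t => hsol (t + T) (Nat.le_add_left _ _))
  -- the new relation
  set c : Fin k → ℚ := ext0 Bxᶜ hJx y with hc
  have hcK : c ∉ K := by
    intro hcK
    have h1 : c = 0 := by
      refine hBx.2 c hcK fun i hi => ?_
      exact ext0_not Bxᶜ hJx y i (by simpa using hi)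
    apply hy0
    ext l
    have h2 := ext0_emb Bxᶜ hJx y l
    rw [← hc, h1, Pi.zero_apply] at h2
    have : (y l : ℚ) = 0 := h2.symm
    simpa using this
  have hlt' : K < K ⊔ Submodule.span ℚ {c} := by
    refine lt_of_le_of_ne le_sup_left fun heq => hcK ?_
    rw [heq]
    exact Submodule.mem_sup_right (Submodule.mem_span_singleton_self c)
  apply hmax _ hlt'
  have hy' : ∃ᶠ t in atTop, ∑ l, y l * X t (ix l) = 0 :=
    (tendsto_add_atTop_nat T).frequently hy
  refine hy'.mono fun t ht => ?_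
  have h1 : ∑ i, c i * zz p q (a t) (m t) (n t) i = 0 := by
    have hD0 : (p : ℚ) ^ (ms t) * (q : ℚ) ^ (ns t) ≠ 0 := by positivity
    have h2 : (p : ℚ) ^ (ms t) * (q : ℚ) ^ (ns t) * ∑ i, c i * zz p q (a t) (m t) (n t) i =
        ((∑ l, y l * X t (ix l) : ℤ) : ℚ) := by
      rw [← Finset.sum_add_sum_compl Bx, Finset.sum_eq_zero (s := Bx) (fun i hi => by
        rw [hc, ext0_not Bxᶜ hJx y i (by simpa using hi), zero_mul]), zero_add,
        ← sum_embQ Bxᶜ hJx, Finset.mul_sum]
      push_cast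
      refine Finset.sum_congr rfl fun l _ => ?_
      rw [hc, ext0_emb, hXrat, hix]
      ring
    rw [ht, Int.cast_zero] at h2
    exact (mul_eq_zero.1 h2).resolve_left hD0
  let S : Submodule ℚ (Fin k → ℚ) :=
    { carrier := {c | ∑ i, c i * zz p q (a t) (m t) (n t) i = 0}
      add_mem' := by
        intro c c' hc hc'
        simp only [Set.mem_setOf_eq] at hc hc' ⊢
        simp only [Pi.add_apply, add_mul, Finset.sum_add_distrib, hc, hc', add_zero]
      zero_mem' := by simp
      smul_mem' := by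
        intro r c hc
        simp only [Set.mem_setOf_eq] at hc ⊢
        simp only [Pi.smul_apply, smul_eq_mul, mul_assoc, ← Finset.mul_sum, hc, mul_zero] }
  have h3 : K ⊔ Submodule.span ℚ {c} ≤ S := by
    refine sup_le (fun c' hc' => hK t c' hc') ?_
    rw [Submodule.span_singleton_le_iff_mem]
    exact h1
  intro c' hc'
  exact h3 hc'

theorem cluster (hsub : SubspaceStmt) (hld : LDStmt) {p q : ℕ} (hp : 2 ≤ p) (hq : 2 ≤ q)
    (hpq : Nat.Coprime p q) : ClusterStmt p q := by
  intro k η hη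
  by_contra hcon
  push Not at hcon
  have hcon' : ∀ t : ℕ, ∃ (N θ : ℝ) (a : Fin k → ℤ) (m n : Fin k → ℕ) (h : Fin k → ℝ),
      (t : ℝ) ≤ N ∧ Dat p q η N θ a m n h := by
    intro t
    obtain ⟨N, hN, θ, hθ1, hθ2, a, m, n, h, h1, h2, h3, h4, h5, h6⟩ := hcon (t + 1)
    exact ⟨N, θ, a, m, n, h, by linarith, by
      have : (0 : ℝ) ≤ t := Nat.cast_nonneg t
      linarith, hθ1, hθ2, h1, h2, h3, h4, h5, h6⟩
  choose N θ a m n h hNt hD using hcon'
  have hN : Tendsto N atTop atTop := tendsto_atTop_mono hNt tendsto_natCast_atTop_atTop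
  have hNpos : ∀ t, 0 < N t := fun t => lt_of_lt_of_le one_pos (hD t).N1
  -- compactness
  let u : ℕ → (Fin k → ℝ) × (Fin k → ℝ) × (Fin k → ℝ) := fun t =>
    (fun i => (m t i : ℝ) * Real.log p / N t, fun i => (n t i : ℝ) * Real.log q / N t,
      fun i => h t i / N t)
  have hu : ∀ t, u t ∈ Set.Icc (0 : (Fin k → ℝ) × (Fin k → ℝ) × (Fin k → ℝ)) 1 := by
    intro t
    have hNt := hNpos t
    refine ⟨⟨fun i => ?_, fun i => ?_, fun i => ?_⟩, ⟨fun i => ?_, fun i => ?_, fun i => ?_⟩⟩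
    · exact div_nonneg (mul_nonneg (Nat.cast_nonneg _) (log_nat_nonneg p)) hNt.le
    · exact div_nonneg (mul_nonneg (Nat.cast_nonneg _) (log_nat_nonneg q)) hNt.le
    · exact div_nonneg ((hD t).h_pos hη i).le hNt.le
    · exact (div_le_one hNt).2 ((hD t).x_le hη i)
    · exact (div_le_one hNt).2 ((hD t).y_le hη i)
    · exact (div_le_one hNt).2 ((hD t).hN i)
  obtain ⟨⟨ξ, ζ, χ⟩, -, φ, hφ, hlim⟩ := isCompact_Icc.tendsto_subseq hu
  have hlim1 : ∀ i, Tendsto (fun t => (m (φ t) i : ℝ) * Real.log p / N (φ t)) atTop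
      (𝓝 (ξ i)) := by
    intro i
    have h1 := (tendsto_pi_nhds.1 ((continuous_fst.tendsto _).comp hlim)) i
    exact h1
  have hlim2 : ∀ i, Tendsto (fun t => (n (φ t) i : ℝ) * Real.log q / N (φ t)) atTop
      (𝓝 (ζ i)) := by
    intro i
    have h1 := (tendsto_pi_nhds.1 (((continuous_fst.comp continuous_snd).tendsto _).comp hlim)) i
    exact h1
  have hlim3 : ∀ i, Tendsto (fun t => h (φ t) i / N (φ t)) atTop (𝓝 (χ i)) := by
    intro i
    have h1 := (tendsto_pi_nhds.1 (((continuous_snd.comp continuous_snd).tendsto _).comp hlim)) i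
    exact h1
  -- the maximal space of relations
  let Kill : Submodule ℚ (Fin k → ℚ) → ℕ → Prop := fun K t =>
    ∀ c ∈ K, ∑ i, c i * zz p q (a (φ t)) (m (φ t)) (n (φ t)) i = 0
  have hne : {K : Submodule ℚ (Fin k → ℚ) | ∃ᶠ t in atTop, Kill K t}.Nonempty := by
    refine ⟨⊥, ?_⟩
    show ∃ᶠ t in atTop, Kill ⊥ t
    refine Frequently.of_forall fun t c hc => ?_
    rw [(Submodule.mem_bot ℚ).1 hc]
    simp
  obtain ⟨K, hKf, hKmax⟩ := (wellFounded_gt (α := Submodule ℚ (Fin k → ℚ))).has_min _ hne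
  obtain ⟨ψ, hψ, hψK⟩ := extraction_of_frequently_atTop hKf
  refine main_contra hsub hld hp hq hpq k η hη (fun t => N (φ (ψ t))) (fun t => θ (φ (ψ t)))
    (fun t => a (φ (ψ t))) (fun t => m (φ (ψ t))) (fun t => n (φ (ψ t)))
    (fun t => h (φ (ψ t))) (fun t => hD _)
    (hN.comp (hφ.tendsto_atTop.comp hψ.tendsto_atTop)) ξ ζ χ
    (fun i => (hlim1 i).comp hψ.tendsto_atTop) (fun i => (hlim2 i).comp hψ.tendsto_atTop)
    (fun i => (hlim3 i).comp hψ.tendsto_atTop) K hψK ?_
  intro K' hKK' hfr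
  refine hKmax K' ?_ hKK'
  exact hψ.tendsto_atTop.frequently hfr

end Pool.Agent.TH461.SST.Cluster
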