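import Mathlib
import Pool.Agent.TH461.SST.Stms

set_option autoImplicit false

open Finset Filter Topology

namespace Pool.Agent.TH461.SST.Comb

open Pool.Agent.TH461.SST

/-- intervals with disjoint interiors inside `[a, b]` have total length at most `b - a` -/
lemma pack {ι : Type*} (S : Finset ι) (x y : ι → ℝ) (a b : ℝ) (hab : a ≤ b)
    (h1 : ∀ z ∈ S, a ≤ x z ∧ x z ≤ y z ∧ y z ≤ b)
    (h2 : ∀ z ∈ S, ∀ z' ∈ S, z ≠ z' → y z ≤ x z' ∨ y z' ≤ x z) :
    ∑ z ∈ S, (y z - x z) ≤ b - a := by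
  have hd : (S : Set ι).PairwiseDisjoint (fun z => Set.Ico (x z) (y z)) := by
    intro z hz z' hz' hne
    rw [Function.onFun, Set.disjoint_left]
    intro t ht ht'
    rcases h2 z hz z' hz' hne with h | h
    · exact absurd (lt_of_lt_of_le ht.2 (h.trans ht'.1)) (lt_irrefl _)
    · exact absurd (lt_of_lt_of_le ht'.2 (h.trans ht.1)) (lt_irrefl _)
  have hv : MeasureTheory.volume (⋃ z ∈ S, Set.Ico (x z) (y z)) =
      ∑ z ∈ S, MeasureTheory.volume (Set.Ico (x z) (y z)) :=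
    MeasureTheory.measure_biUnion_finset hd (fun z _ => measurableSet_Ico)
  have hle : MeasureTheory.volume (⋃ z ∈ S, Set.Ico (x z) (y z)) ≤
      MeasureTheory.volume (Set.Icc a b) := by
    apply MeasureTheory.measure_mono
    intro t ht
    simp only [Set.mem_iUnion] at ht
    obtain ⟨z, hz, ht⟩ := ht
    exact ⟨(h1 z hz).1.trans ht.1, ht.2.le.trans (h1 z hz).2.2⟩
  rw [hv] at hle
  simp only [Real.volume_Ico, Real.volume_Icc] at hle
  rw [← ENNReal.ofReal_sum_of_nonneg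
    (fun z hz => by have := (h1 z hz).2.1; linarith)] at hle
  exact (ENNReal.ofReal_le_ofReal_iff (by linarith)).1 hle

open Classical in
/-- the triangles which meet row `j` -/
noncomputable def V {κ : ℕ} (l u : ℝ) (m n : Fin κ → ℕ) (h : Fin κ → ℝ) (j : ℕ) :
    Finset (Fin κ) :=
  univ.filter (fun z => n z ≤ j ∧ (m z : ℝ) * l + (j : ℝ) * u < h z)

section
variable {κ : ℕ} {l u : ℝ} {R C : ℕ} {m n : Fin κ → ℕ} {h : Fin κ → ℝ}

lemma mem_V {j : ℕ} {z : Fin κ} :
    z ∈ V l u m n h j ↔ n z ≤ j ∧ (m z : ℝ) * l + (j : ℝ) * u < h z := by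
  simp [V]

/-- the disjointness hypothesis -/
def Dis (l u : ℝ) (R : ℕ) (m n : Fin κ → ℕ) (h : Fin κ → ℝ) : Prop :=
  ∀ z z', z ≠ z' → ∀ i j : ℕ, j < R →
      ¬ (InT l u (m z) (n z) (h z) i j ∧ InT l u (m z') (n z') (h z') i j)

/-- the wall hypothesis -/
def Wal (l u : ℝ) (R C : ℕ) (m n : Fin κ → ℕ) (h : Fin κ → ℝ) : Prop :=
  ∀ z, ∀ i j : ℕ, InT l u (m z) (n z) (h z) i j → j < R → i < C

lemma row_ne (hdis : Dis l u R m n h) {k : ℕ} (hk : k < R) {z z' : Fin κ}
    (hz : z ∈ V l u m n h k) (hz' : z' ∈ V l u m n h k) (hne : z ≠ z') : m z ≠ m z' := by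
  intro he
  rw [mem_V] at hz hz'
  refine hdis z z' hne (m z) k hk ⟨⟨le_rfl, hz.1, hz.2⟩, ⟨he ▸ le_rfl, hz'.1, ?_⟩⟩
  rw [he]; exact hz'.2

lemma row_lt (hdis : Dis l u R m n h) {k : ℕ} (hk : k < R) {z z' : Fin κ}
    (hz : z ∈ V l u m n h k) (hz' : z' ∈ V l u m n h k) (hlt : m z < m z') :
    h z - k * u ≤ m z' * l := by
  by_contra hc
  push Not at hc
  have hne : z ≠ z' := by rintro rfl; exact lt_irrefl _ hlt
  rw [mem_V] at hz hz'
  exact hdis z z' hne (m z') k hk ⟨⟨hlt.le, hz.1, by linarith⟩, ⟨le_rfl, hz'.1, hz'.2⟩⟩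

lemma row_or (hdis : Dis l u R m n h) {k : ℕ} (hk : k < R) {z z' : Fin κ}
    (hz : z ∈ V l u m n h k) (hz' : z' ∈ V l u m n h k) (hne : z ≠ z') :
    h z - k * u ≤ m z' * l ∨ h z' - k * u ≤ m z * l := by
  rcases lt_or_gt_of_ne (row_ne hdis hk hz hz' hne) with h1 | h1
  · exact Or.inl (row_lt hdis hk hz hz' h1)
  · exact Or.inr (row_lt hdis hk hz' hz h1)

lemma row_wall (hwal : Wal l u R C m n h) {k : ℕ} (hk : k < R) {z : Fin κ}
    (hz : z ∈ V l u m n h k) : h z - k * u ≤ C * l := by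
  by_contra hc
  push Not at hc
  rw [mem_V] at hz
  have h1 : m z < C := hwal z (m z) k ⟨le_rfl, hz.1, hz.2⟩ hk
  exact lt_irrefl _ (hwal z C k ⟨h1.le, hz.1, by linarith⟩ hk)

lemma V_anti (hu : 0 < u) {j k : ℕ} (hjk : j ≤ k) {z : Fin κ} (hz : z ∈ V l u m n h k)
    (hn : n z ≤ j) : z ∈ V l u m n h j := by
  rw [mem_V] at hz ⊢
  refine ⟨hn, lt_of_le_of_lt ?_ hz.2⟩
  have : (j : ℝ) ≤ k := by exact_mod_cast hjk
  nlinarith

/-- the key claim: between two good rows `j` and `j + s` a triangle of size about `s` is born -/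
lemma claim (hl : 0 < l) (hu : 0 < u) (hdis : Dis l u R m n h) (hwal : Wal l u R C m n h)
    (j s : ℕ) (hJ : j + s < R) (N0 : ℕ) (δ : ℝ)
    (c1 : (V l u m n h j).card ≤ N0) (c2 : (V l u m n h (j + s)).card ≤ N0)
    (e1 : (C : ℝ) * l ≤ δ + ∑ z ∈ V l u m n h j, ((h z - j * u) - m z * l))
    (e2 : (C : ℝ) * l ≤ δ + ∑ z ∈ V l u m n h (j + s), ((h z - ((j + s : ℕ) : ℝ) * u) - m z * l))
    (hs : (N0 : ℝ) * (s * u) < C * l - δ) (hs' : δ < s * u) :
    ∃ z, j < n z ∧ n z ≤ j + s ∧ s * u - δ ≤ N0 * (h z - m z * l - n z * u) ∧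
      h z - m z * l - n z * u ≤ (N0 + 1) * (s * u) + δ := by
  have hjR : j < R := by omega
  have hsu : 0 ≤ (s : ℝ) * u := by positivity
  have hJc : ((j + s : ℕ) : ℝ) = j + s := by push_cast; ring
  -- the longest interval in row `j`
  obtain ⟨z1, hz1, hz1l⟩ : ∃ z ∈ V l u m n h j, (s : ℝ) * u < (h z - j * u) - m z * l := by
    by_contra hc
    push Not at hc
    have h1 : ∑ z ∈ V l u m n h j, ((h z - j * u) - m z * l) ≤
        ∑ _z ∈ V l u m n h j, (s : ℝ) * u := Finset.sum_le_sum hc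
    rw [Finset.sum_const, nsmul_eq_mul] at h1
    have h2 : ((V l u m n h j).card : ℝ) * (s * u) ≤ N0 * (s * u) := by
      apply mul_le_mul_of_nonneg_right _ hsu
      exact_mod_cast c1
    linarith
  have hz1J : z1 ∈ V l u m n h (j + s) := by
    rw [mem_V] at hz1 ⊢
    refine ⟨by omega, ?_⟩
    rw [hJc]; nlinarith
  -- alive in all rows between
  have hbet : ∀ z, z ∈ V l u m n h j → z ∈ V l u m n h (j + s) → ∀ k, j ≤ k → k ≤ j + s →
      z ∈ V l u m n h k := by
    intro z hzj hzJ k hjk hkJ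
    rw [mem_V] at hzj
    exact V_anti hu hkJ hzJ (hzj.1.trans hjk)
  -- the end of the gap
  obtain ⟨g, hg1, hgC, hg2, hg3⟩ : ∃ g : ℝ, h z1 - j * u ≤ g ∧ g ≤ C * l ∧
      (∀ z ∈ V l u m n h j, z ∈ V l u m n h (j + s) → m z1 < m z → g ≤ m z * l) ∧
      (∀ k, j ≤ k → k ≤ j + s → ∀ z ∈ V l u m n h k, (m z : ℝ) * l < g →
        h z - k * u ≤ g) := by
    classical
    by_cases hW : ((V l u m n h j).filter
      (fun z => z ∈ V l u m n h (j + s) ∧ m z1 < m z)).Nonempty
    · obtain ⟨z2, hz2, hmin⟩ := Finset.exists_min_image _ m hW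
      rw [Finset.mem_filter] at hz2
      obtain ⟨hz2j, hz2J, hz2m⟩ := hz2
      refine ⟨m z2 * l, row_lt hdis hjR hz1 hz2j hz2m, ?_, ?_, ?_⟩
      · have h1 := row_wall hwal hjR hz2j
        rw [mem_V] at hz2j
        linarith [hz2j.2]
      · intro z hzj hzJ hzm
        have h1 := hmin z (Finset.mem_filter.2 ⟨hzj, hzJ, hzm⟩)
        have h2 : (m z2 : ℝ) ≤ m z := by exact_mod_cast h1
        nlinarith
      · intro k hjk hkJ z hz hlt
        have h1 : (m z : ℝ) < m z2 := lt_of_mul_lt_mul_right hlt hl.le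
        have h2 : m z < m z2 := by exact_mod_cast h1
        exact row_lt hdis (by omega) hz (hbet z2 hz2j hz2J k hjk hkJ) h2
    · refine ⟨C * l, row_wall hwal hjR hz1, le_rfl, ?_, ?_⟩
      · intro z hzj hzJ hzm
        exact absurd ⟨z, Finset.mem_filter.2 ⟨hzj, hzJ, hzm⟩⟩ hW
      · intro k hjk hkJ z hz _
        exact row_wall hwal (by omega) hz
  have hz10 : (m z1 : ℝ) * l < h z1 - ((j + s : ℕ) : ℝ) * u := by
    rw [hJc]; linarith
  have hm0 : (0 : ℝ) ≤ m z1 * l := by positivity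
  -- general packing in a row
  have hrow : ∀ k, j ≤ k → k ≤ j + s → ∃ Mid : Finset (Fin κ), Mid ⊆ V l u m n h k ∧
      (∀ z ∈ Mid, m z1 < m z ∧ (m z : ℝ) * l < g) ∧
      ∑ z ∈ V l u m n h k, ((h z - k * u) - m z * l) ≤
        (h z1 - k * u) + ∑ z ∈ Mid, ((h z - k * u) - m z * l) + (C * l - g) := by
    classical
    intro k hjk hkJ
    have hkR : k < R := by omega
    have hz1k := hbet z1 hz1 hz1J k hjk hkJ
    have hz1k' := (mem_V.1 hz1k).2
    refine ⟨(V l u m n h k).filter (fun z => m z1 < m z ∧ (m z : ℝ) * l < g),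
      Finset.filter_subset _ _, ?_, ?_⟩
    · intro z hz
      exact (Finset.mem_filter.1 hz).2
    · rw [← Finset.sum_filter_add_sum_filter_not (V l u m n h k)
        (fun z => m z1 < m z ∧ (m z : ℝ) * l < g) (fun z => (h z - k * u) - m z * l)]
      rw [← Finset.sum_filter_add_sum_filter_not ((V l u m n h k).filter
        (fun z => ¬ (m z1 < m z ∧ (m z : ℝ) * l < g))) (fun z => m z ≤ m z1)
        (fun z => (h z - k * u) - m z * l)]
      have hA : ∑ z ∈ ((V l u m n h k).filter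
          (fun z => ¬ (m z1 < m z ∧ (m z : ℝ) * l < g))).filter (fun z => m z ≤ m z1),
          ((h z - k * u) - m z * l) ≤ (h z1 - k * u) - 0 := by
        apply pack
        · nlinarith
        · intro z hz
          simp only [Finset.mem_filter] at hz
          obtain ⟨⟨hzk, _⟩, hzm⟩ := hz
          have hzk' := (mem_V.1 hzk).2
          refine ⟨by positivity, by linarith, ?_⟩
          rcases hzm.lt_or_eq with h1 | h1
          · have := row_lt hdis hkR hzk hz1k h1
            linarith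
          · by_cases h2 : z = z1
            · rw [h2]
            · exact absurd h1 (row_ne hdis hkR hzk hz1k h2)
        · intro z hz z' hz' hne
          simp only [Finset.mem_filter] at hz hz'
          exact row_or hdis hkR hz.1.1 hz'.1.1 hne
      have hB : ∑ z ∈ ((V l u m n h k).filter
          (fun z => ¬ (m z1 < m z ∧ (m z : ℝ) * l < g))).filter (fun z => ¬ m z ≤ m z1),
          ((h z - k * u) - m z * l) ≤ C * l - g := by
        apply pack
        · exact hgC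
        · intro z hz
          simp only [Finset.mem_filter] at hz
          obtain ⟨⟨hzk, h1⟩, hzm⟩ := hz
          have hzk' := (mem_V.1 hzk).2
          push Not at h1 hzm
          exact ⟨h1 hzm, by linarith, row_wall hwal hkR hzk⟩
        · intro z hz z' hz' hne
          simp only [Finset.mem_filter] at hz hz'
          exact row_or hdis hkR hz.1.1 hz'.1.1 hne
      linarith
  -- row `j`: the gap is short
  have hgap : g - (h z1 - j * u) ≤ N0 * (s * u) + δ := by
    obtain ⟨Mid, hM1, hM2, hM3⟩ := hrow j le_rfl (by omega)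
    have h1 : ∑ z ∈ Mid, ((h z - j * u) - m z * l) ≤ ∑ _z ∈ Mid, (s : ℝ) * u := by
      apply Finset.sum_le_sum
      intro z hz
      by_contra hc
      push Not at hc
      have hzj := hM1 hz
      have hzJ : z ∈ V l u m n h (j + s) := by
        rw [mem_V] at hzj ⊢
        refine ⟨by omega, ?_⟩
        rw [hJc]; nlinarith
      have := hg2 z hzj hzJ (hM2 z hz).1
      linarith [(hM2 z hz).2]
    rw [Finset.sum_const, nsmul_eq_mul] at h1
    have h2 : (Mid.card : ℝ) * (s * u) ≤ N0 * (s * u) := by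
      apply mul_le_mul_of_nonneg_right _ hsu
      exact_mod_cast (Finset.card_le_card hM1).trans c1
    linarith
  -- row `j + s`: a long new triangle
  obtain ⟨Mid, hM1, hM2, hM3⟩ := hrow (j + s) (by omega) le_rfl
  have hsum : (s : ℝ) * u - δ ≤ ∑ z ∈ Mid, ((h z - ((j + s : ℕ) : ℝ) * u) - m z * l) := by
    have h1 : h z1 - ((j + s : ℕ) : ℝ) * u = (h z1 - j * u) - s * u := by rw [hJc]; ring
    rw [h1] at hM3
    linarith
  obtain ⟨z, hz, hzl⟩ : ∃ z ∈ Mid,
      (s : ℝ) * u - δ ≤ N0 * ((h z - ((j + s : ℕ) : ℝ) * u) - m z * l) := by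
    by_contra hc
    push Not at hc
    have hne : Mid.Nonempty := by
      rw [Finset.nonempty_iff_ne_empty]
      rintro rfl
      rw [Finset.sum_empty] at hsum
      linarith
    have h1 : ∑ z ∈ Mid, (N0 : ℝ) * ((h z - ((j + s : ℕ) : ℝ) * u) - m z * l) <
        ∑ _z ∈ Mid, ((s : ℝ) * u - δ) := Finset.sum_lt_sum_of_nonempty hne hc
    rw [← Finset.mul_sum, Finset.sum_const, nsmul_eq_mul] at h1
    have h2 : (Mid.card : ℝ) ≤ N0 := by exact_mod_cast (Finset.card_le_card hM1).trans c2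
    have h3 : (Mid.card : ℝ) * (s * u - δ) ≤ N0 * (s * u - δ) :=
      mul_le_mul_of_nonneg_right h2 (by linarith)
    have h4 : (N0 : ℝ) * (s * u - δ) ≤
        N0 * ∑ z ∈ Mid, ((h z - ((j + s : ℕ) : ℝ) * u) - m z * l) :=
      mul_le_mul_of_nonneg_left hsum (by positivity)
    linarith
  have hzJ := hM1 hz
  have hzJ' := mem_V.1 hzJ
  have hnz : j < n z := by
    by_contra hc
    push Not at hc
    have := hg2 z (V_anti hu (by omega) hzJ hc) hzJ (hM2 z hz).1
    linarith [(hM2 z hz).2]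
  have hzn : z ∈ V l u m n h (n z) := V_anti hu hzJ'.1 hzJ le_rfl
  have hnR : n z < R := by omega
  have hnn : (n z : ℝ) ≤ ((j + s : ℕ) : ℝ) := by exact_mod_cast hzJ'.1
  refine ⟨z, hnz, hzJ'.1, ?_, ?_⟩
  · refine hzl.trans ?_
    apply mul_le_mul_of_nonneg_left _ (by positivity)
    nlinarith
  · have h1 := hg3 (n z) hnz.le hzJ'.1 z hzn (hM2 z hz).2
    have h2 : h z1 - n z * u ≤ m z * l :=
      row_lt hdis hnR (hbet z1 hz1 hz1J (n z) hnz.le hzJ'.1) hzn (hM2 z hz).1
    have h3 : (n z : ℝ) * u ≤ ((j + s : ℕ) : ℝ) * u := mul_le_mul_of_nonneg_right hnn hu.le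
    rw [hJc] at h3
    nlinarith

/-- counting the integers of an interval -/
lemma cnt (S : Finset ℕ) (a : ℕ) (t w : ℝ) (ht : 0 < t) (hw : 0 ≤ w - a * t)
    (hS : ∀ i ∈ S, a ≤ i ∧ (i : ℝ) * t < w) : (S.card : ℝ) ≤ (w - a * t) / t + 1 := by
  have hq : 0 ≤ (w - a * t) / t := div_nonneg hw ht.le
  have h1 : S ⊆ Finset.Ico a (a + ⌈(w - a * t) / t⌉₊) := by
    intro i hi
    obtain ⟨h2, h3⟩ := hS i hi
    rw [Finset.mem_Ico]
    refine ⟨h2, ?_⟩
    have h4 : ((i : ℝ) - a) < (w - a * t) / t := by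
      rw [lt_div_iff₀ ht]; linarith
    have h5 : (i : ℝ) < ((a + ⌈(w - a * t) / t⌉₊ : ℕ) : ℝ) := by
      push_cast
      have := Nat.le_ceil ((w - a * t) / t)
      linarith
    exact_mod_cast h5
  have h2 := Finset.card_le_card h1
  rw [Nat.card_Ico, Nat.add_sub_cancel_left] at h2
  have h3 : (S.card : ℝ) ≤ ⌈(w - a * t) / t⌉₊ := by exact_mod_cast h2
  have h4 := Nat.ceil_lt_add_one hq
  linarith

open Classical in
/-- the number of uncovered cells in row `j` -/
noncomputable def U {κ : ℕ} (l u : ℝ) (C : ℕ) (m n : Fin κ → ℕ) (h : Fin κ → ℝ) (j : ℕ) : ℕ :=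
  ((range C).filter (fun i => ∀ z, ¬ InT l u (m z) (n z) (h z) i j)).card

lemma row_count (hl : 0 < l) (j : ℕ) :
    (C : ℝ) * l ≤ (l * U l u C m n h j + l * (V l u m n h j).card) +
      ∑ z ∈ V l u m n h j, ((h z - j * u) - m z * l) := by
  classical
  have h1 : range C ⊆ (range C).filter (fun i => ∀ z, ¬ InT l u (m z) (n z) (h z) i j) ∪
      (V l u m n h j).biUnion (fun z => (range C).filter
        (fun i => m z ≤ i ∧ (i : ℝ) * l < h z - j * u)) := by
    intro i hi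
    by_cases hc : ∀ z, ¬ InT l u (m z) (n z) (h z) i j
    · exact Finset.mem_union_left _ (Finset.mem_filter.2 ⟨hi, hc⟩)
    · apply Finset.mem_union_right
      push Not at hc
      obtain ⟨z, hz1, hz2, hz3⟩ := hc
      rw [Finset.mem_biUnion]
      refine ⟨z, mem_V.2 ⟨hz2, ?_⟩, Finset.mem_filter.2 ⟨hi, hz1, by linarith⟩⟩
      have : (m z : ℝ) ≤ i := by exact_mod_cast hz1
      nlinarith
  have h2 := (Finset.card_le_card h1).trans (Finset.card_union_le _ _)
  rw [Finset.card_range] at h2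
  have h3 := Finset.card_biUnion_le (s := V l u m n h j) (t := fun z => (range C).filter
        (fun i => m z ≤ i ∧ (i : ℝ) * l < h z - j * u))
  have h4 : (C : ℝ) ≤ U l u C m n h j + ∑ z ∈ V l u m n h j,
      (((h z - j * u) - m z * l) / l + 1) := by
    have h5 : (C : ℝ) ≤ U l u C m n h j + ∑ z ∈ V l u m n h j,
        (((range C).filter (fun i => m z ≤ i ∧ (i : ℝ) * l < h z - j * u)).card : ℝ) := by
      have := h2.trans (Nat.add_le_add_left h3 _)
      rw [U]
      exact_mod_cast this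
    refine h5.trans (add_le_add le_rfl (Finset.sum_le_sum ?_))
    intro z hz
    apply cnt _ _ _ _ hl
    · linarith [(mem_V.1 hz).2]
    · intro i hi
      exact (Finset.mem_filter.1 hi).2
  rw [Finset.sum_add_distrib, Finset.sum_const, nsmul_eq_mul, mul_one, ← Finset.sum_div] at h4
  have h6 := mul_le_mul_of_nonneg_right h4 hl.le
  have h7 : (∑ z ∈ V l u m n h j, ((h z - j * u) - m z * l)) / l * l =
      ∑ z ∈ V l u m n h j, ((h z - j * u) - m z * l) := div_mul_cancel₀ _ hl.ne'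
  nlinarith

lemma sum_V (hu : 0 < u) (hpos : ∀ z, (m z : ℝ) * l + (n z : ℝ) * u < h z) (R : ℕ) :
    ∑ j ∈ range R, ((V l u m n h j).card : ℝ) ≤
      ∑ z, ((h z - (m z : ℝ) * l - (n z : ℝ) * u) / u + 1) := by
  classical
  have h1 : ∀ j, ((V l u m n h j).card : ℝ) = ∑ z : Fin κ, if z ∈ V l u m n h j then 1 else 0 := by
    intro j
    rw [Finset.sum_boole, Finset.filter_mem_eq_inter, Finset.univ_inter]
  simp_rw [h1]
  rw [Finset.sum_comm]
  apply Finset.sum_le_sum
  intro z _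
  rw [Finset.sum_boole]
  have h2 := cnt ((range R).filter (fun j => z ∈ V l u m n h j)) (n z) u (h z - m z * l) hu
    (by linarith [hpos z]) (by
      intro i hi
      have := mem_V.1 (Finset.mem_filter.1 hi).2
      exact ⟨this.1, by linarith [this.2]⟩)
  exact h2

lemma sum_U : ∑ j ∈ range R, U l u C m n h j =
    (open Classical in ((range C ×ˢ range R).filter
      (fun x => ∀ z, ¬ InT l u (m z) (n z) (h z) x.1 x.2)).card) := by
  classical
  simp only [U]
  rw [Finset.card_filter, Finset.sum_product_right]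
  apply Finset.sum_congr rfl
  intro j _
  rw [Finset.card_filter]

/-- one scale: the triangles of size about `s` have total size at least `R u / 8` (up to `N0`) -/
lemma scale (hl : 0 < l) (hu : 0 < u) (hdis : Dis l u R m n h) (hwal : Wal l u R C m n h)
    (s N0 : ℕ) (δ : ℝ) (B : Finset ℕ) (hB : (B.card : ℝ) ≤ R / 4) (hs4 : (s : ℝ) ≤ R / 4)
    (hR : 0 < R)
    (hgood : ∀ j, j < R → j ∉ B → (V l u m n h j).card ≤ N0 ∧
      (C : ℝ) * l ≤ δ + ∑ z ∈ V l u m n h j, ((h z - j * u) - m z * l))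
    (hs : (N0 : ℝ) * (s * u) < C * l - δ) (hs' : δ ≤ s * u / 2) (hs0 : 0 < s)
    (Z : Finset (Fin κ)) (hZ : ∀ z, s * u / 2 ≤ N0 * (h z - m z * l - n z * u) →
      h z - m z * l - n z * u ≤ (N0 + 2) * (s * u) → z ∈ Z)
    (hZ' : ∀ z ∈ Z, s * u / 2 ≤ N0 * (h z - m z * l - n z * u)) :
    (R : ℝ) * u / 8 ≤ ∑ z ∈ Z, N0 * (h z - m z * l - n z * u) := by
  classical
  have hs0' : (0 : ℝ) < s := by exact_mod_cast hs0
  have hsu : (0 : ℝ) < s * u := by positivity
  have hR' : (0 : ℝ) < R := by exact_mod_cast hR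
  have hsR : s ≤ R := by
    have : (s : ℝ) ≤ R := by linarith
    exact_mod_cast this
  set G := (range (R - s)).filter (fun j => j ∉ B ∧ j + s ∉ B) with hG
  have h1 : range (R - s) ⊆ G ∪ (B ∪ (range (R - s)).filter (fun j => j + s ∈ B)) := by
    intro j hj
    simp only [hG, Finset.mem_union, Finset.mem_filter]
    by_cases h1 : j ∈ B
    · exact Or.inr (Or.inl h1)
    · by_cases h2 : j + s ∈ B
      · exact Or.inr (Or.inr ⟨hj, h2⟩)
      · exact Or.inl ⟨hj, h1, h2⟩
  have h2 : ((range (R - s)).filter (fun j => j + s ∈ B)).card ≤ B.card := by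
    apply Finset.card_le_card_of_injOn (fun j => j + s)
    · intro j hj
      exact (Finset.mem_filter.1 hj).2
    · intro a _ b _ hab
      exact Nat.add_right_cancel hab
  have h3 : R - s ≤ G.card + (B.card + B.card) := by
    have := Finset.card_le_card h1
    rw [Finset.card_range] at this
    refine this.trans ((Finset.card_union_le _ _).trans ?_)
    exact Nat.add_le_add_left ((Finset.card_union_le _ _).trans (Nat.add_le_add_left h2 _)) _
  have h4 : (R : ℝ) / 4 ≤ G.card := by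
    have h5 : ((R - s : ℕ) : ℝ) ≤ G.card + (B.card + B.card) := by exact_mod_cast h3
    rw [Nat.cast_sub hsR] at h5
    linarith
  have h5 : G ⊆ Z.biUnion (fun z => (range R).filter (fun j => j < n z ∧ n z ≤ j + s)) := by
    intro j hj
    rw [hG, Finset.mem_filter, Finset.mem_range] at hj
    obtain ⟨hj1, hj2, hj3⟩ := hj
    have hJ : j + s < R := by omega
    obtain ⟨g1, g2⟩ := hgood j (by omega) hj2
    obtain ⟨g3, g4⟩ := hgood (j + s) hJ hj3
    obtain ⟨z, hz1, hz2, hz3, hz4⟩ := claim hl hu hdis hwal j s hJ N0 δ g1 g3 g2 g4 hs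
      (by linarith)
    rw [Finset.mem_biUnion]
    refine ⟨z, hZ z (by linarith) (by nlinarith), ?_⟩
    rw [Finset.mem_filter, Finset.mem_range]
    exact ⟨by omega, hz1, hz2⟩
  have h6 : G.card ≤ Z.card * s := by
    refine (Finset.card_le_card h5).trans (Finset.card_biUnion_le_card_mul _ _ _ ?_)
    intro z _
    have : (range R).filter (fun j => j < n z ∧ n z ≤ j + s) ⊆ Finset.Ico (n z - s) (n z) := by
      intro j hj
      rw [Finset.mem_filter] at hj
      rw [Finset.mem_Ico]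
      omega
    refine (Finset.card_le_card this).trans ?_
    rw [Nat.card_Ico]; omega
  have h7 : (G.card : ℝ) ≤ Z.card * s := by exact_mod_cast h6
  have h8 : ∑ _z ∈ Z, (s * u / 2 : ℝ) ≤ ∑ z ∈ Z, N0 * (h z - m z * l - n z * u) :=
    Finset.sum_le_sum hZ'
  rw [Finset.sum_const, nsmul_eq_mul] at h8
  refine le_trans ?_ h8
  have h9 : (R : ℝ) / 4 ≤ Z.card * s := h4.trans h7
  have h10 := mul_le_mul_of_nonneg_right h9 hu.le
  nlinarith

end

/-- D1 -/
theorem comb : CombStmt := by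
  intro l u K hl hu
  obtain ⟨K', hK1, hKK⟩ : ∃ K' : ℝ, 1 ≤ K' ∧ K ≤ K' := ⟨max K 1, le_max_right _ _, le_max_left _ _⟩
  obtain ⟨N0, hN0⟩ : ∃ N0 : ℕ, 8 * K' ≤ N0 := ⟨_, Nat.le_ceil _⟩
  have hN8 : (8 : ℝ) ≤ N0 := by linarith
  have hN0pos : (0 : ℝ) < N0 := by linarith
  obtain ⟨T, hT⟩ : ∃ T : ℕ, T = 2 * N0 * (N0 + 2) + 1 := ⟨_, rfl⟩
  have hT1 : 1 ≤ T := by omega
  obtain ⟨A0, hA0⟩ : ∃ A0 : ℕ, 8 * N0 * K' < A0 := exists_nat_gt _
  obtain ⟨M, hM⟩ : ∃ M : ℕ, M = 16 * N0 * T ^ A0 := ⟨_, rfl⟩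
  have hTA : 1 ≤ T ^ A0 := Nat.one_le_pow _ _ hT1
  have hTAr : (1 : ℝ) ≤ (T : ℝ) ^ A0 := by exact_mod_cast hTA
  have hMr : (M : ℝ) = 16 * N0 * (T : ℝ) ^ A0 := by rw [hM]; push_cast; ring
  have hMpos : (0 : ℝ) < M := by rw [hMr]; positivity
  have hM1 : (1 : ℝ) ≤ M := by rw [hMr]; nlinarith
  obtain ⟨R0, hR0⟩ : ∃ R0 : ℕ, 2 * M + 8 * M * N0 * l / u < R0 := exists_nat_gt _
  refine ⟨u / (64 * M * l), by positivity, R0, ?_⟩
  intro R C hR hC1 hC2 κ m n h hpos hdis hwal hsum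
  by_contra hcon
  push Not at hcon
  set c : ℝ := u / (64 * M * l) with hc
  have hcl : 64 * M * l * c = u := by rw [hc]; field_simp
  have hcpos : 0 < c := by rw [hc]; positivity
  have hRr : 2 * (M : ℝ) + 8 * M * N0 * l / u < R := lt_of_lt_of_le hR0 (by exact_mod_cast hR)
  have hRM : 2 * (M : ℝ) < R := by
    have : 0 ≤ 8 * (M : ℝ) * N0 * l / u := by positivity
    linarith
  have hRN : 8 * (M : ℝ) * N0 * l < R * u := by
    have h1 : 8 * (M : ℝ) * N0 * l / u < R := by linarith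
    rwa [div_lt_iff₀ hu] at h1
  have hRpos : (0 : ℝ) < R := by linarith
  have hRpos' : 0 < R := by exact_mod_cast hRpos
  have hsum' : ∑ z, ((h z - (m z : ℝ) * l - (n z : ℝ) * u) / u + 1) ≤ K' * R :=
    hsum.trans (mul_le_mul_of_nonneg_right hKK hRpos.le)
  -- bad rows
  classical
  set B1 := (range R).filter (fun j => N0 < (V l u m n h j).card) with hB1
  set B2 := (range R).filter (fun j => 8 * c * R < (U l u C m n h j : ℝ)) with hB2
  have hB1c : (B1.card : ℝ) ≤ R / 8 := by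
    have h1 : ∑ _j ∈ B1, (N0 : ℝ) ≤ ∑ j ∈ B1, ((V l u m n h j).card : ℝ) := by
      apply Finset.sum_le_sum
      intro j hj
      exact_mod_cast (Finset.mem_filter.1 hj).2.le
    have h2 : ∑ j ∈ B1, ((V l u m n h j).card : ℝ) ≤ ∑ j ∈ range R, ((V l u m n h j).card : ℝ) :=
      Finset.sum_le_sum_of_subset_of_nonneg (Finset.filter_subset _ _)
        (fun _ _ _ => Nat.cast_nonneg _)
    have h3 := (h1.trans h2).trans ((sum_V hu hpos R).trans hsum')
    rw [Finset.sum_const, nsmul_eq_mul] at h3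
    have h4 : (B1.card : ℝ) * (8 * K') ≤ B1.card * N0 :=
      mul_le_mul_of_nonneg_left hN0 (Nat.cast_nonneg _)
    have h5 : K' * (8 * B1.card) ≤ K' * R := by linarith
    have h6 := le_of_mul_le_mul_left h5 (by linarith)
    linarith
  have hB2c : (B2.card : ℝ) ≤ R / 8 := by
    have h1 : ∑ _j ∈ B2, (8 * c * R : ℝ) ≤ ∑ j ∈ B2, (U l u C m n h j : ℝ) := by
      apply Finset.sum_le_sum
      intro j hj
      exact (Finset.mem_filter.1 hj).2.le
    have h2 : ∑ j ∈ B2, (U l u C m n h j : ℝ) ≤ ∑ j ∈ range R, (U l u C m n h j : ℝ) :=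
      Finset.sum_le_sum_of_subset_of_nonneg (Finset.filter_subset _ _)
        (fun _ _ _ => Nat.cast_nonneg _)
    have h3 : ∑ j ∈ range R, (U l u C m n h j : ℝ) < c * (R : ℝ) ^ 2 := by
      rw [← Nat.cast_sum, sum_U]
      exact hcon
    rw [Finset.sum_const, nsmul_eq_mul] at h1
    have h5 : (c * R) * (8 * B2.card) ≤ (c * R) * R := by nlinarith
    have h6 := le_of_mul_le_mul_left h5 (by positivity)
    linarith
  have hBc : ((B1 ∪ B2).card : ℝ) ≤ R / 4 := by
    have h1 : ((B1 ∪ B2).card : ℝ) ≤ B1.card + B2.card := by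
      exact_mod_cast Finset.card_union_le _ _
    linarith
  -- the scales
  obtain ⟨s0, hs0⟩ : ∃ s0 : ℕ, s0 = R / M := ⟨_, rfl⟩
  have hMN : 0 < M := by exact_mod_cast hMpos
  have hs0u : (s0 : ℝ) * M ≤ R := by
    have : s0 * M ≤ R := by rw [hs0]; exact Nat.div_mul_le_self _ _
    exact_mod_cast this
  have hs0l : (R : ℝ) ≤ 2 * M * s0 := by
    have h1 : R < M * s0 + M := by
      rw [hs0]
      have := Nat.div_add_mod R M
      have h2 := Nat.mod_lt R hMN
      omega
    have h2 : (R : ℝ) < M * s0 + M := by exact_mod_cast h1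
    linarith
  have hs0pos : 0 < s0 := by
    rcases Nat.eq_zero_or_pos s0 with h1 | h1
    · rw [h1] at hs0l; simp at hs0l; linarith
    · exact h1
  have hs0r : (0 : ℝ) < s0 := by exact_mod_cast hs0pos
  set δ : ℝ := 8 * c * R * l + N0 * l with hδ
  have hδ1 : δ ≤ R * u / (4 * M) := by
    rw [le_div_iff₀ (by positivity), hδ]
    have h1 : 8 * c * R * l * (4 * M) = R * (64 * M * l * c) / 2 := by ring
    rw [add_mul, h1, hcl]
    nlinarith
  have hδ2 : δ ≤ s0 * u / 2 := by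
    refine hδ1.trans ?_
    rw [div_le_iff₀ (by positivity)]
    nlinarith
  have hδ3 : δ ≤ R * u / 4 := by
    refine hδ1.trans ?_
    apply div_le_div_of_nonneg_left (by positivity) (by norm_num)
    linarith
  have hgood : ∀ j, j < R → j ∉ B1 ∪ B2 → (V l u m n h j).card ≤ N0 ∧
      (C : ℝ) * l ≤ δ + ∑ z ∈ V l u m n h j, ((h z - j * u) - m z * l) := by
    intro j hj hjB
    rw [Finset.mem_union, not_or] at hjB
    obtain ⟨h1, h2⟩ := hjB
    rw [hB1, Finset.mem_filter, not_and, not_lt] at h1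
    rw [hB2, Finset.mem_filter, not_and, not_lt] at h2
    have h1' := h1 (Finset.mem_range.2 hj)
    have h2' := h2 (Finset.mem_range.2 hj)
    refine ⟨h1', (row_count hl j).trans (add_le_add ?_ le_rfl)⟩
    rw [hδ]
    have h3 : ((V l u m n h j).card : ℝ) ≤ N0 := by exact_mod_cast h1'
    have h4 := mul_le_mul_of_nonneg_left h3 hl.le
    have h5 := mul_le_mul_of_nonneg_left h2' hl.le
    linarith
  let Z : ℕ → Finset (Fin κ) := fun a => univ.filter (fun z =>
    ((T ^ a * s0 : ℕ) : ℝ) * u / 2 ≤ N0 * (h z - m z * l - n z * u) ∧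
      h z - m z * l - n z * u ≤ (N0 + 2) * (((T ^ a * s0 : ℕ) : ℝ) * u))
  have hZsum : ∀ a ∈ range A0, (R : ℝ) * u / 8 ≤ ∑ z ∈ Z a, N0 * (h z - m z * l - n z * u) := by
    intro a ha
    rw [Finset.mem_range] at ha
    have hTa : T ^ a ≤ T ^ A0 := Nat.pow_le_pow_right hT1 ha.le
    have hTa1 : 1 ≤ T ^ a := Nat.one_le_pow _ _ hT1
    have hsR : ((T ^ a * s0 : ℕ) : ℝ) * (16 * N0) ≤ R := by
      have h1 : T ^ a * s0 * (16 * N0) ≤ s0 * M := by
        rw [hM]
        calc T ^ a * s0 * (16 * N0) ≤ T ^ A0 * s0 * (16 * N0) := by gcongr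
          _ = s0 * (16 * N0 * T ^ A0) := by ring
      have h2 : ((T ^ a * s0 * (16 * N0) : ℕ) : ℝ) ≤ ((s0 * M : ℕ) : ℝ) := by exact_mod_cast h1
      push_cast at h2 ⊢
      linarith
    have hss0 : (s0 : ℝ) ≤ ((T ^ a * s0 : ℕ) : ℝ) := by
      have : s0 ≤ T ^ a * s0 := Nat.le_mul_of_pos_left _ hTa1
      exact_mod_cast this
    have hspos : 0 < T ^ a * s0 := Nat.mul_pos hTa1 hs0pos
    have hsr : (0 : ℝ) < ((T ^ a * s0 : ℕ) : ℝ) := by exact_mod_cast hspos
    apply scale hl hu hdis hwal (T ^ a * s0) N0 δ (B1 ∪ B2) hBc _ hRpos' hgood _ _ hspos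
    · intro z h1 h2
      exact Finset.mem_filter.2 ⟨Finset.mem_univ _, h1, h2⟩
    · intro z hz
      exact (Finset.mem_filter.1 hz).2.1
    · have h1 : (16 : ℝ) * ((T ^ a * s0 : ℕ) : ℝ) ≤ ((T ^ a * s0 : ℕ) : ℝ) * (16 * N0) := by
        have := mul_le_mul_of_nonneg_left hN8 hsr.le
        linarith
      linarith
    · have h1 : (N0 : ℝ) * (((T ^ a * s0 : ℕ) : ℝ) * u) ≤ R * u / 16 := by
        have := mul_le_mul_of_nonneg_right hsR hu.le
        linarith
      have h2 : (0 : ℝ) < R * u := by positivity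
      linarith
    · have := mul_le_mul_of_nonneg_right hss0 hu.le
      linarith
  have hσ : ∀ z, 0 < h z - m z * l - n z * u := fun z => by linarith [hpos z]
  have hZd : ∀ a b, a < b → Disjoint (Z a) (Z b) := by
    intro a b hab
    rw [Finset.disjoint_left]
    intro z hza hzb
    have h1 := (Finset.mem_filter.1 hza).2.2
    have h2 := (Finset.mem_filter.1 hzb).2.1
    have h3 : T * (T ^ a * s0) ≤ T ^ b * s0 := by
      calc T * (T ^ a * s0) = T ^ (a + 1) * s0 := by ring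
        _ ≤ T ^ b * s0 := Nat.mul_le_mul_right _ (Nat.pow_le_pow_right hT1 hab)
    have h4 : (T : ℝ) * ((T ^ a * s0 : ℕ) : ℝ) ≤ ((T ^ b * s0 : ℕ) : ℝ) := by exact_mod_cast h3
    have hTr : (T : ℝ) = 2 * N0 * (N0 + 2) + 1 := by rw [hT]; push_cast; ring
    have hspos : 0 < T ^ a * s0 := Nat.mul_pos (Nat.one_le_pow _ _ hT1) hs0pos
    have hsr : (0 : ℝ) < ((T ^ a * s0 : ℕ) : ℝ) := by exact_mod_cast hspos
    rw [hTr] at h4
    have h5 := mul_le_mul_of_nonneg_right h4 hu.le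
    have h6 := mul_le_mul_of_nonneg_left h1 hN0pos.le
    have h7 : (0 : ℝ) < ((T ^ a * s0 : ℕ) : ℝ) * u := by positivity
    have h8 : ((T ^ b * s0 : ℕ) : ℝ) * u / 2 ≤
        N0 * ((N0 + 2) * (((T ^ a * s0 : ℕ) : ℝ) * u)) := h2.trans h6
    generalize ((T ^ a * s0 : ℕ) : ℝ) = A at *
    generalize ((T ^ b * s0 : ℕ) : ℝ) = B at *
    have h9 : (2 * (N0 : ℝ) * (N0 + 2) + 1) * A * u =
      2 * (N0 * ((N0 + 2) * (A * u))) + A * u := by ring
    linarith
  have hZd' : (↑(range A0) : Set ℕ).PairwiseDisjoint Z := by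
    intro a _ b _ hab
    rcases lt_or_gt_of_ne hab with h1 | h1
    · exact hZd a b h1
    · exact (hZd b a h1).symm
  have hfin : ∑ a ∈ range A0, (R : ℝ) * u / 8 ≤ ∑ z, N0 * (h z - m z * l - n z * u) := by
    refine (Finset.sum_le_sum hZsum).trans ?_
    rw [← Finset.sum_biUnion hZd']
    apply Finset.sum_le_sum_of_subset_of_nonneg (Finset.subset_univ _)
    intro z _ _
    exact mul_nonneg hN0pos.le (hσ z).le
  rw [Finset.sum_const, Finset.card_range, nsmul_eq_mul, ← Finset.mul_sum] at hfin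
  have hfin2 : ∑ z, (h z - (m z : ℝ) * l - (n z : ℝ) * u) ≤ u * (K' * R) := by
    have h1 : ∑ z, (h z - (m z : ℝ) * l - (n z : ℝ) * u) / u ≤ K' * R := by
      refine le_trans (Finset.sum_le_sum ?_) hsum'
      intro z _
      linarith
    rw [← Finset.sum_div, div_le_iff₀ hu] at h1
    linarith
  have h1 : (A0 : ℝ) * (R * u / 8) ≤ N0 * (u * (K' * R)) :=
    hfin.trans (mul_le_mul_of_nonneg_left hfin2 hN0pos.le)
  have h2 : (R * u) * (A0 : ℝ) ≤ (R * u) * (8 * N0 * K') := by linarith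
  have h3 := le_of_mul_le_mul_left h2 (by positivity)
  linarith

end Pool.Agent.TH461.SST.Comb
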