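import Mathlib
import Pool.Agent.TH461.SST.Stms
import Pool.Agent.H819.Gasket7
import Pool.Agent.H847R3.SuppB
import Pool.Agent.H706R2.NonConc3

set_option autoImplicit false

open Finset Filter Topology

namespace Pool.Agent.TH461.SST.Grow

open Pool.Agent.TH461.SST
open Pool.Agent.H706R2 (dZ X G G_mono G_zero G_at disj_of_sep abs_shift_le)

/-- one step of the growth -/
theorem step {p q : ℕ} (hp : 2 ≤ p) (hq : 2 ≤ q) {r c4 C5 : ℝ} (hC5 : 0 < C5) {H : ℕ}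
    (hH : 1 ≤ H) {L0 : ℝ}
    (hL0 : ∀ L : ℝ, L0 ≤ L → ∀ θ : ℝ, r ≤ dZ θ → ∃ S : Finset (ℤ × ℤ),
      c4 / ((H : ℝ)⁻¹) ^ 2 ≤ (S.card : ℝ) ∧
      (∀ c ∈ S, r ≤ dZ (X p q θ c) ∧ |(c.1 : ℝ)| * Real.log p ≤ C5 * L ∧
        |(c.2 : ℝ)| * Real.log q ≤ C5 * L) ∧
      ∀ c ∈ S, ∀ c' ∈ S, c ≠ c' → 2 * (H : ℝ)⁻¹ * L < |(c.1 : ℝ) - c'.1| * Real.log p ∨
        2 * (H : ℝ)⁻¹ * L < |(c.2 : ℝ) - c'.2| * Real.log q)
    {K : ℕ} (hK : C5 + 1 ≤ K) {R : ℝ} (hR0 : 0 < R) (hR : L0 ≤ R * H) {N : ℕ}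
    (hG : G p q r R N) :
    G p q r (((K * H : ℕ) : ℝ) * R) (⌊c4 * (H : ℝ) ^ 2⌋₊ * N) := by
  classical
  have hlp : 0 < Real.log p := Real.log_pos (by exact_mod_cast (by omega : 1 < p))
  have hlq : 0 < Real.log q := Real.log_pos (by exact_mod_cast (by omega : 1 < q))
  have hH1 : (1 : ℝ) ≤ H := by exact_mod_cast hH
  have hH0 : (0 : ℝ) < H := by linarith
  intro θ hθ
  obtain ⟨S, hS1, hS2, hS3⟩ := hL0 (R * H) hR θ hθ
  have hpt : ∀ c ∈ S, ∃ T : Finset (ℤ × ℤ), N ≤ T.card ∧ ∀ d ∈ T, r ≤ dZ (X p q θ d) ∧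
      |(d.1 : ℝ) - c.1| * Real.log p ≤ R ∧ |(d.2 : ℝ) - c.2| * Real.log q ≤ R := fun c hc =>
    G_at (by omega) (by omega) hG (hS2 c hc).1
  choose! T hT1 hT2 using hpt
  have hdisj : ∀ c ∈ S, ∀ c' ∈ S, c ≠ c' → Disjoint (T c) (T c') := by
    intro c hc c' hc' hne
    have e : 2 * (H : ℝ)⁻¹ * (R * H) = R + R := by
      field_simp
      ring
    have h1 := hS3 c hc c' hc' hne
    rw [e] at h1
    exact disj_of_sep hlp.le hlq.le (fun d hd => (hT2 c hc d hd).2)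
      (fun d hd => (hT2 c' hc' d hd).2) h1
  refine ⟨S.biUnion T, ?_, ?_⟩
  · rw [card_biUnion hdisj]
    have h1 : ⌊c4 * (H : ℝ) ^ 2⌋₊ ≤ S.card := by
      have e : c4 / ((H : ℝ)⁻¹) ^ 2 = c4 * (H : ℝ) ^ 2 := by
        rw [inv_pow, div_inv_eq_mul]
      rw [e] at hS1
      have h2 := Nat.floor_le_floor hS1
      rwa [Nat.floor_natCast] at h2
    calc ⌊c4 * (H : ℝ) ^ 2⌋₊ * N ≤ S.card * N := Nat.mul_le_mul_right _ h1
      _ = ∑ _c ∈ S, N := by rw [sum_const, smul_eq_mul]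
      _ ≤ ∑ c ∈ S, (T c).card := sum_le_sum fun c hc => hT1 c hc
  · intro d hd
    obtain ⟨c, hc, hdc⟩ := mem_biUnion.1 hd
    obtain ⟨h1, h2, h3⟩ := hT2 c hc d hdc
    obtain ⟨_, h4, h5⟩ := hS2 c hc
    have hbound : R + C5 * (R * H) ≤ ((K * H : ℕ) : ℝ) * R := by
      push_cast
      have h6 : R ≤ R * H := le_mul_of_one_le_right hR0.le hH1
      have h7 : (C5 + 1) * (R * H) ≤ K * (R * H) :=
        mul_le_mul_of_nonneg_right hK (by positivity)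
      nlinarith
    have key : ∀ (x z : ℤ) (l : ℝ), 0 < l → |(x : ℝ) - z| * l ≤ R → |(z : ℝ)| * l ≤ C5 * (R * H) →
        |(x : ℝ)| * l ≤ ((K * H : ℕ) : ℝ) * R := by
      intro x z l hl h8 h9
      have h10 : |(x : ℝ)| ≤ |(x : ℝ) - z| + |(z : ℝ)| := by
        have : (x : ℝ) = ((x : ℝ) - z) + z := by ring
        calc |(x : ℝ)| = |((x : ℝ) - z) + z| := by rw [← this]
          _ ≤ _ := abs_add_le _ _
      have h11 := mul_le_mul_of_nonneg_right h10 hl.le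
      rw [add_mul] at h11
      linarith
    exact ⟨h1, key d.1 c.1 _ hlp h2 h4, key d.2 c.2 _ hlq h3 h5⟩

theorem gr_mono {p q : ℕ} {s s' : ℝ} (h : s ≤ s') (hs : Pool.Agent.H847R3.XpXq.Gr p q s') :
    Pool.Agent.H847R3.XpXq.Gr p q s := by
  obtain ⟨r, hr, hrp, a, ha, b, hb, hG⟩ := hs
  refine ⟨r, hr, hrp, a, ha, b, hb, fun T hT => ?_⟩
  obtain ⟨N, h1, h2⟩ := hG T hT
  refine ⟨N, h1, le_trans ?_ h2⟩
  exact mul_le_mul_of_nonneg_left (Real.rpow_le_rpow_of_exponent_le hT h) hb.le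

theorem grow {p q : ℕ} (hp : 2 ≤ p) (hq : 2 ≤ q) (hpq : Nat.Coprime p q) {r : ℝ} (hr : 0 < r) (hrp : ((p : ℝ) + 1) * r ≤ 1) (hrq : ((q : ℝ) + 1) * r ≤ 1) (hstep : StepStmt p q r) : ∀ s : ℝ, s < 2 → Pool.Agent.H847R3.XpXq.Gr p q s := by
  intro s hs
  obtain ⟨c4, hc4, C5, hC5, hst⟩ := hstep
  set K := ⌈C5 + 1⌉₊ with hK
  have hK1 : C5 + 1 ≤ K := Nat.le_ceil _
  have hK0 : (1 : ℝ) < K := by linarith
  have hK2 : 1 ≤ K := by
    have : (0 : ℝ) < K := by linarith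
    exact_mod_cast this
  -- choice of `H`
  have hlog : Tendsto (fun H : ℕ => Real.log (H : ℝ)) atTop atTop :=
    Real.tendsto_log_atTop.comp tendsto_natCast_atTop_atTop
  have hev := (((eventually_ge_atTop 2).and
    (tendsto_natCast_atTop_atTop.eventually_ge_atTop (2 / c4))).and
    (hlog.eventually_ge_atTop ((s * Real.log K - Real.log (c4 / 2)) / (2 - s))))
  obtain ⟨H, ⟨hH1, hH2⟩, hH3⟩ := hev.exists
  have hHR : (2 : ℝ) ≤ H := by exact_mod_cast hH1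
  have hH0 : (0 : ℝ) < H := by linarith
  have hcH : 2 ≤ c4 * (H : ℝ) ^ 2 := by
    rw [div_le_iff₀ hc4] at hH2
    nlinarith
  set B := ⌊c4 * (H : ℝ) ^ 2⌋₊ with hB
  have hB2 : 2 ≤ B := Nat.le_floor (by exact_mod_cast hcH)
  have hBR : c4 / 2 * (H : ℝ) ^ 2 ≤ B := by
    have := Nat.lt_floor_add_one (c4 * (H : ℝ) ^ 2)
    rw [← hB] at this
    linarith
  have hA2 : 2 ≤ K * H := by nlinarith
  have hexp : s ≤ Real.log B / Real.log ((K * H : ℕ) : ℝ) := by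
    have hA2R : (2 : ℝ) ≤ ((K * H : ℕ) : ℝ) := by exact_mod_cast hA2
    have hlA : 0 < Real.log ((K * H : ℕ) : ℝ) := Real.log_pos (by linarith)
    rw [le_div_iff₀ hlA]
    have h1 : Real.log ((K * H : ℕ) : ℝ) = Real.log K + Real.log H := by
      push_cast
      rw [Real.log_mul (by positivity) hH0.ne']
    have h2 : Real.log (c4 / 2) + 2 * Real.log H ≤ Real.log B := by
      have h3 : Real.log (c4 / 2 * (H : ℝ) ^ 2) ≤ Real.log B :=
        Real.log_le_log (by positivity) hBR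
      rw [Real.log_mul (by positivity) (by positivity), Real.log_pow] at h3
      push_cast at h3
      exact h3
    rw [div_le_iff₀ (by linarith)] at hH3
    rw [h1]
    nlinarith
  refine gr_mono hexp ?_
  -- the growth
  have hHinv : 0 < (H : ℝ)⁻¹ := by positivity
  have hHinv1 : (H : ℝ)⁻¹ < 1 := inv_lt_one_of_one_lt₀ (by linarith)
  obtain ⟨L0, hL0⟩ := hst (H : ℝ)⁻¹ hHinv hHinv1
  set c := max L0 1 with hc
  have hc1 : 1 ≤ c := le_max_right _ _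
  have hcL : L0 ≤ c := le_max_left _ _
  refine Pool.Agent.H847R3.XpXq.gr_of_pow hr hrp hA2 hB2 (c := c) (by linarith) ?_
  intro j
  induction j with
  | zero =>
    simp only [pow_zero, mul_one]
    exact G_mono G_zero (by linarith) le_rfl
  | succ j ih =>
    have hAj : (1 : ℝ) ≤ (((K * H : ℕ) : ℝ)) ^ j := by
      apply one_le_pow₀
      have : 1 ≤ K * H := by omega
      exact_mod_cast this
    have hR0 : 0 < c * (((K * H : ℕ) : ℝ)) ^ j := by positivity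
    have hR : L0 ≤ c * (((K * H : ℕ) : ℝ)) ^ j * H := by
      have h1 : c ≤ c * (((K * H : ℕ) : ℝ)) ^ j := le_mul_of_one_le_right (by linarith) hAj
      have h2 : c * (((K * H : ℕ) : ℝ)) ^ j ≤ c * (((K * H : ℕ) : ℝ)) ^ j * H :=
        le_mul_of_one_le_right hR0.le (by linarith)
      linarith
    have h3 := step hp hq hC5 (by omega) hL0 hK1 hR0 hR ih
    have e1 : ((K * H : ℕ) : ℝ) * (c * (((K * H : ℕ) : ℝ)) ^ j) =
        c * (((K * H : ℕ) : ℝ)) ^ (j + 1) := by ring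
    have e2 : B * B ^ j = B ^ (j + 1) := by ring
    rw [e1, ← hB, e2] at h3
    exact h3

end Pool.Agent.TH461.SST.Grow
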