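import Mathlib
import Pool.Agent.TH461.SST.Stms

set_option autoImplicit false

open Finset Filter Topology

namespace Pool.Agent.TH461.SST.LD

open Pool.Agent.TH461.SST

/-- restriction of coordinates to a finite set -/
noncomputable def res {k : ℕ} (K : Submodule ℚ (Fin k → ℚ)) (B : Finset (Fin k)) :
    K →ₗ[ℚ] (B → ℚ) where
  toFun c := fun b => (c : Fin k → ℚ) b
  map_add' _ _ := rfl
  map_smul' _ _ := rfl

/-- a set of coordinates which separates `K` has at least `dim K` elements -/
theorem le_card {k : ℕ} (K : Submodule ℚ (Fin k → ℚ)) (B : Finset (Fin k))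
    (h : ∀ c ∈ K, (∀ i ∈ B, c i = 0) → c = 0) : Module.finrank ℚ K ≤ B.card := by
  have hinj : Function.Injective (res K B) := by
    rw [← LinearMap.ker_eq_bot, LinearMap.ker_eq_bot']
    intro c hc
    apply Subtype.ext
    apply h c c.2
    intro i hi
    exact congrFun hc ⟨i, hi⟩
  have := LinearMap.finrank_le_finrank_of_injective hinj
  simpa using this

/-- fewer coordinates than the dimension do not separate -/
theorem exists_ne {k : ℕ} (K : Submodule ℚ (Fin k → ℚ)) (B : Finset (Fin k))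
    (h : B.card < Module.finrank ℚ K) : ∃ c ∈ K, c ≠ 0 ∧ ∀ i ∈ B, c i = 0 := by
  by_contra hcon
  push Not at hcon
  have := le_card K B (fun c hc h0 => by
    by_contra hne
    obtain ⟨i, hi, h1⟩ := hcon c hc hne
    exact h1 (h0 i hi))
  omega

/-- the elements of `K` with vanishing coordinate `i` -/
def cut {k : ℕ} (K : Submodule ℚ (Fin k → ℚ)) (i : Fin k) : Submodule ℚ (Fin k → ℚ) :=
  K ⊓ LinearMap.ker (LinearMap.proj (R := ℚ) (φ := fun _ : Fin k => ℚ) i)

theorem mem_cut {k : ℕ} {K : Submodule ℚ (Fin k → ℚ)} {i : Fin k} {c : Fin k → ℚ} :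
    c ∈ cut K i ↔ c ∈ K ∧ c i = 0 := by
  simp [cut]

theorem finrank_cut {k : ℕ} (K : Submodule ℚ (Fin k → ℚ)) (i : Fin k)
    (h : ∃ c ∈ K, c i ≠ 0) : Module.finrank ℚ (cut K i) + 1 = Module.finrank ℚ K := by
  obtain ⟨c0, hc0, hi⟩ := h
  let f : K →ₗ[ℚ] ℚ := (LinearMap.proj (R := ℚ) (φ := fun _ : Fin k => ℚ) i).comp K.subtype
  have h1 : LinearMap.range f = ⊤ := by
    rw [LinearMap.range_eq_top]
    apply LinearMap.surjective
    intro h0
    exact hi (by simpa [f] using LinearMap.congr_fun h0 ⟨c0, hc0⟩)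
  have h2 := LinearMap.finrank_range_add_finrank_ker f
  rw [h1, finrank_top, Module.finrank_self] at h2
  have h3 : Module.finrank ℚ (LinearMap.ker f) = Module.finrank ℚ (cut K i) := by
    have e : (LinearMap.ker f).map K.subtype = cut K i := by
      ext c
      rw [mem_cut]
      constructor
      · rintro ⟨x, hx, rfl⟩
        exact ⟨x.2, by simpa [f] using hx⟩
      · rintro ⟨hc, h0⟩
        exact ⟨⟨c, hc⟩, by simpa [f] using h0, rfl⟩
    rw [← e]
    exact (LinearEquiv.finrank_eq
      (Submodule.equivMapOfInjective K.subtype K.subtype_injective (LinearMap.ker f)))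
  omega

theorem not_mem {k : ℕ} {K : Submodule ℚ (Fin k → ℚ)} {i : Fin k} {B : Finset (Fin k)}
    (h : Cob (cut K i) B) : i ∉ B := by
  intro hi
  have h1 := le_card (cut K i) (B.erase i) (fun c hc h0 => h.2 c hc (fun j hj => by
    by_cases hji : j = i
    · subst hji; exact (mem_cut.1 hc).2
    · exact h0 j (Finset.mem_erase.2 ⟨hji, hj⟩)))
  have h2 := Finset.card_erase_lt_of_mem hi
  have h3 := h.1
  omega

theorem cob_insert {k : ℕ} {K : Submodule ℚ (Fin k → ℚ)} {i : Fin k} {B : Finset (Fin k)}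
    (hi : ∃ c ∈ K, c i ≠ 0) (h : Cob (cut K i) B) : Cob K (insert i B) := by
  refine ⟨?_, ?_⟩
  · rw [Finset.card_insert_of_notMem (not_mem h), h.1, finrank_cut K i hi]
  · intro c hc h0
    exact h.2 c (mem_cut.2 ⟨hc, h0 i (Finset.mem_insert_self _ _)⟩)
      (fun j hj => h0 j (Finset.mem_insert_of_mem hj))

theorem ld : LDStmt := by
  classical
  intro k K ξ η χ hχ hmin
  generalize hn : Module.finrank ℚ K = n
  induction n generalizing K with
  | zero =>
    intro _
    have h0 : ∀ c ∈ K, c = 0 := by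
      have : K = ⊥ := Submodule.finrank_eq_zero.1 hn
      intro c hc
      rw [this] at hc
      exact (Submodule.mem_bot ℚ).1 hc
    have hc : Cob K ∅ := ⟨by simp [hn], fun c hc _ => h0 c hc⟩
    exact ⟨∅, ∅, ∅, hc, hc, hc, by simp⟩
  | succ n ih =>
    intro hrel
    -- the support
    let S : Finset (Fin k) := Finset.univ.filter (fun i => ∃ c ∈ K, c i ≠ 0)
    have hS : S.Nonempty := by
      obtain ⟨c, hc, hne, _⟩ := exists_ne K ∅ (by rw [hn]; simp)
      obtain ⟨i, hi⟩ := Function.ne_iff.1 hne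
      exact ⟨i, by simpa [S] using ⟨c, hc, hi⟩⟩
    obtain ⟨i0, hi0, hmax⟩ := S.exists_max_image ξ hS
    let S' : Finset (Fin k) := S.filter (fun i => ξ i = ξ i0)
    have hS' : S'.Nonempty := ⟨i0, by simp [S', hi0]⟩
    obtain ⟨i, hi, hηmin⟩ := S'.exists_min_image η hS'
    have hiS : i ∈ S := (Finset.mem_filter.1 hi).1
    have hξi : ξ i = ξ i0 := (Finset.mem_filter.1 hi).2
    have hex : ∃ c ∈ K, c i ≠ 0 := by simpa [S] using hiS
    have hfr := finrank_cut K i hex
    obtain ⟨Bh, Bx, By, h1, h2, h3, h4⟩ := ih (cut K i) (by omega)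
      (fun c hc => hrel c (mem_cut.1 hc).1)
    obtain ⟨c, hc, hne, hvan⟩ := exists_ne K By (by rw [h3.1]; omega)
    have hci : c i ≠ 0 := fun h0 => hne (h3.2 c (mem_cut.2 ⟨hc, h0⟩) hvan)
    obtain ⟨j, hji, hcj, hξ⟩ := hrel c hc i hci
    have hjS : j ∈ S := by simpa [S] using ⟨c, hc, hcj⟩
    have hξj : ξ j = ξ i := le_antisymm (by rw [hξi]; exact hmax j hjS) hξ
    have hηj : η i ≤ η j := hηmin j (by simp [S', hjS, hξj, hξi])
    have hjB : j ∉ By := fun h0 => hcj (hvan j h0)
    refine ⟨insert i Bh, insert i Bx, insert j By, cob_insert hex h1, cob_insert hex h2, ?_, ?_⟩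
    · refine ⟨by rw [Finset.card_insert_of_notMem hjB, h3.1]; omega, ?_⟩
      intro c' hc' h0
      have hz : c' - (c' i / c i) • c = 0 := by
        apply h3.2
        · refine mem_cut.2 ⟨K.sub_mem hc' (K.smul_mem _ hc), ?_⟩
          simp [div_mul_cancel₀ _ hci]
        · intro l hl
          simp [h0 l (Finset.mem_insert_of_mem hl), hvan l hl]
      have hc'eq : c' = (c' i / c i) • c := sub_eq_zero.1 hz
      have hj0 : (c' i / c i) * c j = 0 := by
        have := congrFun hc'eq j
        rw [h0 j (Finset.mem_insert_self _ _)] at this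
        simpa using this.symm
      rcases mul_eq_zero.1 hj0 with h5 | h5
      · rw [hc'eq, h5, zero_smul]
      · exact absurd h5 hcj
    · rw [Finset.sum_insert (not_mem h1), Finset.sum_insert (not_mem h2),
        Finset.sum_insert hjB]
      have h5 := hmin i j hji.symm
      have h6 := hχ j
      rw [hξj, max_self, max_eq_right hηj] at h5
      rw [hξj] at h6
      have h7 : χ i ≤ ξ i + η j := by
        by_cases h9 : χ i ≤ χ j
        · rwa [min_eq_left h9] at h5
        · rw [min_eq_right (le_of_not_ge h9)] at h5; linarith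
      linarith
end Pool.Agent.TH461.SST.LD
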