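import Mathlib
import Pool.Agent.TH461.SST.Stms
import Pool.Agent.TH461.SST.Window
import Pool.Agent.H706R2.NonConc2

/-!
# The window with a far origin: many far cells, or a long wall
-/

set_option autoImplicit false

open Finset Filter Topology

namespace Pool.Agent.TH461.SST.Open

open Pool.Agent.TH461.SST
open Pool.Agent.TH461.SST.Tri
open Pool.Agent.H706R2 (dZ)

open Classical in
/-- the number of cells of a triangle -/
lemma card_tri {l u : ℝ} (hl : 0 < l) (hu : 0 < u) (W : Finset (ℕ × ℕ)) (m n : ℕ) (h : ℝ)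
    (hs : 0 < h - m * l - n * u) :
    ((W.filter (fun x => InT l u m n h x.1 x.2)).card : ℝ) ≤
      ((h - m * l - n * u) / l + 1) * ((h - m * l - n * u) / u + 1) := by
  set s : ℝ := h - m * l - n * u with hs_def
  have h1 : W.filter (fun x => InT l u m n h x.1 x.2) ⊆
      Ico m (m + ⌈s / l⌉₊) ×ˢ Ico n (n + ⌈s / u⌉₊) := by
    intro x hx
    rw [Finset.mem_filter] at hx
    obtain ⟨-, h2, h3, h4⟩ := hx
    rw [Finset.mem_product, Finset.mem_Ico, Finset.mem_Ico]
    have h2' : (m : ℝ) ≤ x.1 := by exact_mod_cast h2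
    have h3' : (n : ℝ) ≤ x.2 := by exact_mod_cast h3
    have h5 : (x.1 : ℝ) - m < s / l := by
      rw [lt_div_iff₀ hl, hs_def]
      nlinarith
    have h6 : (x.2 : ℝ) - n < s / u := by
      rw [lt_div_iff₀ hu, hs_def]
      nlinarith
    have h7 := Nat.le_ceil (s / l)
    have h8 := Nat.le_ceil (s / u)
    refine ⟨⟨h2, ?_⟩, ⟨h3, ?_⟩⟩
    · have : (x.1 : ℝ) < ((m + ⌈s / l⌉₊ : ℕ) : ℝ) := by push_cast; linarith
      exact_mod_cast this
    · have : (x.2 : ℝ) < ((n + ⌈s / u⌉₊ : ℕ) : ℝ) := by push_cast; linarith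
      exact_mod_cast this
  have h2 := Finset.card_le_card h1
  rw [Finset.card_product, Nat.card_Ico, Nat.card_Ico, Nat.add_sub_cancel_left,
    Nat.add_sub_cancel_left] at h2
  have h3 : ((W.filter (fun x => InT l u m n h x.1 x.2)).card : ℝ) ≤
      (⌈s / l⌉₊ : ℝ) * (⌈s / u⌉₊ : ℝ) := by exact_mod_cast h2
  refine h3.trans ?_
  apply mul_le_mul (Nat.ceil_lt_add_one (by positivity)).le
    (Nat.ceil_lt_add_one (by positivity)).le (Nat.cast_nonneg _) (by positivity)

theorem openw {p q : ℕ} (hp : 2 ≤ p) (hq : 2 ≤ q) (hpq : Nat.Coprime p q) {r : ℝ} (hr : 0 < r) (hrp : ((p : ℝ) + 1) * r ≤ 1) (hrq : ((q : ℝ) + 1) * r ≤ 1) (hcl : ClusterStmt p q) : OpenStmt p q r := by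
  classical
  have hl := log_pos' hp
  have hu := log_pos' hq
  set ρ : ℝ := Real.log q / Real.log p with hρ
  have hρ0 : 0 < ρ := by positivity
  refine ⟨min (1 / 80) (ρ / 80), lt_min (by norm_num) (by positivity), ρ / 2, by positivity, ?_⟩
  intro η hη
  set η0 : ℝ := min η (ρ / 8) with hη0
  have hη0pos : 0 < η0 := lt_min hη (by positivity)
  obtain ⟨K, hK, R0w, hR0w, hwin⟩ := window hp hq hpq hr hrp hcl hη0pos
  refine ⟨max R0w (max ⌈41 / ρ⌉₊ ⌈2 / ρ + K⌉₊), ?_⟩
  intro R C hR hC1 hC2 θ₀ hθ₀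
  have hRw : R0w ≤ R := (le_max_left _ _).trans hR
  have hR4 : 41 / ρ ≤ R := by
    refine (Nat.le_ceil _).trans ?_
    exact_mod_cast ((le_max_left _ _).trans (le_max_right _ _)).trans hR
  have hRK : 2 / ρ + K ≤ R := by
    refine (Nat.le_ceil _).trans ?_
    exact_mod_cast ((le_max_right _ _).trans (le_max_right _ _)).trans hR
  have hRpos : (1 : ℝ) ≤ R := by exact_mod_cast hR0w.trans hRw
  obtain ⟨k, hk1, hk2⟩ := exists_shift θ₀
  set θ : ℝ := θ₀ + k with hθ
  set l := Real.log p with hl_def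
  set u := Real.log q with hu_def
  have hul : u = ρ * l := by rw [hρ]; field_simp
  obtain ⟨Z, hZ, hZc, hZs, hZw⟩ := hwin R C hRw hC1 hC2 θ hk1 hk2 _ rfl
  set N : ℝ := C * l + R * u with hN
  have hNR : R * u < N := by
    rw [hN]
    have : 0 < (R : ℝ) * u := by positivity
    linarith
  have hfar0 : Far p q r θ 0 0 := by
    rw [hθ, far_shift]
    unfold Far
    simpa using hθ₀
  by_cases hcase : ∃ t ∈ Z, 1 / 80 * N ≤ size p q r θ N t
  · right
    obtain ⟨t, ht, hts⟩ := hcase
    obtain ⟨hred, hmC, hnR, hsz⟩ := hZ t ht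
    have hne : ¬ (t.2.1 = 0 ∧ t.2.2 = 0) := by
      rintro ⟨h1, h2⟩
      have hin : InT l u t.2.1 t.2.2 (lev p q r θ N t) 0 0 := by
        refine ⟨by omega, by omega, ?_⟩
        unfold size at hsz
        rw [h1, h2] at hsz
        push_cast at hsz ⊢
        linarith
      exact ((inT_iff hp hq hr).1 hin).2.not_far hp hq hr hrp hfar0
    by_cases hm : t.2.1 = 0
    · right
      have hn : 1 ≤ t.2.2 := by
        by_contra hcon
        exact hne ⟨hm, by omega⟩
      refine ⟨t.2.1, t.2.2 - 1, hmC.le, by omega, ?_⟩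
      intro i hi1 hi2
      rw [← far_shift p q r θ₀ k]
      refine below_far hp hq hpq hr hrp hrq hred ?_ hn
      refine ((inT_iff hp hq hr (N := N)).1 ⟨hi1, le_rfl, ?_⟩).2
      unfold size at hts
      have h1 : ((i : ℝ) - t.2.1) * l ≤ (ρ / 80 * R) * l := by
        apply mul_le_mul_of_nonneg_right _ hl.le
        have h2 : min (1 / 80) (ρ / 80) * (R : ℝ) ≤ ρ / 80 * R :=
          mul_le_mul_of_nonneg_right (min_le_right _ _) (by positivity)
        linarith
      have h2 : (ρ / 80 * R) * l = 1 / 80 * (R * u) := by rw [hul]; ring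
      have h3 : 1 / 80 * ((R : ℝ) * u) < 1 / 80 * N := by linarith
      rw [← hl_def, ← hu_def]
      rw [← hl_def, ← hu_def] at hts
      linarith
    · left
      refine ⟨t.2.1 - 1, t.2.2, by omega, hnR.le, ?_⟩
      intro j hj1 hj2
      rw [← far_shift p q r θ₀ k]
      refine left_far hp hq hpq hr hrp hred ?_ (by omega)
      refine ((inT_iff hp hq hr (N := N)).1 ⟨le_rfl, hj1, ?_⟩).2
      unfold size at hts
      have h1 : ((j : ℝ) - t.2.2) * u ≤ (1 / 80 * R) * u := by
        apply mul_le_mul_of_nonneg_right _ hu.le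
        have h2 : min (1 / 80) (ρ / 80) * (R : ℝ) ≤ 1 / 80 * R :=
          mul_le_mul_of_nonneg_right (min_le_left _ _) (by positivity)
        linarith
      have h3 : 1 / 80 * ((R : ℝ) * u) < 1 / 80 * N := by linarith
      rw [← hl_def, ← hu_def]
      rw [← hl_def, ← hu_def] at hts
      linarith
  · left
    push Not at hcase
    set W : Finset (ℕ × ℕ) := range C ×ˢ range R with hW
    have hWc : (W.card : ℝ) = C * R := by
      rw [hW, Finset.card_product, Finset.card_range, Finset.card_range]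
      push_cast; ring
    set S := W.filter (fun x => ∀ t ∈ Z,
      ¬ InT l u t.2.1 t.2.2 (lev p q r θ N t) x.1 x.2) with hS
    set S' := W.filter (fun x => ¬ ∀ t ∈ Z,
      ¬ InT l u t.2.1 t.2.2 (lev p q r θ N t) x.1 x.2) with hS'
    have hSS : (S.card : ℝ) + S'.card = W.card := by
      exact_mod_cast Finset.card_filter_add_card_filter_not _
    have hcov : S' ⊆ Z.biUnion (fun t => W.filter
        (fun x => InT l u t.2.1 t.2.2 (lev p q r θ N t) x.1 x.2)) := by
      intro x hx
      rw [hS', Finset.mem_filter] at hx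
      obtain ⟨hx1, hx2⟩ := hx
      push Not at hx2
      obtain ⟨t, ht, hin⟩ := hx2
      rw [Finset.mem_biUnion]
      exact ⟨t, ht, Finset.mem_filter.2 ⟨hx1, hin⟩⟩
    have hNup : N ≤ 2 * R * u + l := by rw [hN]; linarith
    have hN0 : 0 < N := lt_trans (by positivity) hNR
    have hS'c : (S'.card : ℝ) ≤ (1 / 80 * N / l + 1) * (2 * N / u + K) := by
      have h1 : (S'.card : ℝ) ≤ ∑ t ∈ Z, ((W.filter
          (fun x => InT l u t.2.1 t.2.2 (lev p q r θ N t) x.1 x.2)).card : ℝ) := by
        exact_mod_cast (Finset.card_le_card hcov).trans Finset.card_biUnion_le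
      refine h1.trans ?_
      have h2 : ∀ t ∈ Z, ((W.filter
          (fun x => InT l u t.2.1 t.2.2 (lev p q r θ N t) x.1 x.2)).card : ℝ) ≤
          (1 / 80 * N / l + 1) * (size p q r θ N t / u + 1) := by
        intro t ht
        obtain ⟨-, -, -, hsz⟩ := hZ t ht
        have h3 := card_tri hl hu W t.2.1 t.2.2 (lev p q r θ N t) hsz
        refine h3.trans ?_
        have h4 := (hcase t ht).le
        apply mul_le_mul_of_nonneg_right
        · have : (lev p q r θ N t - (t.2.1 : ℝ) * l - (t.2.2 : ℝ) * u) / l ≤ 1 / 80 * N / l :=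
            div_le_div_of_nonneg_right h4 hl.le
          linarith
        · have : 0 < size p q r θ N t / u := by positivity
          unfold size at this
          rw [← hl_def, ← hu_def] at this
          linarith
      refine (Finset.sum_le_sum h2).trans ?_
      rw [← Finset.mul_sum]
      apply mul_le_mul_of_nonneg_left _ (by positivity)
      rw [Finset.sum_add_distrib, Finset.sum_const, nsmul_eq_mul, mul_one, ← Finset.sum_div]
      have : (∑ t ∈ Z, size p q r θ N t) / u ≤ 2 * N / u :=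
        div_le_div_of_nonneg_right hZs hu.le
      linarith
    have h1 : 1 / 80 * N / l + 1 ≤ ρ * R / 40 + 81 / 80 := by
      have : N / l ≤ 2 * R * ρ + 1 := by
        rw [div_le_iff₀ hl]
        calc N ≤ 2 * R * u + l := hNup
          _ = (2 * R * ρ + 1) * l := by rw [hul]; ring
      have e : 1 / 80 * N / l = 1 / 80 * (N / l) := by ring
      rw [e]
      linarith
    have h2 : 2 * N / u + K ≤ 5 * R := by
      have : N / u ≤ 2 * R + 1 / ρ := by
        rw [div_le_iff₀ hu]
        calc N ≤ 2 * R * u + l := hNup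
          _ = (2 * R + 1 / ρ) * u := by rw [hul]; field_simp
      have e : 2 * N / u = 2 * (N / u) := by ring
      have e2 : 2 / ρ = 2 * (1 / ρ) := by ring
      rw [e]
      linarith
    have h3 : (S'.card : ℝ) ≤ ρ * (R : ℝ) ^ 2 / 4 := by
      have h4 : 0 ≤ 2 * N / u + K := by positivity
      have h5 : 41 ≤ ρ * R := by
        rw [div_le_iff₀ hρ0] at hR4
        linarith
      have h6 : (1 / 80 * N / l + 1) * (2 * N / u + K) ≤ (ρ * R / 40 + 81 / 80) * (5 * R) :=
        mul_le_mul h1 h2 h4 (by positivity)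
      have h7 : (ρ * R / 40 + 81 / 80) * (5 * R) ≤ ρ * (R : ℝ) ^ 2 / 4 := by
        nlinarith
      linarith
    have h4 : ρ * (R : ℝ) ^ 2 ≤ (W.card : ℝ) := by
      rw [hWc]
      have h5 : ρ * R ≤ (C : ℝ) := by
        have h6 : ρ * R * l ≤ C * l := by
          calc ρ * R * l = R * u := by rw [hul]; ring
            _ ≤ C * l := hC1
        exact le_of_mul_le_mul_right h6 hl
      nlinarith
    have h5 : 3 / 4 * (ρ * (R : ℝ) ^ 2) ≤ (S.card : ℝ) := by linarith
    have h6 := card_drop (η := η0) hη0pos.le S (Finset.filter_subset _ _)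
    have h7 : S.filter (fun x => η0 * R ≤ (x.1 : ℝ)) ⊆ W.filter
        (fun x => ∃ i' : ℕ, i' ≤ x.1 ∧ (x.1 : ℝ) ≤ i' + η * R ∧ Far p q r θ₀ i' x.2) := by
      intro x hx
      rw [Finset.mem_filter, hS, Finset.mem_filter] at hx
      obtain ⟨⟨hx1, hx2⟩, hx3⟩ := hx
      rw [Finset.mem_filter]
      refine ⟨hx1, ?_⟩
      obtain ⟨i', h8, h9, h10⟩ := hZw x hx1 hx3 hx2
      refine ⟨i', h8, h9.trans ?_, (far_shift p q r θ₀ k i' x.2).1 h10⟩
      have : η0 * R ≤ η * R := mul_le_mul_of_nonneg_right (min_le_left _ _) (by positivity)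
      linarith
    have h8 : ((S.filter (fun x => η0 * R ≤ (x.1 : ℝ))).card : ℝ) ≤
        ((W.filter (fun x => ∃ i' : ℕ, i' ≤ x.1 ∧ (x.1 : ℝ) ≤ i' + η * R ∧
          Far p q r θ₀ i' x.2)).card : ℝ) := by
      exact_mod_cast Finset.card_le_card h7
    have h9 : η0 ≤ ρ / 8 := min_le_right _ _
    have h10 : 8 ≤ ρ * R := by
      rw [div_le_iff₀ hρ0] at hR4
      linarith
    have h12 : (η0 * R + 1) * R ≤ ρ / 4 * (R : ℝ) ^ 2 := by nlinarith
    linarith

end Pool.Agent.TH461.SST.Open
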