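import Mathlib
import Pool.Agent.TH461.SST.Stms
import Pool.Agent.H706R2.NonConc2

set_option autoImplicit false

open Finset Filter Topology

namespace Pool.Agent.TH461.SST.Step

open Pool.Agent.TH461.SST
open Pool.Agent.H706R2 (dZ X X_shift)

/-- separation in one of the two coordinates -/
def Sep (l u ρ : ℝ) (c c' : ℤ × ℤ) : Prop :=
  ρ < |(c.1 : ℝ) - c'.1| * l ∨ ρ < |(c.2 : ℝ) - c'.2| * u

lemma Sep.symm {l u ρ : ℝ} {c c' : ℤ × ℤ} (h : Sep l u ρ c c') : Sep l u ρ c' c := by
  unfold Sep at *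
  rw [abs_sub_comm (c'.1 : ℝ), abs_sub_comm (c'.2 : ℝ)]
  exact h

/-- separated sets -/
def SepSet (l u ρ : ℝ) (S : Finset (ℤ × ℤ)) : Prop :=
  ∀ c ∈ S, ∀ c' ∈ S, c ≠ c' → Sep l u ρ c c'

lemma mem_box {l : ℝ} (hl : 0 < l) {x c : ℤ} {D : ℝ} (h : |(x : ℝ) - c| * l ≤ D) :
    x ∈ Finset.Icc (c - (⌊D / l⌋₊ : ℤ)) (c + (⌊D / l⌋₊ : ℤ)) := by
  have h1 : |(x : ℝ) - c| ≤ D / l := by rwa [le_div_iff₀ hl]
  have h2 : ((|x - c| : ℤ) : ℝ) ≤ D / l := by
    push_cast
    exact h1
  have h3 : (x - c).natAbs ≤ ⌊D / l⌋₊ := by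
    apply Nat.le_floor
    rw [Nat.cast_natAbs]
    exact h2
  rw [Finset.mem_Icc]
  constructor <;> omega

lemma pack {l u : ℝ} (hl : 0 < l) (hu : 0 < u) (P : ℤ × ℤ → Prop) (T : Finset (ℤ × ℤ))
    {ρ δ : ℝ} (hρ : 0 ≤ ρ) (hδ : 0 ≤ δ)
    (h : ∀ x ∈ T, ∃ c : ℤ × ℤ, P c ∧ |(x.1 : ℝ) - c.1| * l ≤ δ ∧ |(x.2 : ℝ) - c.2| * u ≤ δ) :
    ∃ S : Finset (ℤ × ℤ), (∀ c ∈ S, P c) ∧ (∀ c ∈ S, ∀ c' ∈ S, c ≠ c' → Sep l u ρ c c') ∧
      (T.card : ℝ) ≤ S.card * ((2 * ((ρ + δ) / l) + 1) * (2 * ((ρ + δ) / u) + 1)) := by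
  classical
  choose! f hf using h
  set E := T.image f with hE
  set Fam := E.powerset.filter (SepSet l u ρ) with hFam
  have hne : Fam.Nonempty := ⟨∅, by simp [hFam, SepSet]⟩
  obtain ⟨S, hS, hmax⟩ := Finset.exists_max_image Fam Finset.card hne
  have hS1 : S ⊆ E := by
    rw [hFam, Finset.mem_filter, Finset.mem_powerset] at hS
    exact hS.1
  have hS2 : ∀ c ∈ S, ∀ c' ∈ S, c ≠ c' → Sep l u ρ c c' := by
    rw [hFam, Finset.mem_filter] at hS
    exact hS.2
  have hclose : ∀ x ∈ T, ∃ s ∈ S, |((f x).1 : ℝ) - s.1| * l ≤ ρ ∧ |((f x).2 : ℝ) - s.2| * u ≤ ρ := by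
    intro x hx
    by_cases hm : f x ∈ S
    · refine ⟨f x, hm, ?_, ?_⟩ <;> simpa using hρ
    · by_contra hcon
      push Not at hcon
      have hsep : ∀ s ∈ S, Sep l u ρ (f x) s := by
        intro s hs
        unfold Sep
        by_contra hh
        push Not at hh
        have := hcon s hs hh.1
        linarith [hh.2]
      have hins : insert (f x) S ∈ Fam := by
        rw [hFam, Finset.mem_filter, Finset.mem_powerset]
        refine ⟨?_, ?_⟩
        · intro y hy
          rw [Finset.mem_insert] at hy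
          rcases hy with rfl | hy
          · exact Finset.mem_image_of_mem f hx
          · exact hS1 hy
        · intro c hc c' hc' hcc
          rw [Finset.mem_insert] at hc hc'
          rcases hc with rfl | hc <;> rcases hc' with rfl | hc'
          · exact absurd rfl hcc
          · exact hsep c' hc'
          · exact (hsep c hc).symm
          · exact hS2 c hc c' hc' hcc
      have := hmax _ hins
      rw [Finset.card_insert_of_notMem hm] at this
      omega
  set k1 := ⌊(ρ + δ) / l⌋₊ with hk1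
  set k2 := ⌊(ρ + δ) / u⌋₊ with hk2
  have hsub : T ⊆ S.biUnion (fun s => Finset.Icc (s.1 - (k1 : ℤ)) (s.1 + (k1 : ℤ)) ×ˢ
      Finset.Icc (s.2 - (k2 : ℤ)) (s.2 + (k2 : ℤ))) := by
    intro x hx
    obtain ⟨s, hs, h1, h2⟩ := hclose x hx
    obtain ⟨-, h3, h4⟩ := hf x hx
    rw [Finset.mem_biUnion]
    refine ⟨s, hs, ?_⟩
    rw [Finset.mem_product]
    refine ⟨mem_box hl ?_, mem_box hu ?_⟩
    · have : |(x.1 : ℝ) - s.1| ≤ |(x.1 : ℝ) - (f x).1| + |((f x).1 : ℝ) - s.1| := abs_sub_le _ _ _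
      have := mul_le_mul_of_nonneg_right this hl.le
      linarith
    · have : |(x.2 : ℝ) - s.2| ≤ |(x.2 : ℝ) - (f x).2| + |((f x).2 : ℝ) - s.2| := abs_sub_le _ _ _
      have := mul_le_mul_of_nonneg_right this hu.le
      linarith
  refine ⟨S, ?_, hS2, ?_⟩
  · intro c hc
    have := hS1 hc
    rw [hE, Finset.mem_image] at this
    obtain ⟨x, hx, rfl⟩ := this
    exact (hf x hx).1
  · have hcard : T.card ≤ S.card * ((2 * k1 + 1) * (2 * k2 + 1)) := by
      refine (Finset.card_le_card hsub).trans ?_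
      refine Finset.card_biUnion_le.trans ?_
      rw [← smul_eq_mul, ← Finset.sum_const]
      apply Finset.sum_le_sum
      intro s _
      rw [Finset.card_product, Int.card_Icc, Int.card_Icc]
      apply le_of_eq
      congr 1 <;> omega
    have h0 : 0 ≤ ρ + δ := by linarith
    have h1 : (k1 : ℝ) ≤ (ρ + δ) / l := Nat.floor_le (by positivity)
    have h2 : (k2 : ℝ) ≤ (ρ + δ) / u := Nat.floor_le (by positivity)
    calc (T.card : ℝ) ≤ ((S.card * ((2 * k1 + 1) * (2 * k2 + 1)) : ℕ) : ℝ) := by exact_mod_cast hcard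
      _ = (S.card : ℝ) * ((2 * k1 + 1) * (2 * k2 + 1)) := by push_cast; ring
      _ ≤ _ := by
        apply mul_le_mul_of_nonneg_left _ (by positivity)
        apply mul_le_mul (by linarith) (by linarith) (by positivity) (by positivity)

/-- from many points close to far points to many separated far points -/
lemma final {l u : ℝ} (hl : 0 < l) (hu : 0 < u) (P : ℤ × ℤ → Prop) (T : Finset (ℤ × ℤ))
    {η L c : ℝ} (hη : 0 < η) (hL1 : l ≤ η * L) (hL2 : u ≤ η * L)
    (hT : c * L ^ 2 ≤ T.card)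
    (h : ∀ x ∈ T, ∃ c : ℤ × ℤ, P c ∧ |(x.1 : ℝ) - c.1| * l ≤ η * L ∧
      |(x.2 : ℝ) - c.2| * u ≤ η * L) :
    ∃ S : Finset (ℤ × ℤ), (c * (l * u) / 49) / η ^ 2 ≤ (S.card : ℝ) ∧ (∀ c ∈ S, P c) ∧
      (∀ c ∈ S, ∀ c' ∈ S, c ≠ c' → Sep l u (2 * η * L) c c') := by
  have hηL : 0 < η * L := lt_of_lt_of_le hl hL1
  have hL : 0 < L := by
    by_contra hh
    push Not at hh
    have := mul_nonpos_of_nonneg_of_nonpos hη.le hh
    linarith
  obtain ⟨S, h1, h2, h3⟩ := pack hl hu P T (ρ := 2 * η * L) (δ := η * L) (by nlinarith) hηL.le h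
  refine ⟨S, ?_, h1, h2⟩
  have e1 : 2 * ((2 * η * L + η * L) / l) + 1 ≤ 7 * (η * L) / l := by
    rw [show 2 * ((2 * η * L + η * L) / l) = 6 * (η * L) / l by ring]
    have : 1 ≤ (η * L) / l := by rwa [one_le_div hl]
    have e : 7 * (η * L) / l = 6 * (η * L) / l + (η * L) / l := by ring
    linarith
  have e2 : 2 * ((2 * η * L + η * L) / u) + 1 ≤ 7 * (η * L) / u := by
    rw [show 2 * ((2 * η * L + η * L) / u) = 6 * (η * L) / u by ring]
    have : 1 ≤ (η * L) / u := by rwa [one_le_div hu]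
    have e : 7 * (η * L) / u = 6 * (η * L) / u + (η * L) / u := by ring
    linarith
  have e3 : (2 * ((2 * η * L + η * L) / l) + 1) * (2 * ((2 * η * L + η * L) / u) + 1) ≤
      49 * (η * L) ^ 2 / (l * u) := by
    have : 49 * (η * L) ^ 2 / (l * u) = (7 * (η * L) / l) * (7 * (η * L) / u) := by
      field_simp
      ring
    rw [this]
    apply mul_le_mul e1 e2 (by positivity) (by positivity)
  have e4 : c * L ^ 2 ≤ S.card * (49 * (η * L) ^ 2 / (l * u)) :=
    hT.trans (h3.trans (mul_le_mul_of_nonneg_left e3 (by positivity)))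
  rw [div_le_iff₀ (by positivity), div_le_iff₀ (by norm_num)]
  have e5 : (S.card : ℝ) * (49 * (η * L) ^ 2 / (l * u)) = (S.card * η ^ 2 * 49) * L ^ 2 / (l * u) := by
    ring
  rw [e5, le_div_iff₀ (by positivity)] at e4
  have e6 : (c * (l * u)) * L ^ 2 ≤ (S.card * η ^ 2 * 49) * L ^ 2 := by linarith
  exact le_of_mul_le_mul_right e6 (by positivity)

lemma far_iff {p q : ℕ} {r θ : ℝ} {i j : ℕ} :
    Far p q r θ i j ↔ r ≤ dZ (X p q θ ((i : ℤ), (j : ℤ))) := by
  unfold Far X
  simp only [zpow_natCast]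

lemma X_swap {p q : ℕ} {θ : ℝ} (a b : ℤ) : X p q θ (a, b) = X q p θ (b, a) := by
  unfold X; ring

/-- the conclusion of the step for one `θ` -/
def Concl (p q : ℕ) (r θ η L c C5 : ℝ) : Prop :=
  ∃ S : Finset (ℤ × ℤ), c / η ^ 2 ≤ (S.card : ℝ) ∧
    (∀ c ∈ S, r ≤ dZ (X p q θ c) ∧ |(c.1 : ℝ)| * Real.log p ≤ C5 * L ∧
      |(c.2 : ℝ)| * Real.log q ≤ C5 * L) ∧
    ∀ c ∈ S, ∀ c' ∈ S, c ≠ c' → Sep (Real.log p) (Real.log q) (2 * η * L) c c'

lemma Concl.swap {p q : ℕ} {r θ η L c C5 : ℝ} (h : Concl p q r θ η L c C5) :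
    Concl q p r θ η L c C5 := by
  obtain ⟨S, h1, h2, h3⟩ := h
  refine ⟨S.map ⟨Prod.swap, Prod.swap_injective⟩, by simpa using h1, ?_, ?_⟩
  · intro c hc
    rw [Finset.mem_map] at hc
    obtain ⟨d, hd, rfl⟩ := hc
    obtain ⟨h4, h5, h6⟩ := h2 d hd
    refine ⟨?_, h6, h5⟩
    have : X q p θ (d.2, d.1) = X p q θ (d.1, d.2) := X_swap _ _
    show r ≤ dZ (X q p θ (d.2, d.1))
    rw [this]
    exact h4
  · intro c hc c' hc' hcc
    rw [Finset.mem_map] at hc hc'
    obtain ⟨d, hd, rfl⟩ := hc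
    obtain ⟨d', hd', rfl⟩ := hc'
    have hne : d ≠ d' := fun e => hcc (by rw [e])
    have := h3 d hd d' hd' hne
    unfold Sep at *
    exact this.symm

lemma Concl.mono {p q : ℕ} {r θ η L c C5 c' C5' : ℝ} (hη : 0 < η) (hL : 0 ≤ L) (hc : c' ≤ c)
    (hC : C5 ≤ C5') (h : Concl p q r θ η L c C5) : Concl p q r θ η L c' C5' := by
  obtain ⟨S, h1, h2, h3⟩ := h
  refine ⟨S, ?_, ?_, h3⟩
  · refine le_trans ?_ h1
    exact div_le_div_of_nonneg_right hc (by positivity)
  · intro c hc
    obtain ⟨h4, h5, h6⟩ := h2 c hc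
    have := mul_le_mul_of_nonneg_right hC hL
    exact ⟨h4, h5.trans this, h6.trans this⟩

lemma wall_case {p q : ℕ} (hp : 2 ≤ p) (hq : 2 ≤ q) {r : ℝ} (hwall : WallStmt p q r) {κ : ℝ}
    (hκ : 0 < κ) :
    ∃ c : ℝ, 0 < c ∧ ∃ C5 : ℝ, 0 < C5 ∧ ∀ η : ℝ, 0 < η → ∃ L0 : ℝ, ∀ L : ℝ, L0 ≤ L → ∀ θ : ℝ,
      ∀ a b : ℕ, (a : ℝ) * Real.log p ≤ 2 * L → (b : ℝ) * Real.log q ≤ 2 * L →
        (∀ j : ℕ, b ≤ j → ((j : ℝ) - b) * Real.log q ≤ κ * L → Far p q r θ a j) →
        Concl p q r θ η L c C5 := by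
  classical
  obtain ⟨c1, hc1, hw⟩ := hwall
  have hl : 0 < Real.log p := Real.log_pos (by exact_mod_cast (by omega : 1 < p))
  have hu : 0 < Real.log q := Real.log_pos (by exact_mod_cast (by omega : 1 < q))
  set l := Real.log p with hldef
  set u := Real.log q with hudef
  refine ⟨c1 * (κ / (2 * u)) ^ 2 * (l * u) / 49, by positivity, 3 + κ, by positivity, ?_⟩
  intro η hη
  obtain ⟨R0, hR0⟩ := hw (η * u / (κ * l)) (by positivity)
  refine ⟨max (max l (l / η)) (max (u / η) (max ((R0 + 1) * u / κ) (2 * u / κ))), ?_⟩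
  intro L hL θ a b ha hb hfar
  have hL1 : l ≤ L := le_trans (le_trans (le_max_left _ _) (le_max_left _ _)) hL
  have hL2 : l ≤ η * L := by
    have : l / η ≤ L := le_trans (le_trans (le_max_right _ _) (le_max_left _ _)) hL
    rw [div_le_iff₀ hη] at this
    linarith
  have hL3 : u ≤ η * L := by
    have : u / η ≤ L := le_trans (le_trans (le_max_left _ _) (le_max_right _ _)) hL
    rw [div_le_iff₀ hη] at this
    linarith
  have hL4 : (R0 + 1) * u ≤ κ * L := by
    have : (R0 + 1) * u / κ ≤ L :=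
      le_trans (le_trans (le_trans (le_max_left _ _) (le_max_right _ _)) (le_max_right _ _)) hL
    rw [div_le_iff₀ hκ] at this
    linarith
  have hL5 : 2 * u ≤ κ * L := by
    have : 2 * u / κ ≤ L :=
      le_trans (le_trans (le_trans (le_max_right _ _) (le_max_right _ _)) (le_max_right _ _)) hL
    rw [div_le_iff₀ hκ] at this
    linarith
  have hLpos : 0 < L := lt_of_lt_of_le hl hL1
  set R := ⌊κ * L / u⌋₊ with hR
  have hRle : (R : ℝ) * u ≤ κ * L := by
    have : (R : ℝ) ≤ κ * L / u := Nat.floor_le (by positivity)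
    rwa [le_div_iff₀ hu] at this
  have hRgt : κ * L < (R + 1) * u := by
    have : κ * L / u < R + 1 := Nat.lt_floor_add_one _
    rwa [div_lt_iff₀ hu] at this
  have hR0R : R0 ≤ R := by
    have : (R0 + 1) * u < (R + 1) * u := lt_of_le_of_lt hL4 hRgt
    have := lt_of_mul_lt_mul_right this hu.le
    have : (R0 : ℝ) < R := by linarith
    exact_mod_cast this.le
  have hRhalf : κ * L / (2 * u) ≤ R := by
    rw [div_le_iff₀ (by positivity)]
    nlinarith
  set C := ⌈(R : ℝ) * u / l⌉₊ with hC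
  have hC1 : (R : ℝ) * u ≤ C * l := by
    have := Nat.le_ceil ((R : ℝ) * u / l)
    rwa [div_le_iff₀ hl] at this
  have hC2 : (C : ℝ) * l ≤ R * u + l := by
    have := (Nat.ceil_lt_add_one (a := (R : ℝ) * u / l) (by positivity)).le
    have := mul_le_mul_of_nonneg_right this hl.le
    rw [add_mul, div_mul_cancel₀ _ hl.ne', one_mul] at this
    exact this
  set θ' := X p q θ ((a : ℤ) - C, (b : ℤ)) with hθ'
  have hXs : ∀ i j : ℕ, X p q θ' ((i : ℤ), (j : ℤ)) = X p q θ ((a : ℤ) - C + i, (b : ℤ) + j) := by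
    intro i j
    rw [hθ', X_shift (by omega) (by omega)]
    rfl
  have hcount := hR0 R C hR0R hC1 hC2 θ' (by
    intro j hj
    rw [far_iff, hXs]
    have h1 : Far p q r θ a (b + j) := by
      apply hfar (b + j) (by omega)
      have : (j : ℝ) ≤ R := by exact_mod_cast hj.le
      push_cast
      nlinarith
    rw [far_iff] at h1
    have e : ((a : ℤ) - C + C, (b : ℤ) + j) = ((a : ℤ), ((b + j : ℕ) : ℤ)) := by
      rw [sub_add_cancel]
      push_cast
      rfl
    rw [e]
    exact h1)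
  set F := (range C ×ˢ range R).filter
    (fun x => ∃ i' : ℕ, i' ≤ x.1 ∧ (x.1 : ℝ) ≤ i' + η * u / (κ * l) * R ∧ Far p q r θ' i' x.2)
    with hF
  have hinj : Function.Injective
      (fun x : ℕ × ℕ => (((a : ℤ) - C + x.1, (b : ℤ) + x.2) : ℤ × ℤ)) := by
    intro x y hxy
    simp only [Prod.mk.injEq] at hxy
    ext
    · have := hxy.1
      omega
    · have := hxy.2
      omega
  set T := F.image (fun x : ℕ × ℕ => (((a : ℤ) - C + x.1, (b : ℤ) + x.2) : ℤ × ℤ)) with hT
  have hTcard : T.card = F.card := Finset.card_image_of_injective _ hinj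
  have hTc : c1 * (κ / (2 * u)) ^ 2 * L ^ 2 ≤ T.card := by
    rw [hTcard]
    refine le_trans ?_ hcount
    rw [mul_assoc]
    apply mul_le_mul_of_nonneg_left _ hc1.le
    rw [← mul_pow]
    apply pow_le_pow_left₀ (by positivity)
    rw [div_mul_eq_mul_div]
    exact hRhalf
  obtain ⟨S, hS1, hS2, hS3⟩ := final hl hu (fun c => r ≤ dZ (X p q θ c) ∧
    |(c.1 : ℝ)| * l ≤ (3 + κ) * L ∧ |(c.2 : ℝ)| * u ≤ (3 + κ) * L) T hη hL2 hL3 hTc (by
    intro x hx
    rw [hT, Finset.mem_image] at hx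
    obtain ⟨⟨i, j⟩, hy, rfl⟩ := hx
    rw [hF, Finset.mem_filter, Finset.mem_product, Finset.mem_range, Finset.mem_range] at hy
    obtain ⟨⟨hi, hj⟩, i', hi', hii, hfar'⟩ := hy
    simp only at hi hj hi' hii hfar'
    have hiR : (i : ℝ) < C := by exact_mod_cast hi
    have hjR : (j : ℝ) < R := by exact_mod_cast hj
    have hi'R : (i' : ℝ) ≤ i := by exact_mod_cast hi'
    have hi'0 : (0 : ℝ) ≤ i' := by positivity
    have hj0 : (0 : ℝ) ≤ j := by positivity
    have ha0 : (0 : ℝ) ≤ a := by positivity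
    have hb0 : (0 : ℝ) ≤ b := by positivity
    have hC0 : (0 : ℝ) ≤ C := by positivity
    refine ⟨((a : ℤ) - C + i', (b : ℤ) + j), ⟨?_, ?_, ?_⟩, ?_, ?_⟩
    · rw [far_iff, hXs] at hfar'
      exact hfar'
    · push_cast
      have h1 : |(a : ℝ) - C + i'| ≤ a + C := by
        rw [abs_le]
        constructor <;> linarith
      have := mul_le_mul_of_nonneg_right h1 hl.le
      rw [add_mul] at this
      nlinarith
    · push_cast
      have h1 : |(b : ℝ) + j| ≤ b + R := by
        rw [abs_le]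
        constructor <;> linarith
      have := mul_le_mul_of_nonneg_right h1 hu.le
      rw [add_mul] at this
      nlinarith
    · push_cast
      have h1 : |((a : ℝ) - C + i) - (a - C + i')| ≤ η * u / (κ * l) * R := by
        rw [abs_le]
        constructor
        · have : 0 ≤ η * u / (κ * l) * R := by positivity
          linarith
        · linarith
      have h2 := mul_le_mul_of_nonneg_right h1 hl.le
      refine h2.trans ?_
      have e : η * u / (κ * l) * R * l = η / κ * (R * u) := by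
        field_simp
      rw [e]
      have := mul_le_mul_of_nonneg_left hRle (by positivity : 0 ≤ η / κ)
      refine this.trans (le_of_eq ?_)
      field_simp
    · push_cast
      simp only [sub_self, abs_zero, zero_mul]
      positivity)
  exact ⟨S, hS1, hS2, hS3⟩

lemma far_comm {p q : ℕ} {r θ : ℝ} {i j : ℕ} (h : Far p q r θ i j) : Far q p r θ j i := by
  rw [far_iff] at *
  rwa [X_swap]

theorem step {p q : ℕ} (hp : 2 ≤ p) (hq : 2 ≤ q) {r : ℝ} (hopen : OpenStmt p q r)
    (hwall : WallStmt p q r) (hwall' : WallStmt q p r) : StepStmt p q r := by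
  classical
  obtain ⟨c0, hc0, c1, hc1, ho⟩ := hopen
  have hl : 0 < Real.log p := Real.log_pos (by exact_mod_cast (by omega : 1 < p))
  have hu : 0 < Real.log q := Real.log_pos (by exact_mod_cast (by omega : 1 < q))
  set l := Real.log p with hldef
  set u := Real.log q with hudef
  obtain ⟨c2, hc2, C52, hC52, h2⟩ := wall_case hp hq hwall (κ := c0 / 2) (by positivity)
  obtain ⟨c3, hc3, C53, hC53, h3⟩ := wall_case hq hp hwall' (κ := c0 * l / (2 * u)) (by positivity)
  set c1' := c1 * (1 / (2 * u)) ^ 2 * (l * u) / 49 with hc1'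
  have hc1'pos : 0 < c1' := by positivity
  refine ⟨min c1' (min c2 c3), lt_min hc1'pos (lt_min hc2 hc3), max 2 (max C52 C53),
    lt_of_lt_of_le two_pos (le_max_left _ _), ?_⟩
  intro η hη _
  obtain ⟨R0, hR0⟩ := ho (η * u / l) (by positivity)
  obtain ⟨L2, hL2'⟩ := h2 η hη
  obtain ⟨L3, hL3'⟩ := h3 η hη
  refine ⟨max (max (max l (l / η)) (max (u / η) (max ((R0 + 1) * u) (2 * u)))) (max L2 L3), ?_⟩
  intro L hL θ hθ
  have hLL2 : L2 ≤ L := le_trans (le_trans (le_max_left _ _) (le_max_right _ _)) hL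
  have hLL3 : L3 ≤ L := le_trans (le_trans (le_max_right _ _) (le_max_right _ _)) hL
  replace hL := le_trans (le_max_left _ _) hL
  have hL1 : l ≤ L := le_trans (le_trans (le_max_left _ _) (le_max_left _ _)) hL
  have hL2 : l ≤ η * L := by
    have : l / η ≤ L := le_trans (le_trans (le_max_right _ _) (le_max_left _ _)) hL
    rw [div_le_iff₀ hη] at this
    linarith
  have hL3 : u ≤ η * L := by
    have : u / η ≤ L := le_trans (le_trans (le_max_left _ _) (le_max_right _ _)) hL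
    rw [div_le_iff₀ hη] at this
    linarith
  have hL4 : (R0 + 1) * u ≤ L :=
      le_trans (le_trans (le_trans (le_max_left _ _) (le_max_right _ _)) (le_max_right _ _)) hL
  have hL5 : 2 * u ≤ L :=
      le_trans (le_trans (le_trans (le_max_right _ _) (le_max_right _ _)) (le_max_right _ _)) hL
  have hLpos : 0 < L := lt_of_lt_of_le hl hL1
  set R := ⌊L / u⌋₊ with hR
  have hRle : (R : ℝ) * u ≤ L := by
    have : (R : ℝ) ≤ L / u := Nat.floor_le (by positivity)
    rwa [le_div_iff₀ hu] at this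
  have hRgt : L < (R + 1) * u := by
    have : L / u < R + 1 := Nat.lt_floor_add_one _
    rwa [div_lt_iff₀ hu] at this
  have hR0R : R0 ≤ R := by
    have : (R0 + 1) * u < (R + 1) * u := lt_of_le_of_lt hL4 hRgt
    have := lt_of_mul_lt_mul_right this hu.le
    have : (R0 : ℝ) < R := by linarith
    exact_mod_cast this.le
  have hRhalf : L ≤ 2 * (R * u) := by
    rw [add_mul, one_mul] at hRgt
    linarith
  set C := ⌈(R : ℝ) * u / l⌉₊ with hC
  have hC1 : (R : ℝ) * u ≤ C * l := by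
    have := Nat.le_ceil ((R : ℝ) * u / l)
    rwa [div_le_iff₀ hl] at this
  have hC2 : (C : ℝ) * l ≤ R * u + l := by
    have := (Nat.ceil_lt_add_one (a := (R : ℝ) * u / l) (by positivity)).le
    have := mul_le_mul_of_nonneg_right this hl.le
    rw [add_mul, div_mul_cancel₀ _ hl.ne', one_mul] at this
    exact this
  have hmono : ∀ {c C5 : ℝ}, min c1' (min c2 c3) ≤ c → C5 ≤ max 2 (max C52 C53) →
      Concl p q r θ η L c C5 → ∃ S : Finset (ℤ × ℤ),
        min c1' (min c2 c3) / η ^ 2 ≤ (S.card : ℝ) ∧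
      (∀ c ∈ S, r ≤ dZ (X p q θ c) ∧ |(c.1 : ℝ)| * l ≤ max 2 (max C52 C53) * L ∧
        |(c.2 : ℝ)| * u ≤ max 2 (max C52 C53) * L) ∧
      ∀ c ∈ S, ∀ c' ∈ S, c ≠ c' → 2 * η * L < |(c.1 : ℝ) - c'.1| * l ∨
        2 * η * L < |(c.2 : ℝ) - c'.2| * u :=
    fun h1 h2 h3 => h3.mono hη hLpos.le h1 h2
  rcases hR0 R C hR0R hC1 hC2 θ hθ with hcount | ⟨a, b, ha, hb, hfar⟩ | ⟨a, b, ha, hb, hfar⟩
  · -- many cells near far cells
    apply hmono (c := c1') (C5 := 2) (min_le_left _ _) (le_max_left _ _)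
    set F := (range C ×ˢ range R).filter
      (fun x => ∃ i' : ℕ, i' ≤ x.1 ∧ (x.1 : ℝ) ≤ i' + η * u / l * R ∧ Far p q r θ i' x.2)
      with hF
    have hinj : Function.Injective (fun x : ℕ × ℕ => (((x.1 : ℤ), (x.2 : ℤ)) : ℤ × ℤ)) := by
      intro x y hxy
      simp only [Prod.mk.injEq] at hxy
      ext
      · have := hxy.1
        omega
      · have := hxy.2
        omega
    set T := F.image (fun x : ℕ × ℕ => (((x.1 : ℤ), (x.2 : ℤ)) : ℤ × ℤ)) with hT
    have hTcard : T.card = F.card := Finset.card_image_of_injective _ hinj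
    have hTc : c1 * (1 / (2 * u)) ^ 2 * L ^ 2 ≤ T.card := by
      rw [hTcard]
      refine le_trans ?_ hcount
      rw [mul_assoc]
      apply mul_le_mul_of_nonneg_left _ hc1.le
      rw [← mul_pow]
      apply pow_le_pow_left₀ (by positivity)
      rw [one_div_mul_eq_div, div_le_iff₀ (by positivity)]
      linarith
    obtain ⟨S, hS1, hS2, hS3⟩ := final hl hu (fun c => r ≤ dZ (X p q θ c) ∧
      |(c.1 : ℝ)| * l ≤ 2 * L ∧ |(c.2 : ℝ)| * u ≤ 2 * L) T hη hL2 hL3 hTc (by
      intro x hx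
      rw [hT, Finset.mem_image] at hx
      obtain ⟨⟨i, j⟩, hy, rfl⟩ := hx
      rw [hF, Finset.mem_filter, Finset.mem_product, Finset.mem_range, Finset.mem_range] at hy
      obtain ⟨⟨hi, hj⟩, i', hi', hii, hfar'⟩ := hy
      simp only at hi hj hi' hii hfar'
      have hiR : (i : ℝ) < C := by exact_mod_cast hi
      have hjR : (j : ℝ) < R := by exact_mod_cast hj
      have hi'R : (i' : ℝ) ≤ i := by exact_mod_cast hi'
      have hi'0 : (0 : ℝ) ≤ i' := by positivity
      have hj0 : (0 : ℝ) ≤ j := by positivity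
      have hC0 : (0 : ℝ) ≤ C := by positivity
      refine ⟨((i' : ℤ), (j : ℤ)), ⟨?_, ?_, ?_⟩, ?_, ?_⟩
      · rwa [far_iff] at hfar'
      · push_cast
        rw [abs_of_nonneg hi'0]
        have := mul_le_mul_of_nonneg_right (hi'R.trans hiR.le) hl.le
        linarith
      · push_cast
        rw [abs_of_nonneg hj0]
        have := mul_le_mul_of_nonneg_right hjR.le hu.le
        linarith
      · push_cast
        have h1 : |(i : ℝ) - i'| ≤ η * u / l * R := by
          rw [abs_of_nonneg (by linarith)]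
          linarith
        have h2 := mul_le_mul_of_nonneg_right h1 hl.le
        refine h2.trans ?_
        have e : η * u / l * R * l = η * (R * u) := by
          field_simp
        rw [e]
        exact mul_le_mul_of_nonneg_left hRle hη.le
      · push_cast
        simp only [sub_self, abs_zero, zero_mul]
        positivity)
    exact ⟨S, hS1, hS2, hS3⟩
  · apply hmono (c := c2) (C5 := C52) ((min_le_right _ _).trans (min_le_left _ _))
      ((le_max_left _ _).trans (le_max_right _ _))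
    have haC : (a : ℝ) ≤ C := by exact_mod_cast ha.le
    have hbR : (b : ℝ) ≤ R := by exact_mod_cast hb
    have haC' := mul_le_mul_of_nonneg_right haC hl.le
    have hbR' := mul_le_mul_of_nonneg_right hbR hu.le
    apply hL2' L hLL2 θ a b
    · linarith
    · linarith
    · intro j hbj hj
      apply hfar j hbj
      have h4 : ((j : ℝ) - b) * u ≤ (c0 * R) * u := by
        have h5 := mul_le_mul_of_nonneg_left hRhalf hc0.le
        have e1 : c0 / 2 * L = (c0 * L) / 2 := by ring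
        have e2 : c0 * (2 * (R * u)) = 2 * ((c0 * R) * u) := by ring
        rw [e1] at hj
        rw [e2] at h5
        linarith
      have := le_of_mul_le_mul_right h4 hu
      linarith
  · apply hmono (c := c3) (C5 := C53) ((min_le_right _ _).trans (min_le_right _ _))
      ((le_max_right _ _).trans (le_max_right _ _))
    have haC : (a : ℝ) ≤ C := by exact_mod_cast ha
    have hbR : (b : ℝ) ≤ R := by exact_mod_cast hb.le
    have haC' := mul_le_mul_of_nonneg_right haC hl.le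
    have hbR' := mul_le_mul_of_nonneg_right hbR hu.le
    apply Concl.swap
    apply hL3' L hLL3 θ b a
    · linarith
    · linarith
    · intro j haj hj
      apply far_comm
      apply hfar j haj
      have h5 : c0 * l / (2 * u) * L ≤ (c0 * R) * l := by
        rw [div_mul_eq_mul_div, div_le_iff₀ (by positivity)]
        have h6 := mul_le_mul_of_nonneg_left hRhalf (by positivity : 0 ≤ c0 * l)
        refine h6.trans (le_of_eq ?_)
        ring
      have h4 : ((j : ℝ) - a) * l ≤ (c0 * R) * l := hj.trans h5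
      have := le_of_mul_le_mul_right h4 hl
      linarith

end Pool.Agent.TH461.SST.Step
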