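import Mathlib
import Pool.Agent.TH461.SST.Stms
import Pool.Agent.TH461.SST.Window
import Pool.Agent.H706R2.NonConc2

/-!
# The window to the left of a wall of far cells
-/

set_option autoImplicit false

open Finset Filter Topology

namespace Pool.Agent.TH461.SST.Wall

open Pool.Agent.TH461.SST
open Pool.Agent.TH461.SST.Tri

theorem wall (hcomb : CombStmt) {p q : ℕ} (hp : 2 ≤ p) (hq : 2 ≤ q) (hpq : Nat.Coprime p q) {r : ℝ} (hr : 0 < r) (hrp : ((p : ℝ) + 1) * r ≤ 1) (hrq : ((q : ℝ) + 1) * r ≤ 1) (hcl : ClusterStmt p q) : WallStmt p q r := by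
  classical
  have hl := log_pos' hp
  have hu := log_pos' hq
  obtain ⟨c, hc, R0c, hcb⟩ := hcomb (Real.log p) (Real.log q) 6 hl hu
  refine ⟨c / 2, by positivity, ?_⟩
  intro η hη
  set η0 : ℝ := min η (c / 4) with hη0
  have hη0pos : 0 < η0 := lt_min hη (by positivity)
  obtain ⟨K, hK, R0w, hR0w, hwin⟩ := window hp hq hpq hr hrp hcl hη0pos
  refine ⟨max (max R0c R0w) (max ⌈4 / c⌉₊ ⌈Real.log p / Real.log q + K / 2⌉₊), ?_⟩
  intro R C hR hC1 hC2 θ₀ hwall₀
  have hRc : R0c ≤ R := ((le_max_left _ _).trans (le_max_left _ _)).trans hR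
  have hRw : R0w ≤ R := ((le_max_right _ _).trans (le_max_left _ _)).trans hR
  have hR4 : 4 / c ≤ R := by
    refine (Nat.le_ceil _).trans ?_
    exact_mod_cast ((le_max_left _ _).trans (le_max_right _ _)).trans hR
  have hRK : Real.log p / Real.log q + K / 2 ≤ R := by
    refine (Nat.le_ceil _).trans ?_
    exact_mod_cast ((le_max_right _ _).trans (le_max_right _ _)).trans hR
  have hRpos : (1 : ℝ) ≤ R := by exact_mod_cast hR0w.trans hRw
  obtain ⟨k, hk1, hk2⟩ := exists_shift θ₀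
  set θ : ℝ := θ₀ + k with hθ
  have hwall : ∀ j : ℕ, j < R → Far p q r θ C j := fun j hj =>
    (far_shift p q r θ₀ k C j).2 (hwall₀ j hj)
  set l := Real.log p with hl_def
  set u := Real.log q with hu_def
  obtain ⟨Z, hZ, hZc, hZs, hZw⟩ := hwin R C hRw hC1 hC2 θ hk1 hk2 _ rfl
  set N : ℝ := C * l + R * u with hN
  let e := Z.equivFin
  have h1 : ∀ z : Fin Z.card, (((e.symm z).1.2.1 : ℕ) : ℝ) * l + (((e.symm z).1.2.2 : ℕ) : ℝ) * u
      < lev p q r θ N (e.symm z).1 := by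
    intro z
    have := (hZ _ (e.symm z).2).2.2.2
    unfold size at this
    linarith
  have h2 : ∀ z z' : Fin Z.card, z ≠ z' → ∀ i j : ℕ, j < R →
      ¬ (InT l u (e.symm z).1.2.1 (e.symm z).1.2.2 (lev p q r θ N (e.symm z).1) i j ∧
        InT l u (e.symm z').1.2.1 (e.symm z').1.2.2 (lev p q r θ N (e.symm z').1) i j) := by
    rintro z z' hzz i j - ⟨ha, hb⟩
    apply hzz
    apply e.symm.injective
    apply Subtype.ext
    exact cap_unique hp hq hpq hr hrp (hZ _ (e.symm z).2).1 (hZ _ (e.symm z').2).1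
      ((inT_iff hp hq hr).1 ha).2 ((inT_iff hp hq hr).1 hb).2
  have h3 : ∀ z : Fin Z.card, ∀ i j : ℕ,
      InT l u (e.symm z).1.2.1 (e.symm z).1.2.2 (lev p q r θ N (e.symm z).1) i j → j < R →
        i < C := by
    intro z i j hin hj
    by_contra hcon
    push Not at hcon
    have hm := (hZ _ (e.symm z).2).2.1
    have hin' : InT l u (e.symm z).1.2.1 (e.symm z).1.2.2 (lev p q r θ N (e.symm z).1) C j := by
      refine ⟨hm.le, hin.2.1, lt_of_le_of_lt ?_ hin.2.2⟩
      have : (C : ℝ) ≤ i := by exact_mod_cast hcon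
      nlinarith
    exact ((inT_iff hp hq hr).1 hin').2.not_far hp hq hr hrp (hwall j hj)
  have h4 : ∑ z : Fin Z.card, ((lev p q r θ N (e.symm z).1 - (((e.symm z).1.2.1 : ℕ) : ℝ) * l -
      (((e.symm z).1.2.2 : ℕ) : ℝ) * u) / u + 1) ≤ 6 * R := by
    have e1 : ∑ z : Fin Z.card, ((lev p q r θ N (e.symm z).1 - (((e.symm z).1.2.1 : ℕ) : ℝ) * l -
        (((e.symm z).1.2.2 : ℕ) : ℝ) * u) / u + 1) =
        (∑ t ∈ Z, size p q r θ N t) / u + Z.card := by
      rw [Finset.sum_add_distrib, Finset.sum_const, Finset.card_univ, Fintype.card_fin,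
        nsmul_eq_mul, mul_one, ← Finset.sum_div]
      congr 2
      rw [← Finset.sum_coe_sort Z]
      exact Equiv.sum_comp e.symm (fun t : Z => size p q r θ N t.1)
    rw [e1]
    have e2 : (∑ t ∈ Z, size p q r θ N t) / u ≤ 4 * R + 2 * (l / u) := by
      rw [div_le_iff₀ hu]
      have e3 : (4 * R + 2 * (l / u)) * u = 4 * R * u + 2 * l := by field_simp
      rw [e3]
      linarith
    linarith
  have h5 := hcb R C hRc hC1 hC2 Z.card (fun z => (e.symm z).1.2.1) (fun z => (e.symm z).1.2.2)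
    (fun z => lev p q r θ N (e.symm z).1) h1 h2 h3 h4
  set S := (range C ×ˢ range R).filter (fun x => ∀ z : Fin Z.card,
    ¬ InT l u (e.symm z).1.2.1 (e.symm z).1.2.2 (lev p q r θ N (e.symm z).1) x.1 x.2) with hS
  have h6 := card_drop (η := η0) hη0pos.le S (Finset.filter_subset _ _)
  have h7 : S.filter (fun x => η0 * R ≤ (x.1 : ℝ)) ⊆ (range C ×ˢ range R).filter
      (fun x => ∃ i' : ℕ, i' ≤ x.1 ∧ (x.1 : ℝ) ≤ i' + η * R ∧ Far p q r θ₀ i' x.2) := by
    intro x hx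
    rw [Finset.mem_filter, hS, Finset.mem_filter] at hx
    obtain ⟨⟨hx1, hx2⟩, hx3⟩ := hx
    rw [Finset.mem_filter]
    refine ⟨hx1, ?_⟩
    obtain ⟨i', h8, h9, h10⟩ := hZw x hx1 hx3 (fun t ht hin => by
      have := hx2 (e ⟨t, ht⟩)
      rw [Equiv.symm_apply_apply] at this
      exact this hin)
    refine ⟨i', h8, h9.trans ?_, (far_shift p q r θ₀ k i' x.2).1 h10⟩
    have : η0 * R ≤ η * R := mul_le_mul_of_nonneg_right (min_le_left _ _) (by positivity)
    linarith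
  have h8 : ((S.filter (fun x => η0 * R ≤ (x.1 : ℝ))).card : ℝ) ≤
      (((range C ×ˢ range R).filter
      (fun x => ∃ i' : ℕ, i' ≤ x.1 ∧ (x.1 : ℝ) ≤ i' + η * R ∧ Far p q r θ₀ i' x.2)).card : ℝ) := by
    exact_mod_cast Finset.card_le_card h7
  have h9 : η0 ≤ c / 4 := min_le_right _ _
  have h10 : 4 ≤ c * R := by
    rw [div_le_iff₀ hc] at hR4
    linarith
  have h11 : c * (R : ℝ) ^ 2 ≤ (S.card : ℝ) := h5
  have h12 : (η0 * R + 1) * R ≤ c / 2 * (R : ℝ) ^ 2 := by nlinarith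
  linarith

end Pool.Agent.TH461.SST.Wall
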