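import Mathlib
import Pool.Agent.TH461.SST.AuxA
import Pool.Agent.TH461.SST.Expand
import Pool.Agent.TH461.SST.Vanish
import Pool.Agent.TH461.SST.Est
import Pool.Agent.TH461.SST.Core
import Pool.Agent.TH461.SST.Hp
import Pool.Agent.TH461.SST.Dich
import Pool.Agent.TH461.SST.Pen
import Pool.Agent.TH461.SST.Basis
import Pool.Agent.TH461.SST.CB
import Pool.Agent.TH461.SST.SF
import Pool.Agent.TH461.SST.Gap
import Pool.Agent.TH461.SST.Comp
import Pool.Agent.TH461.SST.Red
import Pool.Agent.TH461.SST.Sub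
import Pool.Agent.TH461.SST.LD
import Pool.Agent.TH461.SST.Cluster
import Pool.Agent.TH461.SST.Comb
import Pool.Agent.TH461.SST.Wall
import Pool.Agent.TH461.SST.Open
import Pool.Agent.TH461.SST.Step
import Pool.Agent.TH461.SST.Grow

/-!
Project SST: the subspace theorem (rational linear forms, any finite set of places) and the growth
exponent `s` for every `s < 2` for `×p, ×q` with `p, q` coprime. No hypotheses are left.
-/

set_option autoImplicit false

namespace Pool.Agent.TH461.SST.Main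

open Pool.Agent.TH461.SST

/-- **The subspace theorem** (moving sizes, rational forms, any finite set of places). -/
theorem subspace : SubspaceStmt :=
  Sub.subspace (Pen.pen (Core.core Aux.aux (Vanish.vanish Expand.expand) Est.est) Hp.height_pair
    Dich.dich) CB.cb (SF.sf CB.cb)
    (Red.red Basis.basis CB.cb (SF.sf CB.cb) Gap.gap (Comp.comp CB.cb (SF.sf CB.cb)))

/-- The cluster inequality. -/
theorem cluster {p q : ℕ} (hp : 2 ≤ p) (hq : 2 ≤ q) (hpq : Nat.Coprime p q) : ClusterStmt p q :=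
  Cluster.cluster subspace LD.ld hp hq hpq

/-- Many separated far points around a far point. -/
theorem step {p q : ℕ} (hp : 2 ≤ p) (hq : 2 ≤ q) (hpq : Nat.Coprime p q) {r : ℝ} (hr : 0 < r)
    (hrp : ((p : ℝ) + 1) * r ≤ 1) (hrq : ((q : ℝ) + 1) * r ≤ 1) : StepStmt p q r :=
  Step.step hp hq
    (Open.openw hp hq hpq hr hrp hrq (cluster hp hq hpq))
    (Wall.wall Comb.comb hp hq hpq hr hrp hrq (cluster hp hq hpq))
    (Wall.wall Comb.comb hq hp hpq.symm hr hrq hrp (cluster hq hp hpq.symm))

/-- **The growth theorem**: exponent `s` for every `s < 2`. -/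
theorem growth {p q : ℕ} (hp : 2 ≤ p) (hq : 2 ≤ q) (hpq : Nat.Coprime p q) {s : ℝ} (hs : s < 2) :
    Pool.Agent.H847R3.XpXq.Gr p q s := by
  have hM : (0 : ℝ) < (p : ℝ) + q + 1 := by positivity
  have h1 : ((p : ℝ) + 1) * (1 / ((p : ℝ) + q + 1)) ≤ 1 := by
    rw [mul_one_div, div_le_one hM]
    have : (0 : ℝ) ≤ q := Nat.cast_nonneg _
    linarith
  have h2 : ((q : ℝ) + 1) * (1 / ((p : ℝ) + q + 1)) ≤ 1 := by
    rw [mul_one_div, div_le_one hM]
    have : (0 : ℝ) ≤ p := Nat.cast_nonneg _
    linarith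
  exact Grow.grow hp hq hpq (one_div_pos.mpr hM) h1 h2
    (step hp hq hpq (one_div_pos.mpr hM) h1 h2) s hs

end Pool.Agent.TH461.SST.Main
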