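import Mathlib
import Pool.Agent.H819.Pow
import Pool.Agent.H847R3.SuppB

/-!
Digit changes of the numbers `a q^n`, `n < T`, in base `b`, from the growth of order `s` of the
set of far points.
-/

set_option autoImplicit false

open Real Filter

namespace Pool.Agent.TH461.SST.PowC

open Pool.Agent.H706R2 (dZ dig changes_lower)
open Pool.Agent.H819 (dZ_frac count_far2 sum_aux)
open Pool.Agent.H847R3.XpXq (Gr)

lemma dig_mul {b q a n K i k : ℕ} (hb : 2 ≤ b) (h : i + 1 + k = K) :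
    dig b ((q : ℝ) ^ n * ((a : ℝ) / (b : ℝ) ^ K)) i = ((a * q ^ n / b ^ k % b : ℕ) : ℤ) := by
  have hb0 : (b : ℝ) ≠ 0 := by positivity
  unfold dig
  have e : (b : ℝ) ^ (i + 1) * ((q : ℝ) ^ n * ((a : ℝ) / (b : ℝ) ^ K))
      = ((a * q ^ n : ℕ) : ℝ) / ((b ^ k : ℕ) : ℝ) := by
    rw [← h, pow_add _ (i + 1) k]
    push_cast
    field_simp
  rw [e, ← Int.natCast_floor_eq_floor (by positivity), Nat.floor_div_eq_div]
  push_cast
  rfl

lemma dig_mul_zero {b q a n K i : ℕ} (hb : 2 ≤ b) (h : K ≤ i) :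
    dig b ((q : ℝ) ^ n * ((a : ℝ) / (b : ℝ) ^ K)) i = 0 := by
  have hb0 : (b : ℝ) ≠ 0 := by positivity
  obtain ⟨e, rfl⟩ := Nat.exists_eq_add_of_le h
  unfold dig
  have e1 : (b : ℝ) ^ (K + e + 1) * ((q : ℝ) ^ n * ((a : ℝ) / (b : ℝ) ^ K))
      = (((b : ℤ) * (b ^ e * q ^ n * a) : ℤ) : ℝ) := by
    rw [add_assoc, pow_add _ K (e + 1), pow_succ]
    push_cast
    field_simp
  rw [e1, Int.floor_intCast]
  exact Int.mul_emod_right _ _

lemma final {β w s : ℝ} {L M N' T S : ℕ} (hβ : 0 < β) (hw0 : 0 < w) (hs0 : 0 < s)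
    (h6R : (N' : ℝ) ≤ L * (T + S)) (hN' : β * (w * M) ^ s ≤ N') (hM2 : T ≤ 4 * M)
    (hTlin : (T : ℝ) ≤ β * (w / 4) ^ s / (L + 1) / 2 * (T : ℝ) ^ s) :
    β * (w / 4) ^ s / (L + 1) / 2 * (T : ℝ) ^ s ≤ S := by
  have h8 : (w / 4) ^ s * (T : ℝ) ^ s ≤ (w * M) ^ s := by
    rw [← mul_rpow (by positivity) (by positivity)]
    refine rpow_le_rpow (by positivity) ?_ (by linarith)
    have h9 : (T : ℝ) ≤ 4 * M := by exact_mod_cast hM2
    calc w / 4 * T ≤ w / 4 * (4 * M) := mul_le_mul_of_nonneg_left h9 (by positivity)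
      _ = w * M := by ring
  have h0 : (0 : ℝ) ≤ (T : ℝ) + S := by positivity
  have h9 : β * ((w / 4) ^ s * (T : ℝ) ^ s) ≤ (L + 1) * (T + S) := by
    have e4 : (L : ℝ) * (T + S) ≤ (L + 1) * (T + S) :=
      mul_le_mul_of_nonneg_right (by linarith) h0
    have e5 := mul_le_mul_of_nonneg_left h8 hβ.le
    linarith
  have e2 : β * (w / 4) ^ s / (L + 1) / 2 * (T : ℝ) ^ s
      = β * ((w / 4) ^ s * (T : ℝ) ^ s) / (L + 1) / 2 := by ring
  have h10 : β * ((w / 4) ^ s * (T : ℝ) ^ s) / (L + 1) ≤ T + S := by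
    rw [div_le_iff₀ (by positivity)]
    linarith
  rw [e2] at hTlin ⊢
  linarith

theorem pow_changes_unif {b q : ℕ} (hb : 2 ≤ b) (hq : 2 ≤ q) (hco : Nat.Coprime b q) {s : ℝ}
    (hs1 : 1 < s) (hG : Gr b q s) :
    ∃ c : ℝ, 0 < c ∧ ∃ T0 : ℕ, ∀ T : ℕ, T0 ≤ T → ∀ a : ℕ, ¬ b ∣ a → c * (T : ℝ) ^ s ≤
      ((∑ n ∈ Finset.range T, ((Finset.range T).filter
      (fun k => a * q ^ n / b ^ k % b ≠ a * q ^ n / b ^ (k + 1) % b)).card : ℕ) : ℝ) := by
  obtain ⟨r, hr, hrp, α, hα, β, hβ, hgr⟩ := hG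
  have hbR : (2 : ℝ) ≤ b := by exact_mod_cast hb
  have hlb : 0 < log (b : ℝ) := log_pos (by exact_mod_cast (by omega : 1 < b))
  have hlq : 0 < log (q : ℝ) := log_pos (by exact_mod_cast (by omega : 1 < q))
  obtain ⟨L, hL⟩ := exists_pow_lt_of_lt_one hr (by
    rw [inv_lt_one₀ (by linarith)]; linarith : ((b : ℝ))⁻¹ < 1)
  have hL' : 1 / (b : ℝ) ^ L ≤ r := by
    rw [inv_pow] at hL
    rw [one_div]; exact hL.le
  have hs0 : 0 < s := by linarith
  set l : ℝ := min (log b) (log q) with hl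
  have hl0 : 0 < l := lt_min hlb hlq
  set w : ℝ := l / α with hw
  have hw0 : 0 < w := div_pos hl0 hα
  obtain ⟨N2, hN2⟩ := exists_nat_gt (1 / w)
  set c1 : ℝ := β * (w / 4) ^ s / (L + 1) with hc1
  have hc10 : 0 < c1 := by positivity
  -- the linear term is negligible
  have hlin : ∀ᶠ N : ℕ in atTop, (N : ℝ) ≤ c1 / 2 * (N : ℝ) ^ s := by
    have ht := (tendsto_rpow_atTop (by linarith : 0 < s - 1)).comp
      (tendsto_natCast_atTop_atTop (R := ℝ))
    filter_upwards [ht.eventually_ge_atTop (2 / c1), eventually_ge_atTop 1] with N hN h1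
    have hNR : (1 : ℝ) ≤ N := by exact_mod_cast h1
    have hN0 : (0 : ℝ) < N := by linarith
    have h2 : 2 / c1 ≤ (N : ℝ) ^ (s - 1) := hN
    have h3 : (N : ℝ) ^ s = (N : ℝ) ^ (s - 1) * N := by
      rw [← rpow_add_one hN0.ne']; ring_nf
    rw [h3]
    have h4 : 1 ≤ c1 / 2 * (N : ℝ) ^ (s - 1) := by
      rw [div_le_iff₀ hc10] at h2
      linarith
    nlinarith
  obtain ⟨T1, hT1⟩ := eventually_atTop.mp hlin
  refine ⟨c1 / 2, by positivity, max T1 (2 * L + 6 + 4 * N2), ?_⟩
  intro T hT a ha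
  have hT2 : T1 ≤ T := le_trans (le_max_left _ _) hT
  have hT3 : 2 * L + 6 + 4 * N2 ≤ T := le_trans (le_max_right _ _) hT
  have hTlin := hT1 T hT2
  obtain ⟨M, hM1, hM2, hM3⟩ : ∃ M : ℕ, 2 * M + 2 + L ≤ T ∧ T ≤ 4 * M ∧ N2 ≤ M :=
    ⟨(T - 2 - L) / 2, by omega, by omega, by omega⟩
  have hMR : ((N2 : ℝ)) ≤ M := by exact_mod_cast hM3
  have ht1 : 1 ≤ w * M := by
    have h1 : 1 / w < M := by linarith
    rw [div_lt_iff₀ hw0] at h1
    linarith
  obtain ⟨N', hGN, hN'⟩ := hgr (w * M) ht1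
  have hRe : α * (w * M) = l * M := by rw [hw]; field_simp
  have hM0 : (0 : ℝ) ≤ M := Nat.cast_nonneg _
  have hA : α * (w * M) < (M + 1) * log b := by
    have h1 : l * M ≤ log b * M := mul_le_mul_of_nonneg_right (min_le_left _ _) hM0
    linarith
  have hB : α * (w * M) < (M + 1) * log q := by
    have h1 : l * M ≤ log q * M := mul_le_mul_of_nonneg_right (min_le_right _ _) hM0
    linarith
  set x : ℝ := (a : ℝ) / (b : ℝ) ^ (M + 1) with hx
  set y : UnitAddCircle := ((((b : ℝ) - 1) * x : ℝ) : UnitAddCircle) with hy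
  have hnd : ¬ b ∣ (b - 1) * (q ^ M * a) := by
    intro hdvd
    have hc2 : Nat.Coprime b (b - 1) := by
      have := Nat.coprime_self_sub_right (n := b) (m := 1) (by omega)
      rw [this]; exact Nat.coprime_one_right _
    have h1 : b ∣ q ^ M * a := hc2.dvd_of_dvd_mul_left hdvd
    exact ha ((Nat.Coprime.pow_right M hco).dvd_of_dvd_mul_left h1)
  have hyM : exp (-(log b)) ≤ ‖(b ^ M * q ^ M) • y‖ := by
    have e1 : (b ^ M * q ^ M) • y
        = (((((b - 1) * (q ^ M * a) : ℕ) : ℝ) / (b : ℝ) : ℝ) : UnitAddCircle) := by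
      rw [hy, ← AddCircle.coe_nsmul, nsmul_eq_mul]
      congr 1
      rw [hx, pow_succ]
      push_cast
      rw [Nat.cast_sub (by omega)]
      push_cast
      have : (b : ℝ) ≠ 0 := by positivity
      field_simp
    rw [e1, Pool.Agent.H706R2.norm_coe_eq_dZ]
    refine le_trans (le_of_eq ?_) (dZ_frac (by omega) hnd)
    rw [exp_neg, exp_log (by positivity), one_div]
  have hcnt := count_far2 (I := 1) hb hq hrp hGN hA hB (by simp) y hyM
  have hsub : ((Finset.range (2 * M + 1 + 1) ×ˢ Finset.range (2 * M + 1)).filter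
      (fun u => r ≤ ‖(b ^ u.1 * q ^ u.2) • y‖)).card ≤
      ((Finset.range (2 * M + 2) ×ˢ Finset.range (2 * M + 2)).filter
        (fun u => r ≤ ‖(b ^ u.1 * q ^ u.2) • y‖)).card := by
    refine Finset.card_le_card (Finset.filter_subset_filter _ (Finset.product_subset_product ?_ ?_))
    · exact Finset.range_subset_range.mpr (by omega)
    · exact Finset.range_subset_range.mpr (by omega)
  have h2 := changes_lower (q := q) hb hL' x (2 * M + 2)
  -- comparison of the digit changes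
  have hcomp : ∑ n ∈ Finset.range (2 * M + 2 + L), ((Finset.range (2 * M + 2 + L)).filter
      (fun i => dig b ((q : ℝ) ^ n * x) i ≠ dig b ((q : ℝ) ^ n * x) (i + 1))).card ≤
      T + ∑ n ∈ Finset.range T, ((Finset.range T).filter
        (fun k => a * q ^ n / b ^ k % b ≠ a * q ^ n / b ^ (k + 1) % b)).card := by
    have h3 : ∀ n : ℕ, ((Finset.range (2 * M + 2 + L)).filter
        (fun i => dig b ((q : ℝ) ^ n * x) i ≠ dig b ((q : ℝ) ^ n * x) (i + 1))).card ≤
        1 + ((Finset.range T).filter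
        (fun k => a * q ^ n / b ^ k % b ≠ a * q ^ n / b ^ (k + 1) % b)).card := by
      intro n
      have hss : (Finset.range (2 * M + 2 + L)).filter
          (fun i => dig b ((q : ℝ) ^ n * x) i ≠ dig b ((q : ℝ) ^ n * x) (i + 1)) ⊆
          insert M (((Finset.range T).filter
          (fun k => a * q ^ n / b ^ k % b ≠ a * q ^ n / b ^ (k + 1) % b)).image
            (fun k => M - 1 - k)) := by
        intro i hi
        rw [Finset.mem_filter] at hi
        rw [Finset.mem_insert, Finset.mem_image]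
        rcases Nat.lt_or_ge i (M + 1) with hlt | hge
        · rcases Nat.lt_or_ge i M with hlt2 | hge2
          · right
            refine ⟨M - 1 - i, ?_, by omega⟩
            rw [Finset.mem_filter, Finset.mem_range]
            refine ⟨by omega, ?_⟩
            have h4 := hi.2
            rw [hx, dig_mul hb (k := M - 1 - i + 1) (by omega),
              dig_mul hb (k := M - 1 - i) (by omega)] at h4
            intro h5
            exact h4 (by rw [h5])
          · left; omega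
        · exfalso
          apply hi.2
          rw [hx, dig_mul_zero hb hge, dig_mul_zero hb (by omega)]
      refine (Finset.card_le_card hss).trans ((Finset.card_insert_le _ _).trans ?_)
      rw [add_comm]
      exact Nat.add_le_add_left Finset.card_image_le _
    exact sum_aux hM1 _ _ h3
  set S := ∑ n ∈ Finset.range T, ((Finset.range T).filter
        (fun k => a * q ^ n / b ^ k % b ≠ a * q ^ n / b ^ (k + 1) % b)).card with hS
  have h6 : N' ≤ L * (T + S) :=
    (hcnt.trans hsub).trans (h2.trans (Nat.mul_le_mul_left _ hcomp))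
  exact final hβ hw0 hs0 (by exact_mod_cast h6) hN' hM2 hTlin

end Pool.Agent.TH461.SST.PowC
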